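import Pool.Agent.helper74.Jos.Lin3

set_option autoImplicit false

/-!
# Reality of the zeros for real parameters, and absence of zeros on large squares
-/

open Set Filter Topology Metric MeasureTheory Complex
open scoped Real NNReal

namespace Pool.Agent.Josephson

theorem inner_formula (z q w s : ℂ) :
    inner ℝ z (I * q * z + s * w) = -q.im * ‖z‖ ^ 2 + ((starRingEnd ℂ) z * (s * w)).re := by
  rw [Complex.inner, ← Complex.normSq_eq_norm_sq, Complex.normSq_apply]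
  simp only [Complex.mul_re, Complex.add_re, Complex.conj_re, Complex.conj_im, Complex.I_re,
    Complex.I_im, Complex.add_im, Complex.mul_im]
  ring

theorem deriv_norm_sq_u {β α r : ℂ} {u v : ℝ → ℂ} (h : LSol β α r u v) {τ : ℝ}
    (hτ : τ ∈ Icc (0:ℝ) (2 * π)) :
    HasDerivWithinAt (fun τ => ‖u τ‖ ^ 2) (2 * (-(β + α * (Real.cos τ : ℂ)).im * ‖u τ‖ ^ 2 +
      ((starRingEnd ℂ) (u τ) * (r * v τ)).re)) (Icc 0 (2 * π)) τ := by
  refine (h.hu τ hτ).norm_sq.congr_deriv ?_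
  rw [inner_formula]

theorem deriv_norm_sq_v {β α r : ℂ} {u v : ℝ → ℂ} (h : LSol β α r u v) {τ : ℝ}
    (hτ : τ ∈ Icc (0:ℝ) (2 * π)) :
    HasDerivWithinAt (fun τ => ‖v τ‖ ^ 2) (2 * ((β + α * (Real.cos τ : ℂ)).im * ‖v τ‖ ^ 2 +
      ((starRingEnd ℂ) (v τ) * (r * u τ)).re)) (Icc 0 (2 * π)) τ := by
  refine (h.hv τ hτ).norm_sq.congr_deriv ?_
  have h1 : r * u τ - I * (β + α * (Real.cos τ : ℂ)) * v τ =
      I * (-(β + α * (Real.cos τ : ℂ))) * v τ + r * u τ := by ring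
  rw [h1, inner_formula, Complex.neg_im, neg_neg]

/-- For real `α`, `r` the boundary value problem is self-adjoint: `β` is real. -/
theorem im_eq_zero {β : ℂ} {a r : ℝ} {u v : ℝ → ℂ} (h : LSol β a r u v) {e : ℂ}
    (he : ‖e‖ = 1) (hu0 : u 0 = e * v 0) (hv0 : v 0 ≠ 0) (hu : u (2 * π) = e * v (2 * π)) :
    β.im = 0 := by
  have hpi : 0 < 2 * π := by positivity
  have hd : ∀ τ ∈ Icc (0:ℝ) (2 * π), HasDerivWithinAt (fun τ => ‖u τ‖ ^ 2 - ‖v τ‖ ^ 2)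
      (-(2 * β.im) * (‖u τ‖ ^ 2 + ‖v τ‖ ^ 2)) (Icc 0 (2 * π)) τ := by
    intro τ hτ
    refine ((deriv_norm_sq_u h hτ).sub (deriv_norm_sq_v h hτ)).congr_deriv ?_
    have h1 : (β + (a : ℂ) * (Real.cos τ : ℂ)).im = β.im := by
      simp only [Complex.add_im, ← Complex.ofReal_mul, Complex.ofReal_im, add_zero]
    rw [h1]
    simp only [Complex.mul_re, Complex.conj_re, Complex.conj_im, Complex.mul_im,
      Complex.ofReal_re, Complex.ofReal_im]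
    ring
  have h0 : (fun τ => ‖u τ‖ ^ 2 - ‖v τ‖ ^ 2) 0 = 0 := by
    simp only [hu0, norm_mul, he, one_mul, sub_self]
  have h1 : (fun τ => ‖u τ‖ ^ 2 - ‖v τ‖ ^ 2) (2 * π) = 0 := by
    simp only [hu, norm_mul, he, one_mul, sub_self]
  have hcont : ContinuousOn (fun τ => ‖u τ‖ ^ 2 - ‖v τ‖ ^ 2) (Icc 0 (2 * π)) :=
    fun τ hτ => (hd τ hτ).continuousWithinAt
  by_contra hne
  have hconst : ∀ τ ∈ Icc (0:ℝ) (2 * π), (fun τ => ‖u τ‖ ^ 2 - ‖v τ‖ ^ 2) τ = 0 := by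
    intro τ hτ
    rcases lt_or_gt_of_ne hne with hlt | hgt
    · have hm : MonotoneOn (fun τ => ‖u τ‖ ^ 2 - ‖v τ‖ ^ 2) (Icc 0 (2 * π)) := by
        apply monotoneOn_of_hasDerivWithinAt_nonneg (convex_Icc _ _) hcont
          (fun τ hτ => (hd τ (interior_subset hτ)).mono interior_subset)
        intro τ _
        have : 0 ≤ -(2 * β.im) := by linarith
        positivity
      have e1 := hm zero_mem_I hτ hτ.1
      have e2 := hm hτ twopi_mem_I hτ.2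
      rw [h0] at e1
      rw [h1] at e2
      exact le_antisymm e2 e1
    · have hm : AntitoneOn (fun τ => ‖u τ‖ ^ 2 - ‖v τ‖ ^ 2) (Icc 0 (2 * π)) := by
        apply antitoneOn_of_hasDerivWithinAt_nonpos (convex_Icc _ _) hcont
          (fun τ hτ => (hd τ (interior_subset hτ)).mono interior_subset)
        intro τ _
        have h3 : 0 ≤ ‖u τ‖ ^ 2 + ‖v τ‖ ^ 2 := by positivity
        nlinarith
      have e1 := hm zero_mem_I hτ hτ.1
      have e2 := hm hτ twopi_mem_I hτ.2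
      rw [h0] at e1
      rw [h1] at e2
      exact le_antisymm e1 e2
  have hd0 : HasDerivWithinAt (fun τ => ‖u τ‖ ^ 2 - ‖v τ‖ ^ 2) 0 (Icc 0 (2 * π)) 0 :=
    (hasDerivWithinAt_const (0:ℝ) (Icc 0 (2 * π)) (0:ℝ)).congr hconst (hconst 0 zero_mem_I)
  have huniq := (uniqueDiffOn_Icc hpi) 0 zero_mem_I |>.eq_deriv _ hd0 (hd 0 zero_mem_I)
  have h3 : 0 < ‖u 0‖ ^ 2 + ‖v 0‖ ^ 2 := by
    have : 0 < ‖v 0‖ := norm_pos_iff.2 hv0
    positivity
  have h4 : -(2 * β.im) = 0 := by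
    rcases mul_eq_zero.1 huniq.symm with h5 | h5
    · exact h5
    · exact absurd h5 h3.ne'
  exact hne (by linarith)

/-- Growth of solutions. -/
theorem growth {β α r : ℂ} {u v : ℝ → ℂ} (h : LSol β α r u v) {R : ℝ} (hα : ‖α‖ ≤ R)
    (hr : ‖r‖ ≤ R) (hβ : β.im ≤ 0) : ∀ τ ∈ Icc (0:ℝ) (2 * π),
    ‖u τ‖ ^ 2 + ‖v τ‖ ^ 2 ≤ (‖u 0‖ ^ 2 + ‖v 0‖ ^ 2) * Real.exp ((2 * -β.im + 4 * R) * τ) := by
  have hR : 0 ≤ R := (norm_nonneg α).trans hα
  set c := 2 * -β.im + 4 * R with hc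
  have hd : ∀ τ ∈ Icc (0:ℝ) (2 * π), HasDerivWithinAt
      (fun τ => (‖u τ‖ ^ 2 + ‖v τ‖ ^ 2) * Real.exp (-c * τ))
      ((2 * (-(β + α * (Real.cos τ : ℂ)).im * ‖u τ‖ ^ 2 +
        ((starRingEnd ℂ) (u τ) * (r * v τ)).re) + 2 * ((β + α * (Real.cos τ : ℂ)).im * ‖v τ‖ ^ 2 +
        ((starRingEnd ℂ) (v τ) * (r * u τ)).re)) * Real.exp (-c * τ) +
        (‖u τ‖ ^ 2 + ‖v τ‖ ^ 2) * (Real.exp (-c * τ) * -c)) (Icc 0 (2 * π)) τ := by
    intro τ hτ
    have h1 : HasDerivAt (fun τ : ℝ => Real.exp (-c * τ)) (Real.exp (-c * τ) * -c) τ := by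
      have := ((hasDerivAt_id τ).const_mul (-c)).exp
      simpa using this
    exact ((deriv_norm_sq_u h hτ).add (deriv_norm_sq_v h hτ)).mul h1.hasDerivWithinAt
  have hm : AntitoneOn (fun τ => (‖u τ‖ ^ 2 + ‖v τ‖ ^ 2) * Real.exp (-c * τ)) (Icc 0 (2 * π)) := by
    apply antitoneOn_of_hasDerivWithinAt_nonpos (convex_Icc _ _)
      (fun τ hτ => (hd τ hτ).continuousWithinAt)
      (fun τ hτ => (hd τ (interior_subset hτ)).mono interior_subset)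
    intro τ _
    have e0 := Real.exp_pos (-c * τ)
    have e1 : |(α * (Real.cos τ : ℂ)).im| ≤ R := by
      refine (Complex.abs_im_le_norm _).trans ?_
      rw [norm_mul, Complex.norm_real, Real.norm_eq_abs]
      exact (mul_le_of_le_one_right (norm_nonneg _) (Real.abs_cos_le_one τ)).trans hα
    have e2 : ((starRingEnd ℂ) (u τ) * (r * v τ)).re ≤ R * (‖u τ‖ * ‖v τ‖) := by
      refine (Complex.re_le_norm _).trans ?_
      rw [norm_mul, norm_mul, RCLike.norm_conj]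
      have := mul_le_mul_of_nonneg_right hr (by positivity : 0 ≤ ‖u τ‖ * ‖v τ‖)
      linarith
    have e3 : ((starRingEnd ℂ) (v τ) * (r * u τ)).re ≤ R * (‖u τ‖ * ‖v τ‖) := by
      refine (Complex.re_le_norm _).trans ?_
      rw [norm_mul, norm_mul, RCLike.norm_conj]
      have := mul_le_mul_of_nonneg_right hr (by positivity : 0 ≤ ‖u τ‖ * ‖v τ‖)
      linarith
    have e4 : ‖u τ‖ * ‖v τ‖ ≤ (‖u τ‖ ^ 2 + ‖v τ‖ ^ 2) / 2 := by
      nlinarith [sq_nonneg (‖u τ‖ - ‖v τ‖)]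
    rw [Complex.add_im]
    set m := (α * (Real.cos τ : ℂ)).im with hm
    have e5 := abs_le.1 e1
    have hU : 0 ≤ ‖u τ‖ ^ 2 := by positivity
    have hV : 0 ≤ ‖v τ‖ ^ 2 := by positivity
    have e6 : -(β.im + m) * ‖u τ‖ ^ 2 ≤ (-β.im + R) * ‖u τ‖ ^ 2 :=
      mul_le_mul_of_nonneg_right (by linarith [e5.1]) hU
    have e7 : (β.im + m) * ‖v τ‖ ^ 2 ≤ (-β.im + R) * ‖v τ‖ ^ 2 :=
      mul_le_mul_of_nonneg_right (by linarith [e5.2]) hV
    have e8 : R * (‖u τ‖ * ‖v τ‖) ≤ R * ((‖u τ‖ ^ 2 + ‖v τ‖ ^ 2) / 2) :=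
      mul_le_mul_of_nonneg_left e4 hR
    have e9 : 2 * (-(β.im + m) * ‖u τ‖ ^ 2 + ((starRingEnd ℂ) (u τ) * (r * v τ)).re) +
        2 * ((β.im + m) * ‖v τ‖ ^ 2 + ((starRingEnd ℂ) (v τ) * (r * u τ)).re) ≤
        c * (‖u τ‖ ^ 2 + ‖v τ‖ ^ 2) := by
      rw [hc]
      nlinarith
    have e10 := mul_le_mul_of_nonneg_right e9 e0.le
    linarith
  intro τ hτ
  have h1 := hm zero_mem_I hτ hτ.1
  simp only [mul_zero, Real.exp_zero, mul_one] at h1
  have h2 := mul_le_mul_of_nonneg_right h1 (Real.exp_pos (c * τ)).le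
  rw [mul_assoc, ← Real.exp_add, neg_mul, neg_add_cancel, Real.exp_zero, mul_one] at h2
  exact h2

end Pool.Agent.Josephson
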