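import Pool.Agent.helper74.Jos.Asym

set_option autoImplicit false

/-!
# Asymptotics of the boundary value problem for large `β`
-/

open Set Filter Topology Metric MeasureTheory Complex
open scoped Real NNReal

namespace Pool.Agent.Josephson

theorem norm_e {e : ℂ} (he : e ^ 2 = -1) : ‖e‖ = 1 := by
  have h : ‖e‖ ^ 2 = 1 := by rw [← norm_pow, he]; simp
  have h2 := norm_nonneg e
  nlinarith

section

variable {β α r : ℂ} {u v : ℝ → ℂ} {R : ℝ}

theorem q_lower (hα : ‖α‖ ≤ R) (hβR : 2 * R ≤ ‖β‖) (τ : ℝ) :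
    ‖β‖ / 2 ≤ ‖β + α * (Real.cos τ : ℂ)‖ := by
  have h1 : ‖α * (Real.cos τ : ℂ)‖ ≤ R := by
    rw [norm_mul, Complex.norm_real, Real.norm_eq_abs]
    exact (mul_le_of_le_one_right (norm_nonneg _) (Real.abs_cos_le_one τ)).trans hα
  have h2 := norm_sub_norm_le β (-(α * (Real.cos τ : ℂ)))
  rw [norm_neg, sub_neg_eq_add] at h2
  linarith

/-- the phase -/
noncomputable def th (β α : ℂ) (τ : ℝ) : ℂ := β * (τ : ℂ) + α * (Real.sin τ : ℂ)

theorem th_deriv (β α : ℂ) (τ : ℝ) : HasDerivAt (th β α) (β + α * (Real.cos τ : ℂ)) τ := by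
  have h1 : HasDerivAt (fun τ : ℝ => (τ : ℂ)) 1 τ := by
    have := (hasDerivAt_id τ).ofReal_comp
    simpa using this
  have h2 : HasDerivAt (fun τ : ℝ => (Real.sin τ : ℂ)) (Real.cos τ : ℂ) τ :=
    (Real.hasDerivAt_sin τ).ofReal_comp
  have h3 := (h1.const_mul β).add (h2.const_mul α)
  rw [mul_one] at h3
  exact h3

/-- the correction coefficient -/
noncomputable def kap (β α r : ℂ) (τ : ℝ) : ℂ := r / (2 * I * (β + α * (Real.cos τ : ℂ)))

/-- derivative of the correction coefficient -/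
noncomputable def kap' (β α r : ℂ) (τ : ℝ) : ℂ :=
  r * α * (Real.sin τ : ℂ) / (2 * I * (β + α * (Real.cos τ : ℂ)) ^ 2)

theorem kap_deriv (τ : ℝ) (hq : β + α * (Real.cos τ : ℂ) ≠ 0) :
    HasDerivAt (kap β α r) (kap' β α r τ) τ := by
  have h1 : HasDerivAt (fun τ : ℝ => (Real.cos τ : ℂ)) (((-Real.sin τ : ℝ)) : ℂ) τ :=
    (Real.hasDerivAt_cos τ).ofReal_comp
  have h2 := ((h1.const_mul α).const_add β).const_mul (2 * I)
  have hne : 2 * I * (β + α * (Real.cos τ : ℂ)) ≠ 0 :=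
    mul_ne_zero (mul_ne_zero two_ne_zero I_ne_zero) hq
  have h3 := (hasDerivAt_const τ r).fun_div h2 hne
  refine h3.congr_deriv ?_
  unfold kap'
  have hI : (2 * I : ℂ) ≠ 0 := mul_ne_zero two_ne_zero I_ne_zero
  rw [div_eq_div_iff (pow_ne_zero 2 hne) (mul_ne_zero hI (pow_ne_zero 2 hq))]
  push_cast
  ring

theorem X_deriv (h : LSol β α r u v) {τ : ℝ} (hτ : τ ∈ Icc (0:ℝ) (2 * π))
    (hq : β + α * (Real.cos τ : ℂ) ≠ 0) :
    HasDerivWithinAt (fun τ => cexp (-(I * th β α τ)) * (u τ + kap β α r τ * v τ))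
      (cexp (-(I * th β α τ)) * (kap β α r τ * r * u τ + kap' β α r τ * v τ))
      (Icc 0 (2 * π)) τ := by
  have h1 := (((th_deriv β α τ).const_mul I).neg).cexp.hasDerivWithinAt (s := Icc 0 (2 * π))
  have h2 := (h.hu τ hτ).add (((kap_deriv (r := r) τ hq).hasDerivWithinAt).mul (h.hv τ hτ))
  refine (h1.mul h2).congr_deriv ?_
  have h3 : 2 * I * (β + α * (Real.cos τ : ℂ)) * kap β α r τ = r := by
    unfold kap
    exact mul_div_cancel₀ _ (mul_ne_zero (mul_ne_zero two_ne_zero I_ne_zero) hq)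
  simp only [Pi.add_apply, Pi.mul_apply, Pi.neg_apply]
  linear_combination (-cexp (-(I * th β α τ)) * v τ) * h3

theorem Y_deriv (h : LSol β α r u v) {τ : ℝ} (hτ : τ ∈ Icc (0:ℝ) (2 * π))
    (hq : β + α * (Real.cos τ : ℂ) ≠ 0) :
    HasDerivWithinAt (fun τ => cexp (I * th β α τ) * (v τ - kap β α r τ * u τ))
      (cexp (I * th β α τ) * (-(kap β α r τ * r * v τ) - kap' β α r τ * u τ))
      (Icc 0 (2 * π)) τ := by
  have h1 := ((th_deriv β α τ).const_mul I).cexp.hasDerivWithinAt (s := Icc 0 (2 * π))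
  have h2 := (h.hv τ hτ).sub (((kap_deriv (r := r) τ hq).hasDerivWithinAt).mul (h.hu τ hτ))
  refine (h1.mul h2).congr_deriv ?_
  have h3 : 2 * I * (β + α * (Real.cos τ : ℂ)) * kap β α r τ = r := by
    unfold kap
    exact mul_div_cancel₀ _ (mul_ne_zero (mul_ne_zero two_ne_zero I_ne_zero) hq)
  simp only [Pi.sub_apply, Pi.mul_apply]
  linear_combination (-cexp (I * th β α τ) * u τ) * h3

theorem kap_bound (hR : 1 ≤ R) (hα : ‖α‖ ≤ R) (hr : ‖r‖ ≤ R) (hβR : 2 * R ≤ ‖β‖) (τ : ℝ) :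
    ‖kap β α r τ‖ ≤ R / ‖β‖ ∧ ‖kap' β α r τ‖ ≤ R / ‖β‖ := by
  have hβ0 : 0 < ‖β‖ := by linarith
  have hq := q_lower hα hβR τ
  have hq0 : 0 < ‖β + α * (Real.cos τ : ℂ)‖ := by linarith
  constructor
  · unfold kap
    rw [norm_div, norm_mul, norm_mul, norm_I, mul_one, Complex.norm_ofNat,
      div_le_div_iff₀ (by positivity) hβ0]
    have h1 : ‖β‖ ≤ 2 * ‖β + α * (Real.cos τ : ℂ)‖ := by linarith
    exact mul_le_mul hr h1 hβ0.le (by linarith)
  · unfold kap'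
    rw [norm_div, norm_mul, norm_mul, norm_mul, norm_mul, norm_pow, norm_I, mul_one,
      Complex.norm_ofNat, Complex.norm_real, Real.norm_eq_abs, div_le_div_iff₀ (by positivity) hβ0]
    have h1 : ‖r‖ * ‖α‖ * |Real.sin τ| ≤ R * R := by
      have h2 := mul_le_mul hr hα (norm_nonneg _) (by linarith : 0 ≤ R)
      have h3 := mul_le_of_le_one_right (by positivity : 0 ≤ ‖r‖ * ‖α‖) (Real.abs_sin_le_one τ)
      linarith
    have h2 : ‖r‖ * ‖α‖ * |Real.sin τ| * ‖β‖ ≤ R * R * ‖β‖ :=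
      mul_le_mul_of_nonneg_right h1 hβ0.le
    have h3 : (‖β‖ / 2) ^ 2 ≤ ‖β + α * (Real.cos τ : ℂ)‖ ^ 2 :=
      pow_le_pow_left₀ (by positivity) hq 2
    have h4 : R * R * ‖β‖ ≤ R * (2 * (‖β‖ / 2) ^ 2) := by
      have h5 : R * ‖β‖ ≤ 2 * (‖β‖ / 2) ^ 2 := by nlinarith
      have := mul_le_mul_of_nonneg_left h5 (by linarith : 0 ≤ R)
      linarith
    have h5 : R * (2 * (‖β‖ / 2) ^ 2) ≤ R * (2 * ‖β + α * (Real.cos τ : ℂ)‖ ^ 2) :=
      mul_le_mul_of_nonneg_left (by linarith) (by linarith)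
    linarith

theorem exp_th_bound (hα : ‖α‖ ≤ R) (τ : ℝ) :
    ‖cexp (-(I * th β α τ))‖ ≤ Real.exp R * Real.exp (β.im * τ) ∧
    ‖cexp (I * th β α τ)‖ ≤ Real.exp R * Real.exp (-β.im * τ) := by
  have h1 : |(α * (Real.sin τ : ℂ)).im| ≤ R := by
    refine (Complex.abs_im_le_norm _).trans ?_
    rw [norm_mul, Complex.norm_real, Real.norm_eq_abs]
    exact (mul_le_of_le_one_right (norm_nonneg _) (Real.abs_sin_le_one τ)).trans hα
  have h2 : (I * th β α τ).re = -(β.im * τ + (α * (Real.sin τ : ℂ)).im) := by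
    unfold th
    simp [Complex.mul_re, Complex.mul_im]
  have h3 := abs_le.1 h1
  rw [Complex.norm_exp, Complex.norm_exp, Complex.neg_re, h2, ← Real.exp_add, ← Real.exp_add]
  constructor
  · apply Real.exp_le_exp.2
    linarith [h3.2]
  · apply Real.exp_le_exp.2
    linarith [h3.1]

theorem uv_bound (h : LSol β α r u v) (hR : 1 ≤ R) (hα : ‖α‖ ≤ R) (hr : ‖r‖ ≤ R)
    (hβ : β.im ≤ 0) (h0 : ‖u 0‖ ^ 2 + ‖v 0‖ ^ 2 ≤ 2) {τ : ℝ} (hτ : τ ∈ Icc (0:ℝ) (2 * π)) :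
    ‖u τ‖ ≤ 2 * Real.exp (4 * π * R) * Real.exp (-β.im * τ) ∧
    ‖v τ‖ ≤ 2 * Real.exp (4 * π * R) * Real.exp (-β.im * τ) := by
  have h1 := growth h hα hr hβ τ hτ
  have h2 : (‖u 0‖ ^ 2 + ‖v 0‖ ^ 2) * Real.exp ((2 * -β.im + 4 * R) * τ) ≤
      (2 * Real.exp (4 * π * R) * Real.exp (-β.im * τ)) ^ 2 := by
    have h3 : (2 * Real.exp (4 * π * R) * Real.exp (-β.im * τ)) ^ 2 =
        4 * Real.exp (8 * π * R + 2 * -β.im * τ) := by
      rw [mul_pow, mul_pow, ← Real.exp_nat_mul, ← Real.exp_nat_mul, mul_assoc, ← Real.exp_add]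
      push_cast
      ring_nf
    rw [h3]
    have h4 : Real.exp ((2 * -β.im + 4 * R) * τ) ≤ Real.exp (8 * π * R + 2 * -β.im * τ) := by
      apply Real.exp_le_exp.2
      have : 4 * R * τ ≤ 4 * R * (2 * π) := mul_le_mul_of_nonneg_left hτ.2 (by linarith)
      linarith
    have h5 := Real.exp_pos ((2 * -β.im + 4 * R) * τ)
    have h6 : (‖u 0‖ ^ 2 + ‖v 0‖ ^ 2) * Real.exp ((2 * -β.im + 4 * R) * τ) ≤
      2 * Real.exp ((2 * -β.im + 4 * R) * τ) := mul_le_mul_of_nonneg_right h0 h5.le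
    linarith
  have h3 := h1.trans h2
  have hU : 0 ≤ ‖u τ‖ ^ 2 := by positivity
  have hV : 0 ≤ ‖v τ‖ ^ 2 := by positivity
  constructor
  · apply (pow_le_pow_iff_left₀ (norm_nonneg _) (by positivity) two_ne_zero).1
    linarith
  · apply (pow_le_pow_iff_left₀ (norm_nonneg _) (by positivity) two_ne_zero).1
    linarith

end

/-- The key asymptotic estimate (lower half plane). -/
theorem asym_bound (R : ℝ) (hR : 1 ≤ R) : ∃ C > 0, ∀ (β α r e : ℂ) (u v : ℝ → ℂ), ‖α‖ ≤ R →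
    ‖r‖ ≤ R → 2 * R ≤ ‖β‖ → β.im ≤ 0 → e ^ 2 = -1 → LSol β α r u v → u 0 = e * v 0 → ‖v 0‖ = 1 →
    u (2 * π) = e * v (2 * π) →
    ‖cexp (I * (β * ((2 * π : ℝ) : ℂ))) - cexp (-(I * (β * ((2 * π : ℝ) : ℂ))))‖ ≤
      C / ‖β‖ * Real.exp (-β.im * (2 * π)) := by
  have hpi : 0 < 2 * π := by positivity
  set G := 2 * Real.exp (4 * π * R) with hG
  have hG0 : 0 < G := by positivity
  set D := Real.exp R * (R * (R + 1) * G) with hD
  have hD0 : 0 < D := by positivity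
  refine ⟨8 * π * D, by positivity, ?_⟩
  intro β α r e u v hα hr hβR hβ he h hu0 hv0 hu
  have hβ0 : 0 < ‖β‖ := by linarith
  have hq0 : ∀ τ : ℝ, β + α * (Real.cos τ : ℂ) ≠ 0 := fun τ => by
    rw [← norm_pos_iff]
    linarith [q_lower hα hβR τ]
  have he1 := norm_e he
  have h0 : ‖u 0‖ ^ 2 + ‖v 0‖ ^ 2 ≤ 2 := by
    rw [hu0, norm_mul, he1, hv0]; norm_num
  -- bounds for the two error terms
  have hX : ∀ τ ∈ Icc (0:ℝ) (2 * π),
      ‖cexp (-(I * th β α τ)) * (kap β α r τ * r * u τ + kap' β α r τ * v τ)‖ ≤ D / ‖β‖ := by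
    intro τ hτ
    obtain ⟨k1, k2⟩ := kap_bound hR hα hr hβR τ
    obtain ⟨b1, b2⟩ := uv_bound h hR hα hr hβ h0 hτ
    have e1 := (exp_th_bound (β := β) hα τ).1
    rw [← hG] at b1 b2
    have m1 : ‖kap β α r τ * r * u τ + kap' β α r τ * v τ‖ ≤
        R / ‖β‖ * R * (G * Real.exp (-β.im * τ)) + R / ‖β‖ * (G * Real.exp (-β.im * τ)) := by
      refine (norm_add_le _ _).trans ?_
      rw [norm_mul, norm_mul, norm_mul]
      have hRb : 0 ≤ R / ‖β‖ := by positivity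
      exact add_le_add (mul_le_mul (mul_le_mul k1 hr (norm_nonneg _) hRb) b1 (norm_nonneg _)
        (by positivity)) (mul_le_mul k2 b2 (norm_nonneg _) hRb)
    rw [norm_mul]
    refine (mul_le_mul e1 m1 (norm_nonneg _) (by positivity)).trans (le_of_eq ?_)
    have h3 : Real.exp (β.im * τ) * Real.exp (-β.im * τ) = 1 := by
      rw [← Real.exp_add]; simp
    have h4 : Real.exp R * Real.exp (β.im * τ) * (R / ‖β‖ * R * (G * Real.exp (-β.im * τ)) +
        R / ‖β‖ * (G * Real.exp (-β.im * τ))) =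
        D / ‖β‖ * (Real.exp (β.im * τ) * Real.exp (-β.im * τ)) := by
      rw [hD]
      ring
    rw [h4, h3, mul_one]
  have hY : ∀ τ ∈ Icc (0:ℝ) (2 * π),
      ‖cexp (I * th β α τ) * (-(kap β α r τ * r * v τ) - kap' β α r τ * u τ)‖ ≤
        D / ‖β‖ * Real.exp (-β.im * (2 * π)) ^ 2 := by
    intro τ hτ
    obtain ⟨k1, k2⟩ := kap_bound hR hα hr hβR τ
    obtain ⟨b1, b2⟩ := uv_bound h hR hα hr hβ h0 hτ
    have e1 := (exp_th_bound (β := β) hα τ).2
    rw [← hG] at b1 b2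
    have m1 : ‖-(kap β α r τ * r * v τ) - kap' β α r τ * u τ‖ ≤
        R / ‖β‖ * R * (G * Real.exp (-β.im * τ)) + R / ‖β‖ * (G * Real.exp (-β.im * τ)) := by
      refine (norm_sub_le _ _).trans ?_
      rw [norm_neg, norm_mul, norm_mul, norm_mul]
      have hRb : 0 ≤ R / ‖β‖ := by positivity
      exact add_le_add (mul_le_mul (mul_le_mul k1 hr (norm_nonneg _) hRb) b2 (norm_nonneg _)
        (by positivity)) (mul_le_mul k2 b1 (norm_nonneg _) hRb)
    rw [norm_mul]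
    have h4 : Real.exp (-β.im * τ) ≤ Real.exp (-β.im * (2 * π)) := by
      apply Real.exp_le_exp.2
      exact mul_le_mul_of_nonneg_left hτ.2 (by linarith)
    have h5 : Real.exp (-β.im * τ) ^ 2 ≤ Real.exp (-β.im * (2 * π)) ^ 2 :=
      pow_le_pow_left₀ (Real.exp_pos _).le h4 2
    have h6 : Real.exp R * Real.exp (-β.im * τ) * (R / ‖β‖ * R * (G * Real.exp (-β.im * τ)) +
        R / ‖β‖ * (G * Real.exp (-β.im * τ))) = D / ‖β‖ * Real.exp (-β.im * τ) ^ 2 := by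
      rw [hD]
      field_simp
    calc _ ≤ Real.exp R * Real.exp (-β.im * τ) * (R / ‖β‖ * R * (G * Real.exp (-β.im * τ)) +
        R / ‖β‖ * (G * Real.exp (-β.im * τ))) :=
          mul_le_mul e1 m1 (norm_nonneg _) (by positivity)
      _ = D / ‖β‖ * Real.exp (-β.im * τ) ^ 2 := h6
      _ ≤ _ := mul_le_mul_of_nonneg_left h5 (by positivity)
  -- mean value inequality
  have MX := Convex.norm_image_sub_le_of_norm_hasDerivWithin_le
    (fun τ hτ => X_deriv h hτ (hq0 τ)) hX (convex_Icc 0 (2 * π)) zero_mem_I twopi_mem_I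
  have MY := Convex.norm_image_sub_le_of_norm_hasDerivWithin_le
    (fun τ hτ => Y_deriv h hτ (hq0 τ)) hY (convex_Icc 0 (2 * π)) zero_mem_I twopi_mem_I
  have hn : ‖(2 * π - 0 : ℝ)‖ = 2 * π := by rw [sub_zero, Real.norm_eq_abs, abs_of_pos hpi]
  rw [hn] at MX MY
  have hth0 : th β α 0 = 0 := by simp [th]
  have hth1 : th β α (2 * π) = β * ((2 * π : ℝ) : ℂ) := by simp [th]
  have hkk : kap β α r (2 * π) = kap β α r 0 := by simp [kap]
  simp only [hth0, hth1, hkk, mul_zero, neg_zero, Complex.exp_zero, one_mul] at MX MY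
  set κ := kap β α r 0 with hκ
  set w := cexp (I * (β * ((2 * π : ℝ) : ℂ))) with hw
  have hw' : cexp (-(I * (β * ((2 * π : ℝ) : ℂ)))) = w⁻¹ := by rw [Complex.exp_neg]
  rw [hw'] at MX
  rw [hw']
  have hwn : ‖w‖ = Real.exp (-β.im * (2 * π)) := by
    rw [hw, Complex.norm_exp]
    congr 1
    simp [Complex.mul_re, Complex.mul_im]
  have hwpos : 0 < ‖w‖ := by rw [hwn]; exact Real.exp_pos _
  have hwne : w ≠ 0 := norm_pos_iff.1 hwpos
  rw [← hwn] at MY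
  rw [← hwn]
  set y0 := v 0 - κ * u 0 with hy0
  set y1 := v (2 * π) - κ * u (2 * π) with hy1
  have hx0 : u 0 + κ * v 0 = e * y0 := by
    rw [hy0, hu0]
    linear_combination (κ * v 0) * he
  have hx1 : u (2 * π) + κ * v (2 * π) = e * y1 := by
    rw [hy1, hu]
    linear_combination (κ * v (2 * π)) * he
  rw [hx0, hx1] at MX
  have MX' : ‖w⁻¹ * y1 - y0‖ ≤ D / ‖β‖ * (2 * π) := by
    have h3 : w⁻¹ * (e * y1) - e * y0 = e * (w⁻¹ * y1 - y0) := by ring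
    rw [h3, norm_mul, he1, one_mul] at MX
    exact MX
  -- combine
  have h4 : ‖y1 - w * y0‖ ≤ D / ‖β‖ * (2 * π) * ‖w‖ := by
    have h5 : y1 - w * y0 = w * (w⁻¹ * y1 - y0) := by
      have h5 : w * w⁻¹ = 1 := mul_inv_cancel₀ hwne
      linear_combination (-y1) * h5
    rw [h5, norm_mul, mul_comm]
    exact mul_le_mul_of_nonneg_right MX' hwpos.le
  have h6 : ‖y1 - w⁻¹ * y0‖ ≤ D / ‖β‖ * (2 * π) * ‖w‖ := by
    have h5 : y1 - w⁻¹ * y0 = w⁻¹ * (w * y1 - y0) := by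
      have h5 : w⁻¹ * w = 1 := inv_mul_cancel₀ hwne
      linear_combination (-y1) * h5
    rw [h5, norm_mul, norm_inv]
    have h7 := mul_le_mul_of_nonneg_left MY (inv_pos.2 hwpos).le
    refine h7.trans (le_of_eq ?_)
    field_simp
  have h7 : ‖(w - w⁻¹) * y0‖ ≤ 2 * (D / ‖β‖ * (2 * π) * ‖w‖) := by
    have h8 : (w - w⁻¹) * y0 = (y1 - w⁻¹ * y0) - (y1 - w * y0) := by ring
    rw [h8]
    refine (norm_sub_le _ _).trans ?_
    linarith
  have h8 : 1 / 2 ≤ ‖y0‖ := by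
    have h9 : ‖κ * u 0‖ ≤ 1 / 2 := by
      rw [norm_mul, hu0, norm_mul, he1, hv0, one_mul, mul_one]
      refine (kap_bound hR hα hr hβR 0).1.trans ?_
      rw [div_le_iff₀ hβ0]
      linarith
    have h10 := norm_sub_norm_le (v 0) (κ * u 0)
    rw [hv0, ← hy0] at h10
    linarith
  rw [norm_mul] at h7
  have h9 : ‖w - w⁻¹‖ * (1 / 2) ≤ ‖w - w⁻¹‖ * ‖y0‖ :=
    mul_le_mul_of_nonneg_left h8 (norm_nonneg _)
  have h10 : 8 * π * D / ‖β‖ * ‖w‖ = 2 * (2 * (D / ‖β‖ * (2 * π) * ‖w‖)) := by ring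
  rw [h10]
  linarith

end Pool.Agent.Josephson
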