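import Pool.Agent.helper74.Jos.Asym2

set_option autoImplicit false

/-!
# No zeros on the boundary of large squares
-/

open Set Filter Topology Metric MeasureTheory Complex
open scoped Real NNReal

namespace Pool.Agent.Josephson

/-- The characteristic function: it vanishes iff the monodromy fixes the direction `(e, 1)`. -/
noncomputable def Fz (e : ℂ) (p : ℂ × ℂ × ℂ) : ℂ := endU e 1 p - e * endV e 1 p

theorem Fz_analytic (e : ℂ) : AnalyticOnNhd ℂ (Fz e) univ := fun p hp =>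
  (endU_analytic e 1 p hp).sub (analyticAt_const.mul (endV_analytic e 1 p hp))

theorem exp_sq_eq {s : ℝ} {n : ℕ} (hs : |s| = n / 2 + 1 / 4) :
    cexp (((2 * π * s : ℝ) : ℂ) * I) * cexp (((2 * π * s : ℝ) : ℂ) * I) = -1 := by
  rw [← Complex.exp_add]
  rcases le_or_gt 0 s with h | h
  · rw [abs_of_nonneg h] at hs
    have : ((2 * π * s : ℝ) : ℂ) * I + ((2 * π * s : ℝ) : ℂ) * I = π * I + n * (2 * π * I) := by
      rw [hs]; push_cast; ring
    rw [this, Complex.exp_add, Complex.exp_pi_mul_I, Complex.exp_nat_mul_two_pi_mul_I]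
    norm_num
  · rw [abs_of_neg h] at hs
    have hs' : s = -(n / 2 + 1 / 4) := by linarith
    have : ((2 * π * s : ℝ) : ℂ) * I + ((2 * π * s : ℝ) : ℂ) * I =
        -(π * I + n * (2 * π * I)) := by
      rw [hs']; push_cast; ring
    rw [this, Complex.exp_neg, Complex.exp_add, Complex.exp_pi_mul_I,
      Complex.exp_nat_mul_two_pi_mul_I]
    norm_num

theorem lower_bound {β : ℂ} {n : ℕ} (hn : 1 ≤ n)
    (h : |β.re| = n / 2 + 1 / 4 ∨ |β.im| = n / 2 + 1 / 4) :
    1 / 2 * Real.exp (|β.im| * (2 * π)) ≤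
      ‖cexp (I * (β * ((2 * π : ℝ) : ℂ))) - cexp (-(I * (β * ((2 * π : ℝ) : ℂ))))‖ := by
  have hpi := Real.pi_gt_three
  have hW : cexp (I * (β * ((2 * π : ℝ) : ℂ))) =
      Real.exp (-(β.im * (2 * π))) * cexp (((2 * π * β.re : ℝ) : ℂ) * I) := by
    rw [Complex.ofReal_exp, ← Complex.exp_add]
    congr 1
    conv_lhs => rw [← Complex.re_add_im β]
    push_cast
    linear_combination (2 * π * β.im) * I_sq
  have hW' : cexp (-(I * (β * ((2 * π : ℝ) : ℂ)))) =
      Real.exp (β.im * (2 * π)) * (cexp (((2 * π * β.re : ℝ) : ℂ) * I))⁻¹ := by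
    rw [Complex.exp_neg, hW, mul_inv, ← Complex.ofReal_inv, ← Real.exp_neg, neg_neg]
  rw [hW, hW']
  set E := cexp (((2 * π * β.re : ℝ) : ℂ) * I) with hE
  have hEn : ‖E‖ = 1 := by rw [hE, Complex.norm_exp_ofReal_mul_I]
  have p1 := Real.exp_pos (β.im * (2 * π))
  have p2 := Real.exp_pos (-(β.im * (2 * π)))
  rcases h with h | h
  · have hEE := exp_sq_eq h
    rw [← hE] at hEE
    have hinv : E⁻¹ = -E := by
      exact inv_eq_of_mul_eq_one_left (by rw [neg_mul, hEE, neg_neg])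
    have h1 : (Real.exp (-(β.im * (2 * π))) : ℂ) * E - (Real.exp (β.im * (2 * π)) : ℂ) * E⁻¹ =
        ((Real.exp (-(β.im * (2 * π))) + Real.exp (β.im * (2 * π)) : ℝ) : ℂ) * E := by
      rw [hinv]; push_cast; ring
    rw [h1, norm_mul, hEn, mul_one, Complex.norm_real, Real.norm_eq_abs, abs_of_pos (add_pos p2 p1)]
    rcases abs_cases β.im with ⟨h2, -⟩ | ⟨h2, -⟩
    · rw [h2]; linarith
    · rw [h2, neg_mul]; linarith
  · have h1 : |‖(Real.exp (-(β.im * (2 * π))) : ℂ) * E‖ -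
        ‖(Real.exp (β.im * (2 * π)) : ℂ) * E⁻¹‖| ≤
        ‖(Real.exp (-(β.im * (2 * π))) : ℂ) * E - (Real.exp (β.im * (2 * π)) : ℂ) * E⁻¹‖ :=
      abs_norm_sub_norm_le _ _
    refine le_trans ?_ h1
    rw [norm_mul, norm_mul, norm_inv, hEn, inv_one, mul_one, mul_one, Complex.norm_real,
      Complex.norm_real, Real.norm_eq_abs, Real.norm_eq_abs, abs_of_pos p1, abs_of_pos p2]
    have hn' : (1:ℝ) ≤ n := by exact_mod_cast hn
    have key : ∀ x : ℝ, 1 ≤ x → 1 / 2 * Real.exp x ≤ Real.exp x - Real.exp (-x) := by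
      intro x hx
      have h2 := Real.add_one_le_exp x
      have h3 : Real.exp (-x) ≤ 1 / 2 := by
        rw [Real.exp_neg]
        have : (2:ℝ) ≤ Real.exp x := by linarith
        rw [one_div]
        exact inv_anti₀ two_pos this
      linarith
    have hbig : 1 ≤ |β.im| * (2 * π) := by
      rw [h]
      have : (1:ℝ) * 1 ≤ (n / 2 + 1 / 4) * (2 * π) := by nlinarith
      linarith
    have h4 := key _ hbig
    rcases abs_cases β.im with ⟨h2, h2'⟩ | ⟨h2, h2'⟩
    · rw [h2] at h4 ⊢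
      rw [abs_sub_comm]
      exact h4.trans (le_abs_self _)
    · rw [h2] at h4 ⊢
      have h5 : -(-β.im * (2 * π)) = β.im * (2 * π) := by ring
      have h6 : -(β.im * (2 * π)) = -β.im * (2 * π) := by ring
      rw [h5] at h4
      rw [h6]
      exact h4.trans (le_abs_self _)

theorem no_zero_boundary (R : ℝ) (hR : 1 ≤ R) : ∃ N₀ : ℕ, ∀ n : ℕ, N₀ ≤ n →
    ∀ e β α r : ℂ, e ^ 2 = -1 → ‖α‖ ≤ R → ‖r‖ ≤ R →
      (|β.re| = n / 2 + 1 / 4 ∨ |β.im| = n / 2 + 1 / 4) → Fz e (β, α, r) ≠ 0 := by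
  obtain ⟨C, hC, hb⟩ := asym_bound R hR
  obtain ⟨N₀, hN₀⟩ := exists_nat_gt (4 * R + 4 * C + 2)
  refine ⟨N₀, fun n hn e β α r he hα hr hβ hzero => ?_⟩
  have hn' : (N₀:ℝ) ≤ n := by exact_mod_cast hn
  have hn1 : 1 ≤ n := by
    have : (1:ℝ) ≤ n := by linarith
    exact_mod_cast this
  have hρ : (n:ℝ) / 2 + 1 / 4 ≤ ‖β‖ := by
    rcases hβ with h | h
    · rw [← h]; exact Complex.abs_re_le_norm β
    · rw [← h]; exact Complex.abs_im_le_norm β
  have hβR : 2 * R ≤ ‖β‖ := by linarith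
  have hβ0 : 0 < ‖β‖ := by linarith
  have hlow := lower_bound hn1 hβ
  have hsmall : C / ‖β‖ < 1 / 2 := by
    rw [div_lt_iff₀ hβ0]
    linarith
  obtain ⟨u, v, h, hu0, hv0, hu1, hv1⟩ := exists_LSol e 1 (β, α, r)
  have hu : u (2 * π) = e * v (2 * π) := by
    rw [hu1, hv1]
    unfold Fz at hzero
    exact sub_eq_zero.1 hzero
  have hup : ‖cexp (I * (β * ((2 * π : ℝ) : ℂ))) - cexp (-(I * (β * ((2 * π : ℝ) : ℂ))))‖ ≤
      C / ‖β‖ * Real.exp (|β.im| * (2 * π)) := by
    rcases le_or_gt β.im 0 with him | him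
    · have h1 := hb β α r e u v hα hr hβR him he h (by rw [hu0, hv0, mul_one])
        (by rw [hv0, norm_one]) hu
      rw [abs_of_nonpos him]
      exact h1
    · have he' : (-e) ^ 2 = -1 := by rw [neg_sq]; exact he
      have h1 := hb (-β) (-α) r (-e) v u (by rwa [norm_neg]) hr (by rwa [norm_neg])
        (by rw [Complex.neg_im]; linarith) he' h.swap
        (by rw [hu0, hv0]; linear_combination he)
        (by rw [hu0]; exact norm_e he)
        (by rw [hu]; linear_combination v (2 * π) * he)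
      rw [abs_of_pos him]
      have e1 : I * (-β * ((2 * π : ℝ) : ℂ)) = -(I * (β * ((2 * π : ℝ) : ℂ))) := by ring
      rw [e1, neg_neg, norm_neg, norm_sub_rev, Complex.neg_im, neg_neg] at h1
      exact h1
  have hpos := Real.exp_pos (|β.im| * (2 * π))
  have := mul_lt_mul_of_pos_right hsmall hpos
  linarith

end Pool.Agent.Josephson
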