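import Mathlib

set_option autoImplicit false

/-!
# Local complex analysis in two variables: parametric circle integrals, quotients
-/

open Set Filter Topology Metric MeasureTheory Complex
open scoped Real NNReal Interval

namespace Pool.Agent.Josephson

/-- partial derivative in the second variable of an analytic function of two variables -/
theorem analytic_snd_deriv {H : ℂ × ℂ → ℂ} {x : ℂ × ℂ} (h : AnalyticAt ℂ H x) :
    HasDerivAt (fun t => H (x.1, t)) (fderiv ℂ H x (0, 1)) x.2 := by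
  have h1 := h.differentiableAt.hasFDerivAt
  have h2 : HasDerivAt (fun t : ℂ => ((x.1, t) : ℂ × ℂ)) (0, 1) x.2 :=
    (hasDerivAt_const x.2 x.1).prodMk (hasDerivAt_id x.2)
  exact HasFDerivAt.comp_hasDerivAt (x := x.2) (l := H) (f := fun t : ℂ => ((x.1, t) : ℂ × ℂ)) h1 h2

theorem analytic_fst_deriv {H : ℂ × ℂ → ℂ} {x : ℂ × ℂ} (h : AnalyticAt ℂ H x) :
    HasDerivAt (fun z => H (z, x.2)) (fderiv ℂ H x (1, 0)) x.1 := by
  have h1 := h.differentiableAt.hasFDerivAt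
  have h2 : HasDerivAt (fun z : ℂ => ((z, x.2) : ℂ × ℂ)) (1, 0) x.1 :=
    (hasDerivAt_id x.1).prodMk (hasDerivAt_const x.1 x.2)
  exact HasFDerivAt.comp_hasDerivAt (x := x.1) (l := H) (f := fun z : ℂ => ((z, x.2) : ℂ × ℂ)) h1 h2

/-- Holomorphic dependence of circle integrals on a parameter. -/
theorem circle_param {H : ℂ × ℂ → ℂ} {z₁ t₁ : ℂ} {ε δ : ℝ} (hε : 0 < ε)
    (hH : ∀ z ∈ sphere z₁ ε, ∀ t ∈ ball t₁ δ, AnalyticAt ℂ H (z, t)) :
    AnalyticOnNhd ℂ (fun t => ∮ z in C(z₁, ε), H (z, t)) (ball t₁ δ) := by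
  apply DifferentiableOn.analyticOnNhd _ isOpen_ball
  intro t₀ ht₀
  obtain ⟨η, hη, hsub⟩ : ∃ η > 0, closedBall t₀ η ⊆ ball t₁ δ :=
    nhds_basis_closedBall.mem_iff.1 (isOpen_ball.mem_nhds ht₀)
  -- the derivative is bounded
  have hcD : ContinuousOn (fun x : ℂ × ℂ => fderiv ℂ H x (0, 1))
      (sphere z₁ ε ×ˢ closedBall t₀ η) := by
    intro x hx
    have h1 := (hH x.1 hx.1 x.2 (hsub hx.2)).fderiv.continuousAt
    exact (h1.clm_apply continuousAt_const).continuousWithinAt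
  obtain ⟨M, hM⟩ := (((isCompact_sphere z₁ ε).prod (isCompact_closedBall t₀ η)).image_of_continuousOn
    hcD.norm).bddAbove
  have hcirc : ∀ θ : ℝ, circleMap z₁ ε θ ∈ sphere z₁ ε := fun θ => circleMap_mem_sphere z₁ hε.le θ
  have hcont : ∀ t ∈ ball t₁ δ, Continuous fun θ : ℝ =>
      deriv (circleMap z₁ ε) θ • H (circleMap z₁ ε θ, t) := by
    intro t ht
    have h1 : Continuous fun θ : ℝ => H (circleMap z₁ ε θ, t) := by
      rw [continuous_iff_continuousAt]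
      intro θ
      have h2 := (hH _ (hcirc θ) t ht).continuousAt
      exact ContinuousAt.comp (f := fun θ : ℝ => ((circleMap z₁ ε θ, t) : ℂ × ℂ)) h2
        (by fun_prop)
    have h3 : Continuous fun θ : ℝ => deriv (circleMap z₁ ε) θ := by
      simp only [deriv_circleMap]
      fun_prop
    exact h3.smul h1
  have hcont' : Continuous fun θ : ℝ =>
      deriv (circleMap z₁ ε) θ • fderiv ℂ H (circleMap z₁ ε θ, t₀) (0, 1) := by
    have h1 : Continuous fun θ : ℝ => fderiv ℂ H (circleMap z₁ ε θ, t₀) (0, 1) := by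
      rw [continuous_iff_continuousAt]
      intro θ
      have h2 := (hH _ (hcirc θ) t₀ ht₀).fderiv.continuousAt
      have h3 : ContinuousAt (fun θ : ℝ => fderiv ℂ H (circleMap z₁ ε θ, t₀)) θ :=
        ContinuousAt.comp (f := fun θ : ℝ => ((circleMap z₁ ε θ, t₀) : ℂ × ℂ)) h2 (by fun_prop)
      exact h3.clm_apply continuousAt_const
    have h3 : Continuous fun θ : ℝ => deriv (circleMap z₁ ε) θ := by
      simp only [deriv_circleMap]
      fun_prop
    exact h3.smul h1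
  have key := intervalIntegral.hasDerivAt_integral_of_dominated_loc_of_deriv_le
    (F := fun (t : ℂ) (θ : ℝ) => deriv (circleMap z₁ ε) θ • H (circleMap z₁ ε θ, t))
    (F' := fun (t : ℂ) (θ : ℝ) => deriv (circleMap z₁ ε) θ •
      fderiv ℂ H (circleMap z₁ ε θ, t) (0, 1)) (x₀ := t₀) (s := ball t₀ η) (μ := volume)
    (a := 0) (b := 2 * π) (bound := fun _ => |ε| * M) (ball_mem_nhds _ hη) ?_ ?_ ?_ ?_ ?_ ?_
  · exact key.2.differentiableAt.differentiableWithinAt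
  · filter_upwards [isOpen_ball.mem_nhds ht₀] with t ht
    exact (hcont t ht).aestronglyMeasurable
  · exact (hcont t₀ ht₀).intervalIntegrable _ _
  · exact hcont'.aestronglyMeasurable
  · refine ae_of_all _ fun θ _ t ht => ?_
    rw [norm_smul]
    have h1 : ‖deriv (circleMap z₁ ε) θ‖ = |ε| := by simp [deriv_circleMap]
    rw [h1]
    apply mul_le_mul_of_nonneg_left _ (abs_nonneg _)
    exact hM ⟨(circleMap z₁ ε θ, t), ⟨hcirc θ, ball_subset_closedBall ht⟩, rfl⟩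
  · exact intervalIntegrable_const
  · refine ae_of_all _ fun θ _ t ht => ?_
    have h1 := analytic_snd_deriv (hH _ (hcirc θ) t (hsub (ball_subset_closedBall ht)))
    exact HasDerivAt.const_smul (deriv (circleMap z₁ ε) θ) h1

/-- Local quotients. -/
theorem local_quot {f g : ℂ → ℂ} {z₀ : ℂ} {m : ℕ} (hf : AnalyticAt ℂ f z₀)
    (hg : AnalyticAt ℂ g z₀) (hm : iteratedDeriv m f z₀ ≠ 0) (hfg : f z₀ = 0 → g z₀ = 0) :
    ∃ h : ℂ → ℂ, AnalyticAt ℂ h z₀ ∧ (∀ᶠ z in 𝓝 z₀, h z * f z = g z ^ m) ∧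
      ∀ᶠ z in 𝓝[≠] z₀, f z ≠ 0 := by
  have hord : ¬ ((m + 1 : ℕ) : ℕ∞) ≤ analyticOrderAt f z₀ := by
    rw [natCast_le_analyticOrderAt_iff_iteratedDeriv_eq_zero hf]
    intro h
    exact hm (h m (Nat.lt_succ_self m))
  rw [not_le] at hord
  obtain ⟨k, hk⟩ : ∃ k : ℕ, analyticOrderAt f z₀ = k :=
    ⟨_, (ENat.natCast_toNat (ne_top_of_lt hord)).symm⟩
  have hkm : k ≤ m := by
    rw [hk] at hord
    have : k < m + 1 := by exact_mod_cast hord
    omega
  obtain ⟨f₁, hf₁, hf₁0, hff₁⟩ := (hf.analyticOrderAt_eq_natCast).1 hk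
  have hf₁ne : ∀ᶠ z in 𝓝 z₀, f₁ z ≠ 0 := hf₁.continuousAt.eventually_ne hf₁0
  have hne : ∀ᶠ z in 𝓝[≠] z₀, f z ≠ 0 := by
    filter_upwards [nhdsWithin_le_nhds hf₁ne, nhdsWithin_le_nhds hff₁, self_mem_nhdsWithin]
      with z h1 h2 h3
    rw [h2, smul_eq_mul]
    exact mul_ne_zero (pow_ne_zero _ (sub_ne_zero.2 h3)) h1
  by_cases h0 : f z₀ = 0
  · -- g vanishes too
    have hg0 := hfg h0
    have hgord : ((1 : ℕ) : ℕ∞) ≤ analyticOrderAt g z₀ := by
      rw [natCast_le_analyticOrderAt_iff_iteratedDeriv_eq_zero hg]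
      intro i hi
      interval_cases i
      simpa using hg0
    obtain ⟨g₁, hg₁, hgg₁⟩ := (natCast_le_analyticOrderAt hg).1 hgord
    refine ⟨fun z => (z - z₀) ^ (m - k) * g₁ z ^ m / f₁ z, ?_, ?_, hne⟩
    · exact ((((analyticAt_id.sub analyticAt_const).pow _).mul (hg₁.pow _)).div hf₁ hf₁0)
    · filter_upwards [hf₁ne, hff₁, hgg₁] with z h1 h2 h3
      rw [h2, h3, smul_eq_mul, smul_eq_mul, pow_one, mul_pow]
      have h4 : (z - z₀) ^ m = (z - z₀) ^ (m - k) * (z - z₀) ^ k := by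
        rw [← pow_add, Nat.sub_add_cancel hkm]
      rw [h4]
      field_simp
  · refine ⟨fun z => g z ^ m / f z, (hg.pow m).div hf h0, ?_, hne⟩
    filter_upwards [hf.continuousAt.eventually_ne h0] with z hz
    exact div_mul_cancel₀ _ hz

/-- Global quotient on a set. -/
theorem exists_quot {f g : ℂ → ℂ} {A : Set ℂ} {m : ℕ} (hf : AnalyticOnNhd ℂ f A)
    (hg : AnalyticOnNhd ℂ g A) (hm : ∀ z ∈ A, iteratedDeriv m f z ≠ 0)
    (hfg : ∀ z ∈ A, f z = 0 → g z = 0) :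
    ∃ h : ℂ → ℂ, AnalyticOnNhd ℂ h A ∧ ∀ z ∈ A, h z * f z = g z ^ m := by
  classical
  have hex : ∀ z₀ : ℂ, ∃ h : ℂ → ℂ, z₀ ∈ A → (AnalyticAt ℂ h z₀ ∧
      (∀ᶠ z in 𝓝 z₀, h z * f z = g z ^ m) ∧ ∀ᶠ z in 𝓝[≠] z₀, f z ≠ 0) := by
    intro z₀
    by_cases hz : z₀ ∈ A
    · obtain ⟨h, hh⟩ := local_quot (hf z₀ hz) (hg z₀ hz) (hm z₀ hz) (hfg z₀ hz)
      exact ⟨h, fun _ => hh⟩
    · exact ⟨0, fun h => absurd h hz⟩
  choose q hq using hex
  have heq : ∀ z₀ ∈ A, (fun z => if f z ≠ 0 then g z ^ m / f z else q z z) =ᶠ[𝓝 z₀] q z₀ := by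
    intro z₀ hz₀
    obtain ⟨-, h2, h3⟩ := hq z₀ hz₀
    rw [eventually_nhdsWithin_iff] at h3
    filter_upwards [h2, h3] with z h2 h3
    by_cases hz : z = z₀
    · subst hz
      split_ifs with h
      · rw [← h2, mul_div_assoc, div_self h, mul_one]
      · rfl
    · have h := h3 hz
      rw [if_pos h, ← h2, mul_div_assoc, div_self h, mul_one]
  refine ⟨fun z => if f z ≠ 0 then g z ^ m / f z else q z z, fun z₀ hz₀ =>
    (hq z₀ hz₀).1.congr (heq z₀ hz₀).symm, fun z₀ hz₀ => ?_⟩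
  have h1 := (heq z₀ hz₀).self_of_nhds
  simp only at h1 ⊢
  rw [h1]
  exact (hq z₀ hz₀).2.1.self_of_nhds

/-- Iterated partial derivatives in the first variable are analytic. -/
theorem iter_deriv_analytic {F : ℂ × ℂ → ℂ} (hF : AnalyticOnNhd ℂ F univ) (m : ℕ) :
    ∃ Fm : ℂ × ℂ → ℂ, AnalyticOnNhd ℂ Fm univ ∧
      ∀ z t : ℂ, Fm (z, t) = iteratedDeriv m (fun z => F (z, t)) z := by
  induction m with
  | zero => exact ⟨F, hF, fun z t => by simp⟩
  | succ m ih =>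
    obtain ⟨Fm, hFm, hm⟩ := ih
    refine ⟨fun x => fderiv ℂ Fm x (1, 0), fun x hx => ?_, fun z t => ?_⟩
    · exact ((ContinuousLinearMap.apply ℂ ℂ ((1 : ℂ), (0 : ℂ))).analyticAt _).comp (hFm x hx).fderiv
    · rw [iteratedDeriv_succ]
      have h1 : iteratedDeriv m (fun z => F (z, t)) = fun z => Fm (z, t) := by
        funext w
        exact (hm w t).symm
      rw [h1]
      exact (analytic_fst_deriv (hFm (z, t) trivial)).deriv.symm

end Pool.Agent.Josephson
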