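import Pool.Agent.helper74.Jos.Cx1

set_option autoImplicit false

/-!
# The division lemma
-/

open Set Filter Topology Metric MeasureTheory Complex
open scoped Real NNReal Interval

namespace Pool.Agent.Josephson


theorem division_lemma {F G : ℂ × ℂ → ℂ} (hF : AnalyticOnNhd ℂ F univ) {z₁ t₁ : ℂ} {ρ : ℝ}
    (hρ : 0 < ρ) (hG : AnalyticAt ℂ G (z₁, t₁)) (hne : ∃ᶠ z in 𝓝 z₁, F (z, t₁) ≠ 0)
    (hgood : ∃ᶠ t in 𝓝[≠] t₁, ∀ z ∈ ball z₁ ρ, F (z, t) = 0 → G (z, t) = 0) :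
    ∀ᶠ x : ℂ × ℂ in 𝓝 (z₁, t₁), F x = 0 → G x = 0 := by
  -- the slice function and its order
  have hsl : ∀ t z : ℂ, AnalyticAt ℂ (fun z => F (z, t)) z := fun t z =>
    AnalyticAt.comp (g := F) (f := fun z : ℂ => ((z, t) : ℂ × ℂ)) (hF (z, t) trivial)
      (analyticAt_id.prod analyticAt_const)
  have hslt : ∀ z t : ℂ, AnalyticAt ℂ (fun t => F (z, t)) t := fun z t =>
    AnalyticAt.comp (g := F) (f := fun t : ℂ => ((z, t) : ℂ × ℂ)) (hF (z, t) trivial)
      (analyticAt_const.prod analyticAt_id)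
  have hord : analyticOrderAt (fun z => F (z, t₁)) z₁ ≠ ⊤ := by
    intro h
    rw [analyticOrderAt_eq_top] at h
    exact hne (h.mono fun z hz => not_not.2 hz)
  obtain ⟨m, hm⟩ : ∃ m : ℕ, iteratedDeriv m (fun z => F (z, t₁)) z₁ ≠ 0 := by
    obtain ⟨k, hk⟩ : ∃ k : ℕ, analyticOrderAt (fun z => F (z, t₁)) z₁ = k :=
      ⟨_, (ENat.natCast_toNat hord).symm⟩
    exact ⟨k, (analyticOrderAt_eq_nat_iff_iteratedDeriv_eq_zero (hsl t₁ z₁)).1 hk |>.2⟩
  obtain ⟨Fm, hFm, hFmeq⟩ := iter_deriv_analytic hF m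
  have hFm0 : Fm (z₁, t₁) ≠ 0 := by rw [hFmeq]; exact hm
  have ev1 : ∀ᶠ x : ℂ × ℂ in 𝓝 (z₁, t₁), Fm x ≠ 0 :=
    (hFm (z₁, t₁) trivial).continuousAt.eventually_ne hFm0
  have ev2 : ∀ᶠ x : ℂ × ℂ in 𝓝 (z₁, t₁), AnalyticAt ℂ G x := hG.eventually_analyticAt
  obtain ⟨R₀, hR₀, hball⟩ := Metric.eventually_nhds_iff_ball.1 (ev1.and ev2)
  -- isolated zeros
  have hiso : ∀ᶠ z in 𝓝[≠] z₁, F (z, t₁) ≠ 0 := by
    rcases (hsl t₁ z₁).eventually_eq_zero_or_eventually_ne_zero with h | h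
    · exact absurd (h.mono fun z hz => not_not.2 hz) hne
    · exact h
  rw [eventually_nhdsWithin_iff] at hiso
  obtain ⟨R₁, hR₁, hiso⟩ := Metric.eventually_nhds_iff_ball.1 hiso
  obtain ⟨ε, hε, hεR₀, hεR₁, hερ⟩ : ∃ ε > 0, ε < R₀ ∧ ε < R₁ ∧ ε < ρ := by
    refine ⟨min (min R₀ R₁) ρ / 2, by positivity, ?_, ?_, ?_⟩
    · have := min_le_left (min R₀ R₁) ρ
      have := min_le_left R₀ R₁
      have : 0 < min (min R₀ R₁) ρ := by positivity
      linarith
    · have := min_le_left (min R₀ R₁) ρ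
      have := min_le_right R₀ R₁
      have : 0 < min (min R₀ R₁) ρ := by positivity
      linarith
    · have := min_le_right (min R₀ R₁) ρ
      have : 0 < min (min R₀ R₁) ρ := by positivity
      linarith
  have hsph : ∀ᶠ t in 𝓝 t₁, ∀ z ∈ sphere z₁ ε, F (z, t) ≠ 0 := by
    apply (isCompact_sphere z₁ ε).eventually_forall_of_forall_eventually
    intro z hz
    have h0 : F (z, t₁) ≠ 0 := by
      rw [mem_sphere] at hz
      apply hiso z
      · rw [mem_ball, hz]; exact hεR₁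
      · intro h
        rw [mem_singleton_iff] at h
        rw [h, dist_self] at hz
        linarith
    have h1 : ∀ᶠ x : ℂ × ℂ in 𝓝 (z, t₁), F x ≠ 0 :=
      (hF (z, t₁) trivial).continuousAt.eventually_ne h0
    have h2 : Tendsto (fun x : ℂ × ℂ => (x.2, x.1)) (𝓝 (t₁, z)) (𝓝 (z, t₁)) :=
      (continuous_swap.tendsto (t₁, z))
    exact h2.eventually h1
  obtain ⟨δ, hδ, hδR₀, hsphδ⟩ : ∃ δ > 0, δ < R₀ ∧ ∀ t ∈ ball t₁ δ, ∀ z ∈ sphere z₁ ε,
      F (z, t) ≠ 0 := by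
    obtain ⟨δ', hδ', h⟩ := Metric.eventually_nhds_iff_ball.1 hsph
    refine ⟨min δ' R₀ / 2, by positivity, ?_, fun t ht => h t ?_⟩
    · have := min_le_right δ' R₀
      have : 0 < min δ' R₀ := by positivity
      linarith
    · rw [mem_ball] at ht ⊢
      have := min_le_left δ' R₀
      have : 0 < min δ' R₀ := by positivity
      linarith
  have hmem : ∀ z ∈ closedBall z₁ ε, ∀ t ∈ ball t₁ δ, ((z, t) : ℂ × ℂ) ∈ ball (z₁, t₁) R₀ := by
    intro z hz t ht
    rw [mem_closedBall] at hz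
    rw [mem_ball] at ht
    rw [mem_ball, Prod.dist_eq]
    exact max_lt (hz.trans_lt hεR₀) (ht.trans hδR₀)
  -- the Cauchy transform
  have hKan : ∀ w ∈ ball z₁ ε, AnalyticOnNhd ℂ
      (fun t => ∮ z in C(z₁, ε), (z - w)⁻¹ • (G (z, t) ^ m / F (z, t))) (ball t₁ δ) := by
    intro w hw
    refine circle_param (H := fun x : ℂ × ℂ => (x.1 - w)⁻¹ • (G x ^ m / F x)) hε ?_
    intro z hz t ht
    have hzc : z ∈ closedBall z₁ ε := sphere_subset_closedBall hz
    have hzw : z - w ≠ 0 := by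
      intro h
      rw [sub_eq_zero] at h
      rw [mem_sphere] at hz
      rw [mem_ball, ← h, hz] at hw
      exact lt_irrefl _ hw
    have g1 : AnalyticAt ℂ G (z, t) := (hball _ (hmem z hzc t ht)).2
    have e1 : AnalyticAt ℂ (fun x : ℂ × ℂ => (x.1 - w)⁻¹) (z, t) :=
      (analyticAt_fst.sub analyticAt_const).inv hzw
    exact e1.smul ((g1.pow m).div (hF (z, t) trivial) (hsphδ t ht z hz))
  -- at good parameters the Cauchy transform is the quotient
  have hgoodeq : ∀ t ∈ ball t₁ δ, (∀ z ∈ ball z₁ ρ, F (z, t) = 0 → G (z, t) = 0) →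
      ∀ w ∈ ball z₁ ε, (∮ z in C(z₁, ε), (z - w)⁻¹ • (G (z, t) ^ m / F (z, t))) * F (w, t) -
        (2 * π * I) * G (w, t) ^ m = 0 := by
    intro t ht hg w hw
    have hGsl : AnalyticOnNhd ℂ (fun z => G (z, t)) (closedBall z₁ ε) := fun z hz =>
      AnalyticAt.comp (g := G) (f := fun z : ℂ => ((z, t) : ℂ × ℂ)) (hball _ (hmem z hz t ht)).2
        (analyticAt_id.prod analyticAt_const)
    obtain ⟨h, hh, hhF⟩ := exists_quot (f := fun z => F (z, t)) (g := fun z => G (z, t)) (m := m)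
      (A := closedBall z₁ ε) (fun z _ => hsl t z) hGsl
      (fun z hz => by rw [← hFmeq]; exact (hball _ (hmem z hz t ht)).1)
      (fun z hz => hg z (closedBall_subset_ball hερ hz))
    have hdiff : DiffContOnCl ℂ h (ball z₁ ε) := by
      apply DifferentiableOn.diffContOnCl
      rw [closure_ball _ hε.ne']
      exact hh.differentiableOn
    have hC := hdiff.circleIntegral_sub_inv_smul hw
    have hcongr : (∮ z in C(z₁, ε), (z - w)⁻¹ • (G (z, t) ^ m / F (z, t))) =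
        ∮ z in C(z₁, ε), (z - w)⁻¹ • h z := by
      apply circleIntegral.integral_congr hε.le
      intro z hz
      simp only
      rw [← hhF z (sphere_subset_closedBall hz), mul_div_assoc, div_self (hsphδ t ht z hz), mul_one]
    rw [hcongr, hC, smul_eq_mul, mul_assoc, hhF w (ball_subset_closedBall hw)]
    ring
  have hzero : ∀ w ∈ ball z₁ ε, ∀ t ∈ ball t₁ δ,
      (∮ z in C(z₁, ε), (z - w)⁻¹ • (G (z, t) ^ m / F (z, t))) * F (w, t) -
        (2 * π * I) * G (w, t) ^ m = 0 := by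
    intro w hw
    have han : AnalyticOnNhd ℂ (fun t =>
      (∮ z in C(z₁, ε), (z - w)⁻¹ • (G (z, t) ^ m / F (z, t))) * F (w, t) -
        (2 * π * I) * G (w, t) ^ m) (ball t₁ δ) := by
      intro t ht
      have g1 : AnalyticAt ℂ (fun t => G (w, t)) t :=
        AnalyticAt.comp (g := G) (f := fun t : ℂ => ((w, t) : ℂ × ℂ))
          (hball _ (hmem w (ball_subset_closedBall hw) t ht)).2
          (analyticAt_const.prod analyticAt_id)
      exact ((hKan w hw t ht).mul (hslt w t)).sub (analyticAt_const.mul (g1.pow m))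
    have hfr : ∃ᶠ t in 𝓝[≠] t₁, (∮ z in C(z₁, ε), (z - w)⁻¹ • (G (z, t) ^ m / F (z, t))) * F (w, t) -
        (2 * π * I) * G (w, t) ^ m = 0 := by
      have hev : ∀ᶠ t in 𝓝[≠] t₁, t ∈ ball t₁ δ :=
        nhdsWithin_le_nhds (ball_mem_nhds _ hδ)
      exact (hgood.and_eventually hev).mono fun t ht => hgoodeq t ht.2 ht.1 w hw
    have := han.eqOn_zero_of_preconnected_of_frequently_eq_zero
      (convex_ball t₁ δ).isPreconnected (mem_ball_self hδ) hfr
    exact fun t ht => this ht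
  have hnhds : ball z₁ ε ×ˢ ball t₁ δ ∈ 𝓝 (z₁, t₁) :=
    prod_mem_nhds (ball_mem_nhds _ hε) (ball_mem_nhds _ hδ)
  filter_upwards [hnhds] with x hx hFx
  obtain ⟨w, t⟩ := x
  have h1 := hzero w hx.1 t hx.2
  rw [hFx, mul_zero, zero_sub, neg_eq_zero] at h1
  have h2 : G (w, t) ^ m = 0 := by
    rcases mul_eq_zero.1 h1 with h | h
    · exact absurd h Complex.two_pi_I_ne_zero
    · exact h
  exact eq_zero_of_pow_eq_zero h2

end Pool.Agent.Josephson
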