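import Pool.Agent.helper74.Jos.Cx2
import Pool.Agent.helper74.Jos.Asym3

set_option autoImplicit false

/-!
# Propagation along a one-parameter family
-/

open Set Filter Topology Metric MeasureTheory Complex
open scoped Real NNReal Interval

namespace Pool.Agent.Josephson

section Propagation

variable {F : ℂ × ℂ → ℂ} {Ψ : ℂ × ℂ → P} {Z : Set P} {K D : Set ℂ}

theorem local_step (hF : AnalyticOnNhd ℂ F univ) (hΨ : AnalyticOnNhd ℂ Ψ univ)
    (hΨU : ∀ x, Ψ x ∈ U) (hZ : IsAnalyticSubset Z) (hK : IsCompact K) {t₁ : ℂ}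
    (hint : ∀ z ∈ K, F (z, t₁) = 0 → z ∈ interior K) (hne : ∃ z, F (z, t₁) ≠ 0)
    (hgood : ∃ᶠ t in 𝓝[≠] t₁, ∀ z ∈ K, F (z, t) = 0 → Ψ (z, t) ∈ Z) :
    ∀ᶠ t in 𝓝 t₁, ∀ z ∈ K, F (z, t) = 0 → Ψ (z, t) ∈ Z := by
  apply hK.eventually_forall_of_forall_eventually
  intro z hz
  have hswap : Tendsto (fun x : ℂ × ℂ => (x.2, x.1)) (𝓝 (t₁, z)) (𝓝 (z, t₁)) :=
    (continuous_swap.tendsto (t₁, z))
  suffices h : ∀ᶠ x : ℂ × ℂ in 𝓝 (z, t₁), F x = 0 → Ψ x ∈ Z from hswap.eventually h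
  by_cases h0 : F (z, t₁) = 0
  · have hzint := hint z hz h0
    obtain ⟨W, hWo, hpW, hWU, 𝒢, hfin, han, hiff⟩ := hZ.2 (Ψ (z, t₁)) (hΨU _)
    have hΨW : ∀ᶠ x : ℂ × ℂ in 𝓝 (z, t₁), Ψ x ∈ W :=
      (hΨ (z, t₁) trivial).continuousAt.eventually (hWo.mem_nhds hpW)
    -- a product neighbourhood
    obtain ⟨ρ₁, hρ₁, hb₁⟩ := Metric.eventually_nhds_iff_ball.1 hΨW
    obtain ⟨ρ₂, hρ₂, hb₂⟩ := Metric.isOpen_iff.1 isOpen_interior z hzint
    set ρ := min ρ₁ ρ₂ with hρdef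
    have hρ : 0 < ρ := lt_min hρ₁ hρ₂
    have hprod : ∀ z' ∈ ball z ρ, ∀ t ∈ ball t₁ ρ, Ψ (z', t) ∈ W := by
      intro z' hz' t ht
      apply hb₁
      rw [mem_ball] at hz' ht
      rw [mem_ball, Prod.dist_eq]
      exact max_lt (hz'.trans_le (min_le_left _ _)) (ht.trans_le (min_le_left _ _))
    have hsub : ball z ρ ⊆ K := fun w hw =>
      interior_subset (hb₂ (ball_subset_ball (min_le_right _ _) hw))
    -- not locally zero
    have hsl : AnalyticOnNhd ℂ (fun w => F (w, t₁)) univ := fun w _ =>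
      AnalyticAt.comp (g := F) (f := fun w : ℂ => ((w, t₁) : ℂ × ℂ)) (hF (w, t₁) trivial)
        (analyticAt_id.prod analyticAt_const)
    have hne' : ∃ᶠ w in 𝓝 z, F (w, t₁) ≠ 0 := by
      intro hcon
      have hcon' : ∀ᶠ w in 𝓝 z, F (w, t₁) = 0 := hcon.mono fun w hw => not_not.1 hw
      obtain ⟨w, hw⟩ := hne
      apply hw
      exact hsl.eqOn_zero_of_preconnected_of_eventuallyEq_zero isPreconnected_univ
        (mem_univ z) hcon' (mem_univ w)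
    have hall : ∀ᶠ x : ℂ × ℂ in 𝓝 (z, t₁), ∀ g ∈ 𝒢, F x = 0 → g (Ψ x) = 0 := by
      rw [hfin.eventually_all]
      intro g hg
      apply division_lemma (G := fun x => g (Ψ x)) hF hρ _ hne'
      · have hev : ∀ᶠ t in 𝓝[≠] t₁, t ∈ ball t₁ ρ := nhdsWithin_le_nhds (ball_mem_nhds _ hρ)
        refine (hgood.and_eventually hev).mono fun t ht z' hz' hF0 => ?_
        have h1 := ht.1 z' (hsub hz') hF0
        exact (hiff _ (hprod z' hz' t ht.2)).1 h1 g hg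
      · exact (han g hg _ hpW).comp (hΨ (z, t₁) trivial)
    filter_upwards [hall, hΨW] with x hx hxW hFx
    exact (hiff _ hxW).2 fun g hg => hx g hg hFx
  · have h1 := (hF (z, t₁) trivial).continuousAt.eventually_ne h0
    filter_upwards [h1] with x hx hx0
    exact absurd hx0 hx

theorem propagate (hF : AnalyticOnNhd ℂ F univ) (hΨ : AnalyticOnNhd ℂ Ψ univ)
    (hΨU : ∀ x, Ψ x ∈ U) (hZ : IsAnalyticSubset Z) (hK : IsCompact K)
    (hD : IsPreconnected D)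
    (hint : ∀ t ∈ D, ∀ z ∈ K, F (z, t) = 0 → z ∈ interior K) (hne : ∀ t ∈ D, ∃ z, F (z, t) ≠ 0)
    {t₀ : ℂ} (ht₀ : t₀ ∈ D)
    (hgood : ∃ᶠ t in 𝓝[≠] t₀, ∀ z ∈ K, F (z, t) = 0 → Ψ (z, t) ∈ Z) :
    ∀ t ∈ D, ∀ z ∈ K, F (z, t) = 0 → Ψ (z, t) ∈ Z := by
  set V : Set ℂ := {t | ∀ᶠ s in 𝓝 t, ∀ z ∈ K, F (z, s) = 0 → Ψ (z, s) ∈ Z} with hV
  have hVo : IsOpen V := isOpen_setOfPred_eventually_nhds
  have hstep : ∀ t ∈ D, (∃ᶠ s in 𝓝[≠] t, ∀ z ∈ K, F (z, s) = 0 → Ψ (z, s) ∈ Z) → t ∈ V :=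
    fun t ht h => local_step hF hΨ hΨU hZ hK (hint t ht) (hne t ht) h
  have hsub : D ⊆ V := by
    apply hD.subset_of_closure_inter_subset hVo
    · exact ⟨t₀, ht₀, hstep t₀ ht₀ hgood⟩
    · rintro t ⟨htcl, htD⟩
      by_contra htV
      apply htV
      apply hstep t htD
      rw [mem_closure_iff_frequently] at htcl
      rw [frequently_nhdsWithin_iff]
      refine htcl.mono fun s hs => ⟨?_, ?_⟩
      · exact Eventually.self_of_nhds hs
      · intro h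
        rw [mem_singleton_iff] at h
        exact htV (h ▸ hs)
  intro t ht
  exact Eventually.self_of_nhds (hsub ht)

end Propagation

/-- The square. -/
def sq (ρ : ℝ) : Set ℂ := Icc (-ρ) ρ ×ℂ Icc (-ρ) ρ

theorem mem_sq {ρ : ℝ} {z : ℂ} : z ∈ sq ρ ↔ |z.re| ≤ ρ ∧ |z.im| ≤ ρ := by
  unfold sq
  rw [Complex.mem_reProdIm, mem_Icc, mem_Icc, abs_le, abs_le]

theorem main_propagation {e : ℂ} (he : e ^ 2 = -1) {Z : Set P} (hZ : IsAnalyticSubset Z)
    (hreal : ∀ b a r : ℝ, 0 < r → Fz e (((r * b : ℝ) : ℂ), ((r * a : ℝ) : ℂ), (r : ℂ)) = 0 →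
      (((b : ℝ) : ℂ), ((a : ℝ) : ℂ), (r : ℂ)) ∈ Z) :
    ∀ p ∈ U, Fz e (p.2.2 * p.1, p.2.2 * p.2.1, p.2.2) = 0 → p ∈ Z := by
  rintro ⟨B₀, A₀, r₀⟩ hp hzero
  have hr₀ : r₀ ≠ 0 := hp
  simp only at hzero
  -- the curve
  set c := Complex.log r₀ with hc
  set rt : ℂ → ℂ := fun t => cexp ((c.re : ℂ) + (c.im : ℂ) * t) with hrt
  set At : ℂ → ℂ := fun t => (A₀.re : ℂ) + (A₀.im : ℂ) * t with hAt
  have hrtI : rt I = r₀ := by
    rw [hrt]
    simp only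
    rw [Complex.re_add_im, hc, Complex.exp_log hr₀]
  have hAtI : At I = A₀ := by
    rw [hAt]
    simp only
    rw [Complex.re_add_im]
  have hrtne : ∀ t, rt t ≠ 0 := fun t => Complex.exp_ne_zero _
  have hrta : ∀ t, AnalyticAt ℂ rt t := fun t =>
    (analyticAt_const.add (analyticAt_const.mul analyticAt_id)).cexp
  have hAta : ∀ t, AnalyticAt ℂ At t := fun t =>
    analyticAt_const.add (analyticAt_const.mul analyticAt_id)
  set F : ℂ × ℂ → ℂ := fun x => Fz e (x.1, rt x.2 * At x.2, rt x.2) with hF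
  set Ψ : ℂ × ℂ → P := fun x => (x.1 / rt x.2, At x.2, rt x.2) with hΨ
  have hrt2 : ∀ x : ℂ × ℂ, AnalyticAt ℂ (fun x : ℂ × ℂ => rt x.2) x := fun x =>
    AnalyticAt.comp (g := rt) (f := fun x : ℂ × ℂ => x.2) (hrta x.2) analyticAt_snd
  have hAt2 : ∀ x : ℂ × ℂ, AnalyticAt ℂ (fun x : ℂ × ℂ => At x.2) x := fun x =>
    AnalyticAt.comp (g := At) (f := fun x : ℂ × ℂ => x.2) (hAta x.2) analyticAt_snd
  have hFan : AnalyticOnNhd ℂ F univ := fun x _ =>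
    AnalyticAt.comp (g := Fz e) (f := fun x : ℂ × ℂ => (x.1, rt x.2 * At x.2, rt x.2))
      (Fz_analytic e _ trivial)
      (analyticAt_fst.prod (((hrt2 x).mul (hAt2 x)).prod (hrt2 x)))
  have hΨan : AnalyticOnNhd ℂ Ψ univ := fun x _ =>
    (analyticAt_fst.div (hrt2 x) (hrtne _)).prod ((hAt2 x).prod (hrt2 x))
  have hΨU : ∀ x, Ψ x ∈ U := fun x => hrtne _
  -- bounds on the disc
  obtain ⟨R₁, hR₁⟩ : ∃ R₁ : ℝ, ∀ t ∈ closedBall (0:ℂ) 2, ‖rt t‖ ≤ R₁ := by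
    have h1 : ContinuousOn (fun t => ‖rt t‖) (closedBall (0:ℂ) 2) := fun t _ =>
      ((hrta t).continuousAt.norm).continuousWithinAt
    obtain ⟨M, hM⟩ := ((isCompact_closedBall (0:ℂ) 2).image_of_continuousOn h1).bddAbove
    exact ⟨M, fun t ht => hM ⟨t, ht, rfl⟩⟩
  obtain ⟨R₂, hR₂⟩ : ∃ R₂ : ℝ, ∀ t ∈ closedBall (0:ℂ) 2, ‖rt t * At t‖ ≤ R₂ := by
    have h1 : ContinuousOn (fun t => ‖rt t * At t‖) (closedBall (0:ℂ) 2) := fun t _ =>
      (((hrta t).mul (hAta t)).continuousAt.norm).continuousWithinAt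
    obtain ⟨M, hM⟩ := ((isCompact_closedBall (0:ℂ) 2).image_of_continuousOn h1).bddAbove
    exact ⟨M, fun t ht => hM ⟨t, ht, rfl⟩⟩
  set R := max (max R₁ R₂) 1 with hR
  have hR1 : 1 ≤ R := le_max_right _ _
  obtain ⟨N₀, hN₀⟩ := no_zero_boundary R hR1
  obtain ⟨N₁, hN₁⟩ := exists_nat_gt (2 * ‖r₀ * B₀‖)
  set n := max N₀ N₁ with hn
  have hnN₀ : N₀ ≤ n := le_max_left _ _
  have hnN₁ : (N₁:ℝ) ≤ n := by exact_mod_cast le_max_right _ _
  set ρ : ℝ := n / 2 + 1 / 4 with hρ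
  have hρ0 : 0 < ρ := by positivity
  have hKc : IsCompact (sq ρ) := isCompact_Icc.reProdIm isCompact_Icc
  have hbd : ∀ t ∈ ball (0:ℂ) 2, ∀ z : ℂ, (|z.re| = ρ ∨ |z.im| = ρ) → F (z, t) ≠ 0 := by
    intro t ht z hz
    have htc := ball_subset_closedBall ht
    exact hN₀ n hnN₀ e z _ _ he ((hR₂ t htc).trans ((le_max_right _ _).trans (le_max_left _ _)))
      ((hR₁ t htc).trans ((le_max_left _ _).trans (le_max_left _ _))) hz
  have hint : ∀ t ∈ ball (0:ℂ) 2, ∀ z ∈ sq ρ, F (z, t) = 0 → z ∈ interior (sq ρ) := by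
    intro t ht z hz hz0
    rw [mem_sq] at hz
    have h1 : |z.re| < ρ := lt_of_le_of_ne hz.1 fun h => hbd t ht z (Or.inl h) hz0
    have h2 : |z.im| < ρ := lt_of_le_of_ne hz.2 fun h => hbd t ht z (Or.inr h) hz0
    unfold sq
    rw [Complex.interior_reProdIm, interior_Icc, Complex.mem_reProdIm]
    exact ⟨abs_lt.1 h1, abs_lt.1 h2⟩
  have hne : ∀ t ∈ ball (0:ℂ) 2, ∃ z, F (z, t) ≠ 0 := fun t ht =>
    ⟨(ρ : ℂ), hbd t ht _ (Or.inl (by simp [abs_of_pos hρ0]))⟩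
  -- real parameters
  have hgoodreal : ∀ s : ℝ, ∀ z ∈ sq ρ, F (z, (s : ℂ)) = 0 → Ψ (z, (s : ℂ)) ∈ Z := by
    intro s z _ hz0
    have hrs : rt (s : ℂ) = ((Real.exp (c.re + c.im * s) : ℝ) : ℂ) := by
      rw [hrt]
      simp only
      push_cast
      rfl
    have hAs : At (s : ℂ) = ((A₀.re + A₀.im * s : ℝ) : ℂ) := by
      rw [hAt]
      simp only
      push_cast
      rfl
    set rr := Real.exp (c.re + c.im * s) with hrr
    set aa := A₀.re + A₀.im * s with haa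
    have hrr0 : 0 < rr := Real.exp_pos _
    have hz0' : Fz e (z, ((rr * aa : ℝ) : ℂ), (rr : ℂ)) = 0 := by
      have h1 : F (z, (s : ℂ)) = Fz e (z, rt s * At s, rt s) := rfl
      rw [h1, hrs, hAs, ← Complex.ofReal_mul] at hz0
      exact hz0
    -- z is real
    have hzim : z.im = 0 := by
      obtain ⟨u, v, h, hu0, hv0, hu1, hv1⟩ := exists_LSol e 1 (z, ((rr * aa : ℝ) : ℂ), (rr : ℂ))
      apply im_eq_zero h (norm_e he) (by rw [hu0, hv0, mul_one]) (by rw [hv0]; exact one_ne_zero)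
      rw [hu1, hv1]
      unfold Fz at hz0'
      exact sub_eq_zero.1 hz0'
    have hzre : z = ((rr * (z.re / rr) : ℝ) : ℂ) := by
      rw [mul_div_cancel₀ _ hrr0.ne']
      apply Complex.ext <;> simp [hzim]
    have h2 := hreal (z.re / rr) aa rr hrr0 (by rw [← hzre]; exact hz0')
    have h3 : Ψ (z, (s : ℂ)) = (((z.re / rr : ℝ) : ℂ), ((aa : ℝ) : ℂ), (rr : ℂ)) := by
      have h4 : Ψ (z, (s : ℂ)) = (z / rt s, At s, rt s) := rfl
      rw [h4, hrs, hAs]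
      congr 1
      conv_lhs => rw [hzre]
      push_cast
      rw [mul_div_assoc, mul_comm, div_mul_eq_mul_div, mul_div_assoc]
      field_simp
    rw [h3]
    exact h2
  have hgood : ∃ᶠ t in 𝓝[≠] (0:ℂ), ∀ z ∈ sq ρ, F (z, t) = 0 → Ψ (z, t) ∈ Z := by
    have h1 : Tendsto (fun s : ℝ => (s : ℂ)) (𝓝[≠] (0:ℝ)) (𝓝[≠] (0:ℂ)) := by
      apply tendsto_nhdsWithin_of_tendsto_nhds_of_eventually_within
      · have : Tendsto (fun s : ℝ => (s : ℂ)) (𝓝 0) (𝓝 ((0:ℝ) : ℂ)) :=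
          Complex.continuous_ofReal.tendsto 0
        rw [Complex.ofReal_zero] at this
        exact this.mono_left nhdsWithin_le_nhds
      · filter_upwards [self_mem_nhdsWithin] with s hs
        simpa using hs
    apply h1.frequently
    exact Frequently.of_forall fun s => hgoodreal s
  have key := propagate hFan hΨan hΨU hZ hKc (convex_ball (0:ℂ) 2).isPreconnected hint hne
    (mem_ball_self two_pos) hgood I (by simp) (r₀ * B₀) ?_ ?_
  · have h1 : Ψ (r₀ * B₀, I) = (B₀, A₀, r₀) := by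
      have h2 : Ψ (r₀ * B₀, I) = (r₀ * B₀ / rt I, At I, rt I) := rfl
      rw [h2, hrtI, hAtI, mul_div_assoc, mul_div_cancel₀ _ hr₀]
    rw [h1] at key
    exact key
  · rw [mem_sq]
    have h1 : ‖r₀ * B₀‖ ≤ ρ := by rw [hρ]; linarith
    exact ⟨(Complex.abs_re_le_norm _).trans h1, (Complex.abs_im_le_norm _).trans h1⟩
  · have h1 : F (r₀ * B₀, I) = Fz e (r₀ * B₀, rt I * At I, rt I) := rfl
    rw [h1, hrtI, hAtI]
    exact hzero

end Pool.Agent.Josephson
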