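import Mathlib

set_option autoImplicit false

/-!
# Josephson model: definitions

The real model, the phase-lock areas, their boundary families, the complexified (Riccati)
monodromy, the surfaces `Σ_±` and complex analytic subsets of `U = {r ≠ 0} ⊆ ℂ³`.
-/

open Set Filter Topology Complex
open scoped Real

namespace Pool.Agent.Josephson

/-! ### The real model -/

/-- `φ` solves the phase equation `dφ/dτ = (- sin φ + B + A cos τ) / ω`, i.e.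
`dφ/dt = - sin φ + B + A cos (ω t)` in the time `τ = ω t`. -/
def IsPhase (B A ω : ℝ) (φ : ℝ → ℝ) : Prop :=
  ∀ τ : ℝ, HasDerivAt φ ((-Real.sin (φ τ) + B + A * Real.cos τ) / ω) τ

/-- The rotation number `lim φ(τ) / τ` exists and equals `ρ` (for every solution `φ`). -/
def HasRotationNumber (B A ω ρ : ℝ) : Prop :=
  ∀ φ : ℝ → ℝ, IsPhase B A ω φ → Tendsto (fun τ => φ τ / τ) atTop (𝓝 ρ)

/-- The phase-lock area `L_s(ω)`. -/
def lockArea (ω : ℝ) (s : ℤ) : Set (ℝ × ℝ) := {q | HasRotationNumber q.1 q.2 ω s}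

/-- The time `2π` map `h_{(B,A)}` fixes the point `θ` of `ℝ / 2πℤ`. -/
def PoincareFixes (B A ω θ : ℝ) : Prop :=
  ∃ φ : ℝ → ℝ, IsPhase B A ω φ ∧ φ 0 = θ ∧ ∃ k : ℤ, φ (2 * π) = θ + k * (2 * π)

/-! ### The complexification -/

/-- The parameter space `ℂ³`; a point is a triple `(B, A, r)`. -/
abbrev P : Type := ℂ × ℂ × ℂ

/-- `U = {(B, A, r) ∈ ℂ³ : r ≠ 0}`. -/
def U : Set P := {p | p.2.2 ≠ 0}

/-- The family of the points `(B, A, r)`, `r = 1 / (2ω)`, `ω > 0`, with `(B, A)` on the boundary of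
a phase-lock area `L_s(ω)`, `s` satisfying `par`, at which `h_{(B,A)}` fixes `ε π / 2`.
`par` will be `Even` or `Odd` and `ε` will be `1` or `-1`. -/
def boundaryFamily (ε : ℝ) (par : ℤ → Prop) : Set P :=
  {p | ∃ ω : ℝ, 0 < ω ∧ ∃ (B A : ℝ) (s : ℤ), par s ∧ (B, A) ∈ frontier (lockArea ω s) ∧
    PoincareFixes B A ω (ε * (π / 2)) ∧ p = ((B : ℂ), (A : ℂ), ((1 / (2 * ω) : ℝ) : ℂ))}

/-- `(u, v)` solves on `[0, 2π]` the linear system
`u' = i r (B + A cos τ) u + r v`, `v' = r u - i r (B + A cos τ) v`,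
whose projectivisation `Φ = u / v` is the Riccati equation
`Φ' = 2 i r (B + A cos τ) Φ - r (Φ² - 1)` on the Riemann sphere (see `IsLinSol.riccati`). -/
structure IsLinSol (p : P) (u v : ℝ → ℂ) : Prop where
  hu : ∀ τ ∈ Icc (0:ℝ) (2 * π), HasDerivWithinAt u
    (I * p.2.2 * (p.1 + p.2.1 * (Real.cos τ : ℂ)) * u τ + p.2.2 * v τ) (Icc 0 (2 * π)) τ
  hv : ∀ τ ∈ Icc (0:ℝ) (2 * π), HasDerivWithinAt v
    (p.2.2 * u τ - I * p.2.2 * (p.1 + p.2.1 * (Real.cos τ : ℂ)) * v τ) (Icc 0 (2 * π)) τ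

/-- Where `v ≠ 0`, the quotient `Φ = u / v` solves the Riccati equation. -/
theorem IsLinSol.riccati {p : P} {u v : ℝ → ℂ} (h : IsLinSol p u v) {τ : ℝ}
    (hτ : τ ∈ Icc (0:ℝ) (2 * π)) (hv : v τ ≠ 0) :
    HasDerivWithinAt (fun s => u s / v s)
      (2 * I * p.2.2 * (p.1 + p.2.1 * (Real.cos τ : ℂ)) * (u τ / v τ)
        - p.2.2 * ((u τ / v τ) ^ 2 - 1)) (Icc 0 (2 * π)) τ := by
  have h1 := (h.hu τ hτ).fun_div (h.hv τ hτ) hv
  have h2 : 2 * I * p.2.2 * (p.1 + p.2.1 * (Real.cos τ : ℂ)) * (u τ / v τ)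
        - p.2.2 * ((u τ / v τ) ^ 2 - 1) =
      ((I * p.2.2 * (p.1 + p.2.1 * (Real.cos τ : ℂ)) * u τ + p.2.2 * v τ) * v τ -
        u τ * (p.2.2 * u τ - I * p.2.2 * (p.1 + p.2.1 * (Real.cos τ : ℂ)) * v τ)) / v τ ^ 2 := by
    rw [eq_div_iff (pow_ne_zero 2 hv), div_pow]
    have h3 : u τ / v τ * v τ ^ 2 = u τ * v τ := by
      rw [pow_two, ← mul_assoc, div_mul_cancel₀ _ hv]
    have h4 : u τ ^ 2 / v τ ^ 2 * v τ ^ 2 = u τ ^ 2 := div_mul_cancel₀ _ (pow_ne_zero 2 hv)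
    linear_combination (2 * I * p.2.2 * (p.1 + p.2.1 * (Real.cos τ : ℂ))) * h3 - p.2.2 * h4
  rw [h2]
  exact h1

/-- The point `[x : y]` of the Riemann sphere. -/
noncomputable def proj (x y : ℂ) : OnePoint ℂ :=
  open Classical in if y = 0 then OnePoint.infty else ((x / y : ℂ) : OnePoint ℂ)

/-- `Mon_p (Φ₀) = Φ₁`: the solution of the Riccati equation starting at `τ = 0` at the point `Φ₀`
of the Riemann sphere is at `Φ₁` at the time `τ = 2π`. -/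
def Mon (p : P) (Φ₀ Φ₁ : OnePoint ℂ) : Prop :=
  ∃ u v : ℝ → ℂ, IsLinSol p u v ∧ (u 0 ≠ 0 ∨ v 0 ≠ 0) ∧ proj (u 0) (v 0) = Φ₀ ∧
    proj (u (2 * π)) (v (2 * π)) = Φ₁

/-- The surface `Σ_ε = {(B, A, r) ∈ U : Mon (ε i) = ε i}`, `ε = ± 1`. -/
def Sigma (ε : ℝ) : Set P :=
  {p | p ∈ U ∧ Mon p (((ε : ℂ) * I : ℂ) : OnePoint ℂ) (((ε : ℂ) * I : ℂ) : OnePoint ℂ)}

/-- The part of `Σ_ε` where the linear monodromy multiplies the vector `(ε i, 1)` by `c`. -/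
def SigmaPart (ε : ℝ) (c : ℂ) : Set P :=
  {p | p ∈ U ∧ ∃ u v : ℝ → ℂ, IsLinSol p u v ∧ u 0 = ε * I ∧ v 0 = 1 ∧
    u (2 * π) = c * (ε * I) ∧ v (2 * π) = c}

/-- `Z` is a (closed) complex analytic subset of `U`: `Z ⊆ U` and near each point of `U` the set
`Z` is the set of common zeros of finitely many holomorphic functions. -/
def IsAnalyticSubset (Z : Set P) : Prop :=
  Z ⊆ U ∧ ∀ p ∈ U, ∃ W : Set P, IsOpen W ∧ p ∈ W ∧ W ⊆ U ∧
    ∃ G : Set (P → ℂ), G.Finite ∧ (∀ g ∈ G, AnalyticOnNhd ℂ g W) ∧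
      ∀ q ∈ W, q ∈ Z ↔ ∀ g ∈ G, g q = 0

/-- `Z` is the smallest complex analytic subset of `U` containing `S`. -/
def IsAnalyticHull (S Z : Set P) : Prop :=
  IsLeast {Z' | IsAnalyticSubset Z' ∧ S ⊆ Z'} Z

end Pool.Agent.Josephson
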