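import Pool.Agent.helper74.Jos.Real4

set_option autoImplicit false

/-!
# The linear system: uniqueness and symmetries
-/

open Set Filter Topology Metric MeasureTheory Complex
open scoped Real NNReal

namespace Pool.Agent.Josephson

/-- The linear system with the parameters `β = r B`, `α = r A`, `r`. -/
structure LSol (β α r : ℂ) (u v : ℝ → ℂ) : Prop where
  hu : ∀ τ ∈ Icc (0:ℝ) (2 * π), HasDerivWithinAt u
    (I * (β + α * (Real.cos τ : ℂ)) * u τ + r * v τ) (Icc 0 (2 * π)) τ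
  hv : ∀ τ ∈ Icc (0:ℝ) (2 * π), HasDerivWithinAt v
    (r * u τ - I * (β + α * (Real.cos τ : ℂ)) * v τ) (Icc 0 (2 * π)) τ

theorem isLinSol_iff (p : P) (u v : ℝ → ℂ) :
    IsLinSol p u v ↔ LSol (p.2.2 * p.1) (p.2.2 * p.2.1) p.2.2 u v := by
  have h1 : ∀ τ : ℝ, I * p.2.2 * (p.1 + p.2.1 * (Real.cos τ : ℂ)) =
      I * (p.2.2 * p.1 + p.2.2 * p.2.1 * (Real.cos τ : ℂ)) := fun τ => by ring
  constructor
  · rintro ⟨hu, hv⟩
    simp only [h1] at hu hv
    exact ⟨hu, hv⟩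
  · rintro ⟨hu, hv⟩
    refine ⟨?_, ?_⟩
    · simp only [h1]
      exact hu
    · simp only [h1]
      exact hv

theorem two_pi_nonneg : (0:ℝ) ≤ 2 * π := by positivity

theorem zero_mem_I : (0:ℝ) ∈ Icc (0:ℝ) (2 * π) := left_mem_Icc.2 two_pi_nonneg

theorem twopi_mem_I : (2 * π) ∈ Icc (0:ℝ) (2 * π) := right_mem_Icc.2 two_pi_nonneg

theorem LSol.smul {β α r : ℂ} {u v : ℝ → ℂ} (h : LSol β α r u v) (c : ℂ) :
    LSol β α r (fun τ => c * u τ) (fun τ => c * v τ) := by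
  refine ⟨fun τ hτ => ?_, fun τ hτ => ?_⟩
  · exact ((h.hu τ hτ).const_mul c).congr_deriv (by ring)
  · exact ((h.hv τ hτ).const_mul c).congr_deriv (by ring)

theorem LSol.add {β α r : ℂ} {u v u' v' : ℝ → ℂ} (h : LSol β α r u v) (h' : LSol β α r u' v') :
    LSol β α r (fun τ => u τ + u' τ) (fun τ => v τ + v' τ) := by
  refine ⟨fun τ hτ => ?_, fun τ hτ => ?_⟩
  · exact ((h.hu τ hτ).add (h'.hu τ hτ)).congr_deriv (by ring)
  · exact ((h.hv τ hτ).add (h'.hv τ hτ)).congr_deriv (by ring)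

theorem LSol.continuousOn_u {β α r : ℂ} {u v : ℝ → ℂ} (h : LSol β α r u v) :
    ContinuousOn u (Icc 0 (2 * π)) := fun τ hτ => (h.hu τ hτ).continuousWithinAt

theorem LSol.continuousOn_v {β α r : ℂ} {u v : ℝ → ℂ} (h : LSol β α r u v) :
    ContinuousOn v (Icc 0 (2 * π)) := fun τ hτ => (h.hv τ hτ).continuousWithinAt

/-- the vector field of the linear system -/
noncomputable def vf (β α r : ℂ) (t : ℝ) (x : ℂ × ℂ) : ℂ × ℂ :=
  (I * (β + α * (Real.cos t : ℂ)) * x.1 + r * x.2, r * x.1 - I * (β + α * (Real.cos t : ℂ)) * x.2)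

theorem norm_coef_le (β α : ℂ) (t : ℝ) : ‖I * (β + α * (Real.cos t : ℂ))‖ ≤ ‖β‖ + ‖α‖ := by
  rw [norm_mul, norm_I, one_mul]
  refine (norm_add_le _ _).trans ?_
  rw [norm_mul, Complex.norm_real, Real.norm_eq_abs]
  have := mul_le_of_le_one_right (norm_nonneg α) (Real.abs_cos_le_one t)
  linarith

theorem vf_lip (β α r : ℂ) (t : ℝ) :
    LipschitzWith (⟨‖β‖ + ‖α‖ + ‖r‖, by positivity⟩ : ℝ≥0) (vf β α r t) := by
  apply LipschitzWith.of_dist_le_mul
  intro x y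
  have hc := norm_coef_le β α t
  set q := I * (β + α * (Real.cos t : ℂ)) with hq
  rw [dist_eq_norm, dist_eq_norm]
  have h1 : ‖(x - y).1‖ ≤ ‖x - y‖ := norm_fst_le _
  have h2 : ‖(x - y).2‖ ≤ ‖x - y‖ := norm_snd_le _
  have h3 : vf β α r t x - vf β α r t y = (q * (x - y).1 + r * (x - y).2,
      r * (x - y).1 - q * (x - y).2) := by
    unfold vf
    rw [← hq]
    ext <;> simp <;> ring
  rw [h3, Prod.norm_mk]
  have hb : ‖q * (x - y).1‖ ≤ (‖β‖ + ‖α‖) * ‖x - y‖ := by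
    rw [norm_mul]; exact mul_le_mul hc h1 (norm_nonneg _) (by positivity)
  have hb' : ‖q * (x - y).2‖ ≤ (‖β‖ + ‖α‖) * ‖x - y‖ := by
    rw [norm_mul]; exact mul_le_mul hc h2 (norm_nonneg _) (by positivity)
  have hr : ‖r * (x - y).1‖ ≤ ‖r‖ * ‖x - y‖ := by
    rw [norm_mul]; exact mul_le_mul_of_nonneg_left h1 (norm_nonneg _)
  have hr' : ‖r * (x - y).2‖ ≤ ‖r‖ * ‖x - y‖ := by
    rw [norm_mul]; exact mul_le_mul_of_nonneg_left h2 (norm_nonneg _)
  apply max_le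
  · refine (norm_add_le _ _).trans ?_
    change _ ≤ (‖β‖ + ‖α‖ + ‖r‖) * ‖x - y‖
    linarith
  · refine (norm_sub_le _ _).trans ?_
    change _ ≤ (‖β‖ + ‖α‖ + ‖r‖) * ‖x - y‖
    linarith

/-- Uniqueness for the linear system. -/
theorem LSol.unique {β α r : ℂ} {u v u' v' : ℝ → ℂ} (h : LSol β α r u v) (h' : LSol β α r u' v')
    (hu : u 0 = u' 0) (hv : v 0 = v' 0) :
    ∀ τ ∈ Icc (0:ℝ) (2 * π), u τ = u' τ ∧ v τ = v' τ := by
  have hpi : 0 ≤ 2 * π := two_pi_nonneg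
  have key := ODE_solution_unique_of_mem_Icc_right (v := vf β α r) (s := fun _ => univ)
    (K := ⟨‖β‖ + ‖α‖ + ‖r‖, by positivity⟩) (f := fun τ => (u τ, v τ))
    (g := fun τ => (u' τ, v' τ)) (a := 0) (b := 2 * π)
    (fun t _ => (vf_lip β α r t).lipschitzOnWith)
    (h.continuousOn_u.prodMk h.continuousOn_v)
    (fun t ht => ?_) (fun _ _ => trivial)
    (h'.continuousOn_u.prodMk h'.continuousOn_v)
    (fun t ht => ?_) (fun _ _ => trivial) (by simp [hu, hv])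
  · intro τ hτ
    have := key hτ
    simp only [Prod.mk.injEq] at this
    exact this
  · have h1 := (h.hu t ⟨ht.1, ht.2.le⟩).prodMk (h.hv t ⟨ht.1, ht.2.le⟩)
    exact h1.mono_of_mem_nhdsWithin (Icc_mem_nhdsGE_of_mem ht)
  · have h1 := (h'.hu t ⟨ht.1, ht.2.le⟩).prodMk (h'.hv t ⟨ht.1, ht.2.le⟩)
    exact h1.mono_of_mem_nhdsWithin (Icc_mem_nhdsGE_of_mem ht)

/-- The Wronskian of two solutions is constant. -/
theorem LSol.wronskian {β α r : ℂ} {u v u' v' : ℝ → ℂ} (h : LSol β α r u v)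
    (h' : LSol β α r u' v') :
    u (2 * π) * v' (2 * π) - u' (2 * π) * v (2 * π) = u 0 * v' 0 - u' 0 * v 0 := by
  have hd : ∀ τ ∈ Icc (0:ℝ) (2 * π), HasDerivWithinAt (fun τ => u τ * v' τ - u' τ * v τ) 0
      (Icc 0 (2 * π)) τ := by
    intro τ hτ
    exact (((h.hu τ hτ).mul (h'.hv τ hτ)).sub ((h'.hu τ hτ).mul (h.hv τ hτ))).congr_deriv (by ring)
  exact (convex_Icc (0:ℝ) (2 * π)).is_const_of_fderivWithin_eq_zero
    (f := fun τ => u τ * v' τ - u' τ * v τ) (𝕜 := ℝ)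
    (fun τ hτ => (hd τ hτ).differentiableWithinAt)
    (fun τ hτ => by
      have h1 := (hd τ hτ).hasFDerivWithinAt.fderivWithin
        ((uniqueDiffOn_Icc (by positivity)) τ hτ)
      rw [h1]
      ext
      simp) zero_mem_I twopi_mem_I |>.symm

/-- Time reversal. -/
theorem LSol.reverse {β α r : ℂ} {u v : ℝ → ℂ} (h : LSol β α r u v) :
    LSol β α r (fun τ => -v (2 * π - τ)) (fun τ => u (2 * π - τ)) := by
  have hmaps : MapsTo (fun τ : ℝ => 2 * π - τ) (Icc 0 (2 * π)) (Icc 0 (2 * π)) := by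
    intro τ hτ
    exact ⟨by linarith [hτ.2], by linarith [hτ.1]⟩
  have hcos : ∀ τ : ℝ, Real.cos (2 * π - τ) = Real.cos τ := fun τ => Real.cos_two_pi_sub τ
  have hd : ∀ τ : ℝ, HasDerivWithinAt (fun τ : ℝ => 2 * π - τ) (-1) (Icc 0 (2 * π)) τ :=
    fun τ => ((hasDerivAt_id τ).const_sub (2 * π)).hasDerivWithinAt
  refine ⟨fun τ hτ => ?_, fun τ hτ => ?_⟩
  · have h1 := ((h.hv _ (hmaps hτ)).scomp τ (hd τ) hmaps).neg
    rw [hcos] at h1
    exact h1.congr_deriv (by rw [neg_smul, one_smul]; ring)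
  · have h1 := (h.hu _ (hmaps hτ)).scomp τ (hd τ) hmaps
    rw [hcos] at h1
    exact h1.congr_deriv (by rw [neg_smul, one_smul]; ring)

/-- Exchanging the two components. -/
theorem LSol.swap {β α r : ℂ} {u v : ℝ → ℂ} (h : LSol β α r u v) :
    LSol (-β) (-α) r v u := by
  refine ⟨fun τ hτ => ?_, fun τ hτ => ?_⟩
  · exact (h.hv τ hτ).congr_deriv (by ring)
  · exact (h.hu τ hτ).congr_deriv (by ring)

/-- If the monodromy fixes the direction `(εi, 1)`, the multiplier is `± 1`. -/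
theorem LSol.sq_eq_one {β α r : ℂ} {u v : ℝ → ℂ} (h : LSol β α r u v) {e : ℂ} (he : e ^ 2 = -1)
    (hu0 : u 0 = e) (hv0 : v 0 = 1) (hu : u (2 * π) = e * v (2 * π)) : v (2 * π) ^ 2 = 1 := by
  set c := v (2 * π) with hc
  have h1 := (h.reverse).unique (h.smul (e * c)) (by simp [hu0, ← hc]; linear_combination (-c) * he)
    (by simp [hv0, hu])
  have h2 := (h1 (2 * π) twopi_mem_I).1
  simp only [sub_self, hv0, hu] at h2
  linear_combination h2 + c ^ 2 * he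

/-- The linear solution attached to a solution of the real phase equation. -/
theorem RSol.lift {b a r : ℝ} {φ : ℝ → ℝ} (h : RSol b a r φ) :
    ∃ u v : ℝ → ℂ, LSol b a r u v ∧ u 0 = cexp (I * φ 0) ∧ v 0 = 1 ∧
      u (2 * π) = cexp (I * φ (2 * π)) * v (2 * π) ∧
      ∃ ρ : ℝ, v (2 * π) = Real.exp ρ * cexp (-(I * ((φ (2 * π) - φ 0) / 2 : ℝ))) := by
  have hc := h.continuous
  have hcc : Continuous fun t => r * Real.cos (φ t) := by fun_prop
  set R : ℝ → ℝ := fun τ => ∫ s in (0:ℝ)..τ, r * Real.cos (φ s) with hR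
  have hRd : ∀ τ, HasDerivAt R (r * Real.cos (φ τ)) τ := fun τ =>
    intervalIntegral.integral_hasDerivAt_right (hcc.intervalIntegrable _ _)
      (hcc.stronglyMeasurableAtFilter _ _) hcc.continuousAt
  set v : ℝ → ℂ := fun τ => cexp ((R τ : ℂ) - I * ((φ τ - φ 0) / 2 : ℝ)) with hv
  set u : ℝ → ℂ := fun τ => cexp (I * φ τ) * v τ with hu
  have hexp : ∀ τ, cexp (I * φ τ) = Real.cos (φ τ) + Real.sin (φ τ) * I := fun τ => by
    rw [mul_comm, Complex.exp_mul_I]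
    simp
  have hvd : ∀ τ, HasDerivAt v ((r * cexp (I * φ τ) - I * (b + a * (Real.cos τ : ℂ))) * v τ) τ := by
    intro τ
    have h1 : HasDerivAt (fun τ => (R τ : ℂ)) ((r * Real.cos (φ τ) : ℝ) : ℂ) τ :=
      (hRd τ).ofReal_comp
    have h2 : HasDerivAt (fun τ => (((φ τ - φ 0) / 2 : ℝ) : ℂ))
        (((2 * (b + a * Real.cos τ) - 2 * r * Real.sin (φ τ)) / 2 : ℝ) : ℂ) τ :=
      (((h τ).sub_const (φ 0)).div_const 2).ofReal_comp
    have h3 := (h1.fun_sub (h2.const_mul I)).cexp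
    refine h3.congr_deriv ?_
    rw [hexp τ, hv]
    push_cast
    ring_nf
  have hud : ∀ τ, HasDerivAt u (I * (b + a * (Real.cos τ : ℂ)) * u τ + r * v τ) τ := by
    intro τ
    have h2 : HasDerivAt (fun τ => ((φ τ : ℝ) : ℂ))
        ((2 * (b + a * Real.cos τ) - 2 * r * Real.sin (φ τ) : ℝ) : ℂ) τ := (h τ).ofReal_comp
    have h3 := ((h2.const_mul I).cexp).fun_mul (hvd τ)
    refine h3.congr_deriv ?_
    rw [hu]
    simp only
    have h4 : cexp (I * φ τ) ^ 2 = 1 + 2 * I * Real.sin (φ τ) * cexp (I * φ τ) := by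
      rw [hexp τ]
      have h5 : (Real.sin (φ τ) : ℂ) ^ 2 + (Real.cos (φ τ) : ℂ) ^ 2 = 1 := by
        exact_mod_cast Real.sin_sq_add_cos_sq (φ τ)
      linear_combination h5 + (-(Real.sin (φ τ) : ℂ) ^ 2) * I_sq
    push_cast at h4 ⊢
    linear_combination ((r : ℂ) * v τ) * h4
  refine ⟨u, v, ⟨fun τ _ => (hud τ).hasDerivWithinAt, fun τ _ => ?_⟩, ?_, ?_, ?_, R (2 * π), ?_⟩
  · have h1 := (hvd τ).hasDerivWithinAt (s := Icc 0 (2 * π))
    refine h1.congr_deriv ?_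
    rw [hu]
    simp only
    ring
  · simp [hu, hv, hR]
  · simp [hv, hR]
  · simp [hu]
  · rw [hv]
    simp only
    rw [sub_eq_add_neg, Complex.exp_add]
    push_cast
    ring_nf

end Pool.Agent.Josephson
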