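import Pool.Agent.helper74.Jos.Lin1

set_option autoImplicit false

/-!
# Real points of the surfaces: the two-sided estimate for the Poincaré map
-/

open Set Filter Topology Metric MeasureTheory Complex
open scoped Real NNReal

namespace Pool.Agent.Josephson

theorem exp_half {ε : ℝ} (hε : ε = 1 ∨ ε = -1) :
    cexp (I * ((ε * (π / 2) : ℝ) : ℂ)) = ε * I := by
  rcases hε with h | h
  · subst h
    have : I * ((1 * (π / 2) : ℝ) : ℂ) = (π / 2 : ℂ) * I := by push_cast; ring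
    rw [this, Complex.exp_pi_div_two_mul_I]
    simp
  · subst h
    have : I * ((-1 * (π / 2) : ℝ) : ℂ) = -π / 2 * I := by push_cast; ring
    rw [this, Complex.exp_neg_pi_div_two_mul_I]
    simp

theorem sq_eps {ε : ℝ} (hε : ε = 1 ∨ ε = -1) : ((ε : ℂ) * I) ^ 2 = -1 := by
  rcases hε with h | h <;> subst h <;> simp

theorem exp_I_eq_iff {x y : ℝ} :
    cexp (I * x) = cexp (I * y) ↔ ∃ n : ℤ, x = y + n * (2 * π) := by
  rw [Complex.exp_eq_exp_iff_exists_int]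
  constructor
  · rintro ⟨n, hn⟩
    refine ⟨n, ?_⟩
    have h1 : I * ((x : ℂ) - (y + n * (2 * π))) = 0 := by linear_combination hn
    rw [mul_eq_zero] at h1
    rcases h1 with h1 | h1
    · exact absurd h1 I_ne_zero
    · have h2 : (x : ℂ) = ((y + n * (2 * π) : ℝ) : ℂ) := by
        push_cast
        linear_combination h1
      exact_mod_cast h2
  · rintro ⟨n, hn⟩
    refine ⟨n, ?_⟩
    rw [hn]
    push_cast
    ring

/-- If the monodromy fixes a second point of the circle, it is trivial on the circle. -/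
theorem all_fixed {b a r : ℝ} {u v : ℝ → ℂ} (h : LSol b a r u v) {e : ℂ} (he : e ^ 2 = -1)
    (hu0 : u 0 = e) (hv0 : v 0 = 1) (hu : u (2 * π) = e * v (2 * π))
    {ψ : ℝ → ℝ} (hψ : RSol b a r ψ) {j : ℤ} (hj : ψ (2 * π) = ψ 0 + j * (2 * π))
    (hne : cexp (I * ψ 0) ≠ e) {χ : ℝ → ℝ} (hχ : RSol b a r χ) :
    ∃ j' : ℤ, χ (2 * π) = χ 0 + j' * (2 * π) := by
  have hc2 := h.sq_eq_one he hu0 hv0 hu
  set c := v (2 * π) with hc
  have hc0 : c ≠ 0 := by
    intro h0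
    rw [h0] at hc2
    norm_num at hc2
  obtain ⟨u₁, v₁, h₁, hu₁, hv₁, hu₁', -⟩ := hψ.lift
  obtain ⟨u₂, v₂, h₂, hu₂, hv₂, hu₂', -⟩ := hχ.lift
  have hE : cexp (I * ψ (2 * π)) = cexp (I * ψ 0) := exp_I_eq_iff.2 ⟨j, hj⟩
  rw [hE] at hu₁'
  set E := cexp (I * ψ 0) with hEdef
  set X := cexp (I * χ 0) with hX
  have hW := h.wronskian h₁
  rw [hu, hu₁', hu0, hv₁, hu₁, hv0] at hW
  have hne' : e - E ≠ 0 := sub_ne_zero.2 (Ne.symm hne)
  have hl : v₁ (2 * π) = c := by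
    have h3 : (c * v₁ (2 * π) - 1) * (e - E) = 0 := by linear_combination hW
    rcases mul_eq_zero.1 h3 with h4 | h4
    · have h5 : c * v₁ (2 * π) = c * c := by linear_combination h4 - hc2
      exact mul_left_cancel₀ hc0 h5
    · exact absurd h4 hne'
  set s := (X - E) / (e - E) with hs
  have hs' : s * (e - E) = X - E := div_mul_cancel₀ _ hne'
  have hsum := ((h.smul s).add (h₁.smul (1 - s))).unique h₂
    (by simp only [hu0, hu₁, hu₂]; linear_combination hs')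
    (by simp only [hv0, hv₁, hv₂]; ring) (2 * π) twopi_mem_I
  simp only [hu, hu₁', hl, ← hc] at hsum
  obtain ⟨h3, h4⟩ := hsum
  have h5 : v₂ (2 * π) = c := by rw [← h4]; ring
  have h6 : u₂ (2 * π) = X * c := by rw [← h3]; linear_combination c * hs'
  rw [hu₂', h5] at h6
  have h7 : cexp (I * χ (2 * π)) = X := mul_right_cancel₀ hc0 h6
  exact exp_I_eq_iff.1 h7

/-- The Poincaré map does not cross the shift by `2πk`. -/
theorem side {ε : ℝ} (hε : ε = 1 ∨ ε = -1) {b a r : ℝ} {u v : ℝ → ℂ} (h : LSol b a r u v)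
    (hu0 : u 0 = ε * I) (hv0 : v 0 = 1) (hu : u (2 * π) = ε * I * v (2 * π))
    {φ : ℝ → ℝ} (hφ : RSol b a r φ) (hφ0 : φ 0 = ε * (π / 2)) {k : ℤ}
    (hk : φ (2 * π) = φ 0 + k * (2 * π)) :
    (∀ ψ, RSol b a r ψ → ψ 0 + k * (2 * π) ≤ ψ (2 * π)) ∨
      (∀ ψ, RSol b a r ψ → ψ (2 * π) ≤ ψ 0 + k * (2 * π)) := by
  have hpi : 0 < 2 * π := by positivity
  by_contra hcon
  push Not at hcon
  obtain ⟨⟨ψ₁, hψ₁, hlt₁⟩, ⟨ψ₂, hψ₂, hlt₂⟩⟩ := hcon
  set x₀ := ε * (π / 2) with hx₀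
  -- the Poincaré map
  choose Φ hΦ hΦ0 using RSol.exists b a r
  set D : ℝ → ℝ := fun x => Φ x (2 * π) - x - k * (2 * π) with hD
  have hDc : Continuous D := by
    have h1 : Continuous fun x => Φ x (2 * π) := by
      apply LipschitzWith.continuous (K := ⟨Real.exp (2 * |r| * (2 * π)), (Real.exp_pos _).le⟩)
      apply LipschitzWith.of_dist_le_mul
      intro x y
      have h2 := RSol.lip (hΦ y) (hΦ x) hpi.le
      simp only [hΦ0, sub_self, abs_zero, mul_zero, add_zero, zero_mul] at h2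
      rw [Real.dist_eq, Real.dist_eq]
      exact h2
    fun_prop
  have hval : ∀ ψ, RSol b a r ψ → D (ψ 0) = ψ (2 * π) - ψ 0 - k * (2 * π) := by
    intro ψ hψ
    have h1 := (hΦ (ψ 0)).unique hψ (hΦ0 _) (2 * π) hpi.le
    simp only [hD, h1]
  have hDx₀ : D x₀ = 0 := by
    have h1 := hval φ hφ
    rw [hφ0] at h1
    rw [h1, hk, hφ0]
    ring
  have hper : ∀ (x : ℝ) (n : ℤ), D (x + n * (2 * π)) = D x := by
    intro x n
    have h1 := (hΦ (x + n * (2 * π))).unique ((hΦ x).add_int n) (by simp [hΦ0]) (2 * π) hpi.le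
    simp only [hD, h1]
    ring
  -- normalise
  have hnorm : ∀ x : ℝ, D x ≠ 0 → ∃ y, x₀ < y ∧ y < x₀ + 2 * π ∧ D y = D x := by
    intro x hx
    obtain ⟨n, hn⟩ := existsUnique_add_zsmul_mem_Ico hpi x x₀ |>.exists
    rw [zsmul_eq_mul] at hn
    refine ⟨x + n * (2 * π), lt_of_le_of_ne hn.1 ?_, hn.2, hper x n⟩
    intro h1
    apply hx
    rw [← hper x n, ← h1, hDx₀]
  obtain ⟨y₁, hy₁, hy₁', hD₁⟩ := hnorm (ψ₁ 0) (by rw [hval _ hψ₁]; linarith)
  obtain ⟨y₂, hy₂, hy₂', hD₂⟩ := hnorm (ψ₂ 0) (by rw [hval _ hψ₂]; linarith)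
  have hneg : D y₁ < 0 := by rw [hD₁, hval _ hψ₁]; linarith
  have hpos : 0 < D y₂ := by rw [hD₂, hval _ hψ₂]; linarith
  -- a zero strictly between
  have h0 : (0:ℝ) ∈ D '' uIcc y₁ y₂ := by
    apply intermediate_value_uIcc hDc.continuousOn
    rw [uIcc_of_le (hneg.trans hpos).le]
    exact ⟨hneg.le, hpos.le⟩
  obtain ⟨y, hy, hDy⟩ := h0
  have hy' : x₀ < y ∧ y < x₀ + 2 * π := by
    rw [mem_uIcc] at hy
    rcases hy with hy | hy
    · exact ⟨by linarith [hy.1], by linarith [hy.2]⟩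
    · exact ⟨by linarith [hy.1], by linarith [hy.2]⟩
  have hne : cexp (I * (Φ y 0 : ℝ)) ≠ ε * I := by
    rw [hΦ0, ← exp_half hε]
    intro hcon
    obtain ⟨n, hn⟩ := exp_I_eq_iff.1 hcon
    rw [← hx₀] at hn
    have h1 : 0 < (n:ℝ) * (2 * π) := by linarith [hy'.1]
    have h2 : (n:ℝ) * (2 * π) < 1 * (2 * π) := by linarith [hy'.2]
    have h3 : (0:ℝ) < n := pos_of_mul_pos_left h1 hpi.le
    have h4 : (n:ℝ) < 1 := lt_of_mul_lt_mul_right h2 hpi.le
    have h5 : (0:ℤ) < n := by exact_mod_cast h3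
    have h6 : n < (1:ℤ) := by exact_mod_cast h4
    omega
  have hall : ∀ x : ℝ, ∃ n : ℤ, D x = n * (2 * π) := by
    intro x
    have hj : Φ y (2 * π) = Φ y 0 + k * (2 * π) := by
      rw [hΦ0]
      simp only [hD] at hDy
      linarith
    obtain ⟨j', hj'⟩ := all_fixed h (sq_eps hε) hu0 hv0 hu (hΦ y) hj hne (hΦ x)
    refine ⟨j' - k, ?_⟩
    simp only [hD, hj', hΦ0]
    push_cast
    ring
  -- but `D` takes small positive values
  have h1 : min (D y₂) 1 ∈ D '' uIcc x₀ y₂ := by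
    apply intermediate_value_uIcc hDc.continuousOn
    rw [hDx₀, uIcc_of_le hpos.le]
    exact ⟨le_min hpos.le zero_le_one, min_le_left _ _⟩
  obtain ⟨z, -, hz⟩ := h1
  obtain ⟨n, hn⟩ := hall z
  rw [hz] at hn
  have h2 : 0 < (n:ℝ) * (2 * π) := by rw [← hn]; exact lt_min hpos one_pos
  have h3 : (n:ℝ) * (2 * π) < 1 * (2 * π) := by
    rw [← hn]
    have := min_le_right (D y₂) 1
    have := Real.pi_gt_three
    linarith
  have h4 : (0:ℝ) < n := pos_of_mul_pos_left h2 hpi.le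
  have h5 : (n:ℝ) < 1 := lt_of_mul_lt_mul_right h3 hpi.le
  have h6 : (0:ℤ) < n := by exact_mod_cast h4
  have h7 : n < (1:ℤ) := by exact_mod_cast h5
  omega

/-- Real points: the phase solution, and the multiplier. -/
theorem real_point {ε : ℝ} (hε : ε = 1 ∨ ε = -1) {b a r : ℝ} {u v : ℝ → ℂ} (h : LSol b a r u v)
    (hu0 : u 0 = ε * I) (hv0 : v 0 = 1) (hu : u (2 * π) = ε * I * v (2 * π))
    {φ : ℝ → ℝ} (hφ : RSol b a r φ) (hφ0 : φ 0 = ε * (π / 2)) :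
    ∃ k : ℤ, φ (2 * π) = φ 0 + k * (2 * π) ∧ v (2 * π) = (-1) ^ k := by
  obtain ⟨u₁, v₁, h₁, hu₁, hv₁, hu₁', ρ, hρ⟩ := hφ.lift
  rw [hφ0, exp_half hε] at hu₁
  have huniq := h.unique h₁ (hu0.trans hu₁.symm) (hv0.trans hv₁.symm) (2 * π) twopi_mem_I
  rw [← huniq.1, ← huniq.2, hu] at hu₁'
  rw [← huniq.2] at hρ
  have hv2 := h.sq_eq_one (sq_eps hε) hu0 hv0 hu
  have hvne : v (2 * π) ≠ 0 := by
    intro h0
    rw [h0] at hv2
    norm_num at hv2
  have h3 : cexp (I * φ (2 * π)) = cexp (I * ((ε * (π / 2) : ℝ) : ℂ)) := by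
    rw [exp_half hε]
    exact (mul_right_cancel₀ hvne hu₁').symm
  obtain ⟨k, hk⟩ := exp_I_eq_iff.1 h3
  refine ⟨k, by rw [hk, hφ0], ?_⟩
  have h4 : ((φ (2 * π) - φ 0) / 2 : ℝ) = k * π := by rw [hk, hφ0]; ring
  rw [h4] at hρ
  have h5 : cexp (-(I * ((k * π : ℝ) : ℂ))) = (-1) ^ k := by
    have h6 : -(I * ((k * π : ℝ) : ℂ)) = (k : ℂ) * (-(π * I)) := by push_cast; ring
    rw [h6, Complex.exp_int_mul, Complex.exp_neg, Complex.exp_pi_mul_I]
    norm_num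
  rw [h5] at hρ
  have h6 : ((-1 : ℂ) ^ k) ^ 2 = 1 := by
    rw [← zpow_natCast, ← zpow_mul, mul_comm, zpow_mul]
    norm_num
  have h7 : (Real.exp ρ : ℂ) ^ 2 = 1 := by
    rw [hρ, mul_pow, h6, mul_one] at hv2
    exact hv2
  have h8 : Real.exp ρ ^ 2 = 1 := by exact_mod_cast h7
  have h9 : Real.exp ρ = 1 := by
    have := Real.exp_pos ρ
    nlinarith
  rw [hρ, h9]
  simp

end Pool.Agent.Josephson
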