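import Pool.Agent.helper74.Jos.Lin2

set_option autoImplicit false

/-!
# The linear system: existence and analytic dependence on the parameters
-/

open Set Filter Topology Metric MeasureTheory Complex
open scoped Real NNReal Nat

namespace Pool.Agent.Josephson

section Abstract

variable {E F : Type*} [NormedAddCommGroup E] [NormedSpace ℂ E] [CompleteSpace E]
  [NormedAddCommGroup F] [NormedSpace ℂ F]

theorem analytic_inverse_apply (L : F →L[ℂ] (E →L[ℂ] E)) (hL : ∀ p, IsUnit (1 - L p)) (x : E) :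
    AnalyticOnNhd ℂ (fun p => (Ring.inverse (1 - L p)) x) univ := by
  intro p _
  have h1 : AnalyticAt ℂ (fun p => 1 - L p) p := analyticAt_const.sub (L.analyticAt p)
  have h2 : AnalyticAt ℂ (Ring.inverse : (E →L[ℂ] E) → (E →L[ℂ] E)) (1 - L p) := by
    obtain ⟨w, hw⟩ := hL p
    rw [← hw]
    exact analyticAt_inverse w
  have h3 := AnalyticAt.comp (f := fun p => 1 - L p) (g := Ring.inverse) h2 h1
  exact ((ContinuousLinearMap.apply ℂ E x).analyticAt _).comp h3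

theorem isUnit_one_sub_of_pow (L : E →L[ℂ] E) (n : ℕ) (h : ‖L ^ n‖ < 1) : IsUnit (1 - L) := by
  have h3 : IsUnit (1 - L ^ n) := ⟨Units.oneSub _ h, rfl⟩
  rw [← mul_neg_geom_sum] at h3
  have hcomm : Commute (1 - L) (∑ i ∈ Finset.range n, L ^ i) := by
    apply Commute.sub_left (Commute.one_left _)
    apply Commute.sum_right
    intro i _
    exact (Commute.refl _).pow_right i
  exact (hcomm.isUnit_mul_iff.1 h3).1

theorem inverse_one_sub_apply (L : E →L[ℂ] E) (h : IsUnit (1 - L)) (x : E) :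
    (Ring.inverse (1 - L)) x = x + L ((Ring.inverse (1 - L)) x) := by
  have h1 : (1 - L) * Ring.inverse (1 - L) = 1 := Ring.mul_inverse_cancel _ h
  have h2 := DFunLike.congr_fun h1 x
  have h3 : (Ring.inverse (1 - L)) x - L ((Ring.inverse (1 - L)) x) = x := h2
  rw [sub_eq_iff_eq_add] at h3
  exact h3

/-- linear combination of three operators -/
noncomputable def comb (A B C : E →L[ℂ] E) : (ℂ × ℂ × ℂ) →L[ℂ] (E →L[ℂ] E) :=
  (ContinuousLinearMap.fst ℂ ℂ (ℂ × ℂ)).smulRight A +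
    ((ContinuousLinearMap.fst ℂ ℂ ℂ) ∘L (ContinuousLinearMap.snd ℂ ℂ (ℂ × ℂ))).smulRight B +
    ((ContinuousLinearMap.snd ℂ ℂ ℂ) ∘L (ContinuousLinearMap.snd ℂ ℂ (ℂ × ℂ))).smulRight C

theorem comb_apply (A B C : E →L[ℂ] E) (p : ℂ × ℂ × ℂ) (y : E) :
    comb A B C p y = p.1 • A y + p.2.1 • B y + p.2.2 • C y := rfl

theorem clm_comp_analytic {G : Type*} [NormedAddCommGroup G] [NormedSpace ℂ G] {f : F → E}
    (hf : AnalyticOnNhd ℂ f univ) (g : E →L[ℂ] G) : AnalyticOnNhd ℂ (fun p => g (f p)) univ :=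
  fun p hp => (g.analyticAt _).comp (hf p hp)

end Abstract

/-- The time interval. -/
abbrev TI : Type := Icc (0:ℝ) (2 * π)

/-- the right end of the time interval -/
noncomputable def tEnd : TI := ⟨2 * π, twopi_mem_I⟩

/-- extension of a continuous function on the interval -/
noncomputable def ext (y : C(TI, ℂ)) : ℝ → ℂ := IccExtend two_pi_nonneg y

theorem ext_continuous (y : C(TI, ℂ)) : Continuous (ext y) := y.continuous.Icc_extend'

theorem ext_of_mem (y : C(TI, ℂ)) {τ : ℝ} (hτ : τ ∈ Icc (0:ℝ) (2 * π)) : ext y τ = y ⟨τ, hτ⟩ :=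
  IccExtend_of_mem _ _ hτ

theorem ext_norm_le (y : C(TI, ℂ)) (τ : ℝ) : ‖ext y τ‖ ≤ ‖y‖ := y.norm_coe_le_norm _

/-- The Volterra operator. -/
noncomputable def volt : C(TI, ℂ) →L[ℂ] C(TI, ℂ) :=
  LinearMap.mkContinuous
    { toFun := fun y => ⟨fun τ => ∫ s in (0:ℝ)..τ, ext y s, by
        have h1 : Continuous fun t : ℝ => ∫ s in (0:ℝ)..t, ext y s :=
          intervalIntegral.continuous_primitive
            (fun a b => (ext_continuous y).intervalIntegrable a b) 0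
        exact h1.comp continuous_subtype_val⟩
      map_add' := fun y z => by
        ext τ
        simp only [ContinuousMap.coe_mk, ContinuousMap.coe_add, Pi.add_apply]
        rw [← intervalIntegral.integral_add ((ext_continuous y).intervalIntegrable _ _)
          ((ext_continuous z).intervalIntegrable _ _)]
        rfl
      map_smul' := fun c y => by
        ext τ
        simp only [ContinuousMap.coe_mk, ContinuousMap.coe_smul, Pi.smul_apply, RingHom.id_apply]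
        rw [← intervalIntegral.integral_smul]
        rfl } (2 * π) (fun y => by
      rw [ContinuousMap.norm_le _ (by positivity)]
      intro τ
      have h1 := intervalIntegral.norm_integral_le_of_norm_le_const (a := (0:ℝ)) (b := τ)
        (f := ext y) (C := ‖y‖) (fun s _ => ext_norm_le y s)
      rw [sub_zero, abs_of_nonneg τ.2.1] at h1
      refine h1.trans ?_
      rw [mul_comm]
      exact mul_le_mul_of_nonneg_right τ.2.2 (norm_nonneg _))

theorem volt_apply (y : C(TI, ℂ)) (τ : TI) : volt y τ = ∫ s in (0:ℝ)..τ, ext y s := rfl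

/-- the cosine -/
noncomputable def cosI : C(TI, ℂ) :=
  ⟨fun τ => (Real.cos τ : ℂ), by fun_prop⟩

theorem cosI_norm (τ : TI) : ‖cosI τ‖ ≤ 1 := by
  simp only [cosI, ContinuousMap.coe_mk, Complex.norm_real, Real.norm_eq_abs]
  exact Real.abs_cos_le_one _

/-- the state space -/
abbrev St : Type := C(TI, ℂ) × C(TI, ℂ)

/-- the coefficient operator of `β` -/
noncomputable def L₁ : St →L[ℂ] St :=
  (I • (volt ∘L ContinuousLinearMap.fst ℂ _ _)).prod (-(I • (volt ∘L ContinuousLinearMap.snd ℂ _ _)))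

/-- the coefficient operator of `α` -/
noncomputable def L₂ : St →L[ℂ] St :=
  (I • (volt ∘L (ContinuousLinearMap.mul ℂ C(TI, ℂ) cosI) ∘L ContinuousLinearMap.fst ℂ _ _)).prod
    (-(I • (volt ∘L (ContinuousLinearMap.mul ℂ C(TI, ℂ) cosI) ∘L ContinuousLinearMap.snd ℂ _ _)))

/-- the coefficient operator of `r` -/
noncomputable def L₃ : St →L[ℂ] St :=
  (volt ∘L ContinuousLinearMap.snd ℂ _ _).prod (volt ∘L ContinuousLinearMap.fst ℂ _ _)

/-- the operator of the integral equation -/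
noncomputable def Lop : (ℂ × ℂ × ℂ) →L[ℂ] (St →L[ℂ] St) := comb L₁ L₂ L₃

theorem Lop_fst (p : ℂ × ℂ × ℂ) (y : St) : (Lop p y).1 =
    p.1 • I • volt y.1 + p.2.1 • I • volt (cosI * y.1) + p.2.2 • volt y.2 := rfl

theorem Lop_snd (p : ℂ × ℂ × ℂ) (y : St) : (Lop p y).2 =
    p.1 • (-(I • volt y.2)) + p.2.1 • (-(I • volt (cosI * y.2))) + p.2.2 • volt y.1 := rfl

theorem volt_bound {y : C(TI, ℂ)} {K : ℝ} {n : ℕ} (h : ∀ τ : TI, ‖y τ‖ ≤ K * (τ : ℝ) ^ n)
    (τ : TI) : ‖volt y τ‖ ≤ K * ((τ : ℝ) ^ (n + 1) / (n + 1)) := by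
  rw [volt_apply]
  have h1 : ‖∫ s in (0:ℝ)..τ, ext y s‖ ≤ ∫ s in (0:ℝ)..τ, K * s ^ n := by
    apply intervalIntegral.norm_integral_le_of_norm_le τ.2.1
    · filter_upwards with s hs
      have hs' : s ∈ Icc (0:ℝ) (2 * π) := ⟨hs.1.le, hs.2.trans τ.2.2⟩
      rw [ext_of_mem y hs']
      exact h ⟨s, hs'⟩
    · exact (by fun_prop : Continuous fun s : ℝ => K * s ^ n).intervalIntegrable _ _
  refine h1.trans (le_of_eq ?_)
  rw [intervalIntegral.integral_const_mul, integral_pow]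
  simp

theorem Lop_bound (p : ℂ × ℂ × ℂ) {y : St} {K : ℝ} {n : ℕ}
    (h1 : ∀ τ : TI, ‖y.1 τ‖ ≤ K * (τ : ℝ) ^ n) (h2 : ∀ τ : TI, ‖y.2 τ‖ ≤ K * (τ : ℝ) ^ n) :
    (∀ τ : TI, ‖(Lop p y).1 τ‖ ≤ ((‖p.1‖ + ‖p.2.1‖ + ‖p.2.2‖) * K / (n + 1)) * (τ : ℝ) ^ (n + 1)) ∧
    (∀ τ : TI, ‖(Lop p y).2 τ‖ ≤
      ((‖p.1‖ + ‖p.2.1‖ + ‖p.2.2‖) * K / (n + 1)) * (τ : ℝ) ^ (n + 1)) := by
  have h1' : ∀ τ : TI, ‖(cosI * y.1) τ‖ ≤ K * (τ : ℝ) ^ n := fun τ => by
    rw [ContinuousMap.mul_apply, norm_mul]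
    exact (mul_le_of_le_one_left (norm_nonneg _) (cosI_norm τ)).trans (h1 τ)
  have h2' : ∀ τ : TI, ‖(cosI * y.2) τ‖ ≤ K * (τ : ℝ) ^ n := fun τ => by
    rw [ContinuousMap.mul_apply, norm_mul]
    exact (mul_le_of_le_one_left (norm_nonneg _) (cosI_norm τ)).trans (h2 τ)
  constructor
  · intro τ
    rw [Lop_fst]
    simp only [ContinuousMap.coe_add, ContinuousMap.coe_smul, Pi.add_apply, Pi.smul_apply,
      smul_eq_mul]
    have e1 : ‖p.1 * (I * volt y.1 τ)‖ ≤ ‖p.1‖ * (K * ((τ : ℝ) ^ (n + 1) / (n + 1))) := by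
      rw [norm_mul, norm_mul, norm_I, one_mul]
      exact mul_le_mul_of_nonneg_left (volt_bound h1 τ) (norm_nonneg _)
    have e2 : ‖p.2.1 * (I * volt (cosI * y.1) τ)‖ ≤
        ‖p.2.1‖ * (K * ((τ : ℝ) ^ (n + 1) / (n + 1))) := by
      rw [norm_mul, norm_mul, norm_I, one_mul]
      exact mul_le_mul_of_nonneg_left (volt_bound h1' τ) (norm_nonneg _)
    have e3 : ‖p.2.2 * volt y.2 τ‖ ≤ ‖p.2.2‖ * (K * ((τ : ℝ) ^ (n + 1) / (n + 1))) := by
      rw [norm_mul]
      exact mul_le_mul_of_nonneg_left (volt_bound h2 τ) (norm_nonneg _)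
    refine (norm_add₃_le).trans ?_
    refine (add_le_add (add_le_add e1 e2) e3).trans (le_of_eq ?_)
    ring
  · intro τ
    rw [Lop_snd]
    simp only [ContinuousMap.coe_add, ContinuousMap.coe_smul, Pi.add_apply, Pi.smul_apply,
      smul_eq_mul, ContinuousMap.coe_neg, Pi.neg_apply]
    have e1 : ‖p.1 * -(I * volt y.2 τ)‖ ≤ ‖p.1‖ * (K * ((τ : ℝ) ^ (n + 1) / (n + 1))) := by
      rw [norm_mul, norm_neg, norm_mul, norm_I, one_mul]
      exact mul_le_mul_of_nonneg_left (volt_bound h2 τ) (norm_nonneg _)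
    have e2 : ‖p.2.1 * -(I * volt (cosI * y.2) τ)‖ ≤
        ‖p.2.1‖ * (K * ((τ : ℝ) ^ (n + 1) / (n + 1))) := by
      rw [norm_mul, norm_neg, norm_mul, norm_I, one_mul]
      exact mul_le_mul_of_nonneg_left (volt_bound h2' τ) (norm_nonneg _)
    have e3 : ‖p.2.2 * volt y.1 τ‖ ≤ ‖p.2.2‖ * (K * ((τ : ℝ) ^ (n + 1) / (n + 1))) := by
      rw [norm_mul]
      exact mul_le_mul_of_nonneg_left (volt_bound h1 τ) (norm_nonneg _)
    refine (norm_add₃_le).trans ?_
    refine (add_le_add (add_le_add e1 e2) e3).trans (le_of_eq ?_)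
    ring

theorem Lop_pow_bound (p : ℂ × ℂ × ℂ) (y : St) (n : ℕ) :
    (∀ τ : TI, ‖((Lop p ^ n) y).1 τ‖ ≤
      ((‖p.1‖ + ‖p.2.1‖ + ‖p.2.2‖) ^ n / n ! * ‖y‖) * (τ : ℝ) ^ n) ∧
    (∀ τ : TI, ‖((Lop p ^ n) y).2 τ‖ ≤
      ((‖p.1‖ + ‖p.2.1‖ + ‖p.2.2‖) ^ n / n ! * ‖y‖) * (τ : ℝ) ^ n) := by
  induction n with
  | zero =>
    simp only [pow_zero, one_apply_eq_self, Nat.factorial_zero, Nat.cast_one, div_one,
      one_mul, mul_one]
    exact ⟨fun τ => (y.1.norm_coe_le_norm τ).trans (norm_fst_le y),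
      fun τ => (y.2.norm_coe_le_norm τ).trans (norm_snd_le y)⟩
  | succ n ih =>
    have h1 := Lop_bound p ih.1 ih.2
    have h2 : (Lop p ^ (n + 1)) y = Lop p ((Lop p ^ n) y) := by
      rw [pow_succ']
      rfl
    have h3 : (‖p.1‖ + ‖p.2.1‖ + ‖p.2.2‖) *
        ((‖p.1‖ + ‖p.2.1‖ + ‖p.2.2‖) ^ n / n ! * ‖y‖) / (n + 1) =
        (‖p.1‖ + ‖p.2.1‖ + ‖p.2.2‖) ^ (n + 1) / (n + 1)! * ‖y‖ := by
      rw [Nat.factorial_succ]
      have h4 : (n ! : ℝ) ≠ 0 := by exact_mod_cast n.factorial_ne_zero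
      have h5 : (n:ℝ) + 1 ≠ 0 := by positivity
      push_cast
      field_simp
      ring
    rw [h2, ← h3]
    exact h1

theorem Lop_pow_norm (p : ℂ × ℂ × ℂ) (n : ℕ) :
    ‖Lop p ^ n‖ ≤ ((‖p.1‖ + ‖p.2.1‖ + ‖p.2.2‖) * (2 * π)) ^ n / n ! := by
  apply ContinuousLinearMap.opNorm_le_bound _ (by positivity)
  intro y
  obtain ⟨h1, h2⟩ := Lop_pow_bound p y n
  have key : ∀ τ : TI, ((‖p.1‖ + ‖p.2.1‖ + ‖p.2.2‖) ^ n / n ! * ‖y‖) * (τ : ℝ) ^ n ≤
      ((‖p.1‖ + ‖p.2.1‖ + ‖p.2.2‖) * (2 * π)) ^ n / n ! * ‖y‖ := by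
    intro τ
    have h3 : (τ : ℝ) ^ n ≤ (2 * π) ^ n := pow_le_pow_left₀ τ.2.1 τ.2.2 n
    calc _ ≤ ((‖p.1‖ + ‖p.2.1‖ + ‖p.2.2‖) ^ n / n ! * ‖y‖) * (2 * π) ^ n :=
          mul_le_mul_of_nonneg_left h3 (by positivity)
      _ = _ := by rw [mul_pow (‖p.1‖ + ‖p.2.1‖ + ‖p.2.2‖) (2 * π)]; ring
  rw [Prod.norm_def]
  apply max_le
  · rw [ContinuousMap.norm_le _ (by positivity)]
    exact fun τ => (h1 τ).trans (key τ)
  · rw [ContinuousMap.norm_le _ (by positivity)]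
    exact fun τ => (h2 τ).trans (key τ)

theorem isUnit_one_sub_Lop (p : ℂ × ℂ × ℂ) : IsUnit (1 - Lop p) := by
  have h1 : Tendsto (fun n : ℕ => ((‖p.1‖ + ‖p.2.1‖ + ‖p.2.2‖) * (2 * π)) ^ n / n !) atTop (𝓝 0) :=
    FloorSemiring.tendsto_pow_div_factorial_atTop _
  obtain ⟨n, hn⟩ := (h1.eventually (gt_mem_nhds one_pos)).exists
  exact isUnit_one_sub_of_pow _ n ((Lop_pow_norm p n).trans_lt hn)

/-- the constant vector -/
noncomputable def cst (a b : ℂ) : St := (ContinuousMap.const _ a, ContinuousMap.const _ b)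

/-- the solution with initial value `(a, b)` -/
noncomputable def sol (a b : ℂ) (p : ℂ × ℂ × ℂ) : St := Ring.inverse (1 - Lop p) (cst a b)

theorem sol_eq (a b : ℂ) (p : ℂ × ℂ × ℂ) : sol a b p = cst a b + Lop p (sol a b p) :=
  inverse_one_sub_apply _ (isUnit_one_sub_Lop p) _

theorem sol_analytic (a b : ℂ) : AnalyticOnNhd ℂ (sol a b) univ :=
  analytic_inverse_apply Lop isUnit_one_sub_Lop (cst a b)

/-- the two components at the end of the period -/
noncomputable def endU (a b : ℂ) (p : ℂ × ℂ × ℂ) : ℂ := (sol a b p).1 tEnd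

/-- the two components at the end of the period -/
noncomputable def endV (a b : ℂ) (p : ℂ × ℂ × ℂ) : ℂ := (sol a b p).2 tEnd

theorem endU_analytic (a b : ℂ) : AnalyticOnNhd ℂ (endU a b) univ :=
  clm_comp_analytic (sol_analytic a b)
    ((ContinuousMap.evalCLM ℂ tEnd) ∘L (ContinuousLinearMap.fst ℂ C(TI, ℂ) C(TI, ℂ)))

theorem endV_analytic (a b : ℂ) : AnalyticOnNhd ℂ (endV a b) univ :=
  clm_comp_analytic (sol_analytic a b)
    ((ContinuousMap.evalCLM ℂ tEnd) ∘L (ContinuousLinearMap.snd ℂ C(TI, ℂ) C(TI, ℂ)))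

theorem exists_LSol (a b : ℂ) (p : ℂ × ℂ × ℂ) : ∃ u v : ℝ → ℂ, LSol p.1 p.2.1 p.2.2 u v ∧
    u 0 = a ∧ v 0 = b ∧ u (2 * π) = endU a b p ∧ v (2 * π) = endV a b p := by
  set y := sol a b p with hy
  have hyeq := sol_eq a b p
  rw [← hy] at hyeq
  set F : ℝ → ℂ := fun s => I * (p.1 + p.2.1 * (Real.cos s : ℂ)) * ext y.1 s + p.2.2 * ext y.2 s
    with hF
  set G : ℝ → ℂ := fun s => p.2.2 * ext y.1 s - I * (p.1 + p.2.1 * (Real.cos s : ℂ)) * ext y.2 s
    with hG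
  have hc1 := ext_continuous y.1
  have hc2 := ext_continuous y.2
  have hFc : Continuous F := by rw [hF]; fun_prop
  have hGc : Continuous G := by rw [hG]; fun_prop
  have hcos1 : ∀ τ ∈ Icc (0:ℝ) (2 * π), (∫ s in (0:ℝ)..τ, ext (cosI * y.1) s) =
      ∫ s in (0:ℝ)..τ, (Real.cos s : ℂ) * ext y.1 s := by
    intro τ hτ
    apply intervalIntegral.integral_congr
    intro s hs
    rw [uIcc_of_le hτ.1] at hs
    have hs' : s ∈ Icc (0:ℝ) (2 * π) := ⟨hs.1, hs.2.trans hτ.2⟩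
    simp only [ext_of_mem _ hs', ContinuousMap.mul_apply, cosI, ContinuousMap.coe_mk]
  have hcos2 : ∀ τ ∈ Icc (0:ℝ) (2 * π), (∫ s in (0:ℝ)..τ, ext (cosI * y.2) s) =
      ∫ s in (0:ℝ)..τ, (Real.cos s : ℂ) * ext y.2 s := by
    intro τ hτ
    apply intervalIntegral.integral_congr
    intro s hs
    rw [uIcc_of_le hτ.1] at hs
    have hs' : s ∈ Icc (0:ℝ) (2 * π) := ⟨hs.1, hs.2.trans hτ.2⟩
    simp only [ext_of_mem _ hs', ContinuousMap.mul_apply, cosI, ContinuousMap.coe_mk]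
  have hi1 : ∀ x z : ℝ, IntervalIntegrable (ext y.1) volume x z :=
    fun x z => hc1.intervalIntegrable x z
  have hi2 : ∀ x z : ℝ, IntervalIntegrable (ext y.2) volume x z :=
    fun x z => hc2.intervalIntegrable x z
  have hi3 : ∀ x z : ℝ, IntervalIntegrable (fun s => (Real.cos s : ℂ) * ext y.1 s) volume x z :=
    fun x z => (by fun_prop : Continuous fun s : ℝ => (Real.cos s : ℂ) * ext y.1 s).intervalIntegrable
      x z
  have hi4 : ∀ x z : ℝ, IntervalIntegrable (fun s => (Real.cos s : ℂ) * ext y.2 s) volume x z :=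
    fun x z => (by fun_prop : Continuous fun s : ℝ => (Real.cos s : ℂ) * ext y.2 s).intervalIntegrable
      x z
  have hu : ∀ τ ∈ Icc (0:ℝ) (2 * π), ext y.1 τ = a + ∫ s in (0:ℝ)..τ, F s := by
    intro τ hτ
    rw [ext_of_mem _ hτ]
    have h1 : y.1 = (cst a b + Lop p y).1 := congrArg Prod.fst hyeq
    have h2 : y.1 ⟨τ, hτ⟩ = (cst a b + Lop p y).1 ⟨τ, hτ⟩ := DFunLike.congr_fun h1 _
    rw [h2, Prod.fst_add, Lop_fst]
    simp only [ContinuousMap.coe_add, ContinuousMap.coe_smul, Pi.add_apply, Pi.smul_apply,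
      smul_eq_mul, volt_apply, cst, ContinuousMap.const_apply, hcos1 τ hτ]
    have h3 : F = fun s => (p.1 * I) * ext y.1 s + (p.2.1 * I) * ((Real.cos s : ℂ) * ext y.1 s) +
        p.2.2 * ext y.2 s := by
      rw [hF]
      funext s
      ring
    rw [h3, intervalIntegral.integral_add, intervalIntegral.integral_add,
      intervalIntegral.integral_const_mul, intervalIntegral.integral_const_mul,
      intervalIntegral.integral_const_mul]
    · ring
    · exact (hi1 _ _).const_mul _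
    · exact (hi3 _ _).const_mul _
    · exact ((hi1 _ _).const_mul _).add ((hi3 _ _).const_mul _)
    · exact (hi2 _ _).const_mul _
  have hv : ∀ τ ∈ Icc (0:ℝ) (2 * π), ext y.2 τ = b + ∫ s in (0:ℝ)..τ, G s := by
    intro τ hτ
    rw [ext_of_mem _ hτ]
    have h1 : y.2 = (cst a b + Lop p y).2 := congrArg Prod.snd hyeq
    have h2 : y.2 ⟨τ, hτ⟩ = (cst a b + Lop p y).2 ⟨τ, hτ⟩ := DFunLike.congr_fun h1 _
    rw [h2, Prod.snd_add, Lop_snd]
    simp only [ContinuousMap.coe_add, ContinuousMap.coe_smul, Pi.add_apply, Pi.smul_apply,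
      smul_eq_mul, volt_apply, cst, ContinuousMap.const_apply, hcos2 τ hτ, ContinuousMap.coe_neg,
      Pi.neg_apply]
    have h3 : G = fun s => (-(p.1 * I)) * ext y.2 s +
        (-(p.2.1 * I)) * ((Real.cos s : ℂ) * ext y.2 s) + p.2.2 * ext y.1 s := by
      rw [hG]
      funext s
      ring
    rw [h3, intervalIntegral.integral_add, intervalIntegral.integral_add,
      intervalIntegral.integral_const_mul, intervalIntegral.integral_const_mul,
      intervalIntegral.integral_const_mul]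
    · ring
    · exact (hi2 _ _).const_mul _
    · exact (hi4 _ _).const_mul _
    · exact ((hi2 _ _).const_mul _).add ((hi4 _ _).const_mul _)
    · exact (hi1 _ _).const_mul _
  refine ⟨ext y.1, ext y.2, ⟨fun τ hτ => ?_, fun τ hτ => ?_⟩, ?_, ?_, ?_, ?_⟩
  · have h1 : HasDerivAt (fun τ => a + ∫ s in (0:ℝ)..τ, F s) (F τ) τ :=
      (intervalIntegral.integral_hasDerivAt_right (hFc.intervalIntegrable _ _)
        (hFc.stronglyMeasurableAtFilter _ _) hFc.continuousAt).const_add a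
    exact h1.hasDerivWithinAt.congr (fun s hs => hu s hs) (hu τ hτ)
  · have h1 : HasDerivAt (fun τ => b + ∫ s in (0:ℝ)..τ, G s) (G τ) τ :=
      (intervalIntegral.integral_hasDerivAt_right (hGc.intervalIntegrable _ _)
        (hGc.stronglyMeasurableAtFilter _ _) hGc.continuousAt).const_add b
    exact h1.hasDerivWithinAt.congr (fun s hs => hv s hs) (hv τ hτ)
  · rw [hu 0 zero_mem_I]
    simp
  · rw [hv 0 zero_mem_I]
    simp
  · rw [ext_of_mem _ twopi_mem_I]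
    rfl
  · rw [ext_of_mem _ twopi_mem_I]
    rfl

/-- Every solution is given by `endU`, `endV`. -/
theorem LSol.end_eq {p : ℂ × ℂ × ℂ} {u v : ℝ → ℂ} (h : LSol p.1 p.2.1 p.2.2 u v) :
    u (2 * π) = endU (u 0) (v 0) p ∧ v (2 * π) = endV (u 0) (v 0) p := by
  obtain ⟨u', v', h', hu, hv, hu', hv'⟩ := exists_LSol (u 0) (v 0) p
  have := h.unique h' hu.symm hv.symm (2 * π) twopi_mem_I
  exact ⟨this.1.trans hu', this.2.trans hv'⟩

end Pool.Agent.Josephson
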