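import Pool.Agent.helper74.Jos.Cx3

set_option autoImplicit false

/-!
# The surfaces `Σ_ε` and the analytic hulls of the boundary families
-/

open Set Filter Topology Metric MeasureTheory Complex
open scoped Real NNReal Interval

namespace Pool.Agent.Josephson

/-- internal coordinates -/
def coord (p : P) : ℂ × ℂ × ℂ := (p.2.2 * p.1, p.2.2 * p.2.1, p.2.2)

theorem coord_analytic : AnalyticOnNhd ℂ coord univ := by
  intro p _
  have e1 : AnalyticAt ℂ (fun p : P => p.1) p := analyticAt_fst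
  have e2 : AnalyticAt ℂ (fun p : P => p.2.1) p := analyticAt_fst.comp analyticAt_snd
  have e3 : AnalyticAt ℂ (fun p : P => p.2.2) p := analyticAt_snd.comp analyticAt_snd
  exact (e3.mul e1).prod ((e3.mul e2).prod e3)

theorem isOpen_U : IsOpen U := by
  have : U = (fun p : P => p.2.2) ⁻¹' {0}ᶜ := rfl
  rw [this]
  exact isOpen_compl_singleton.preimage (by fun_prop)

theorem proj_eq_coe {x y c : ℂ} : proj x y = (c : OnePoint ℂ) ↔ y ≠ 0 ∧ x = c * y := by
  unfold proj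
  by_cases hy : y = 0
  · rw [if_pos hy]
    constructor
    · intro h
      exact absurd h.symm (OnePoint.coe_ne_infty c)
    · rintro ⟨h, -⟩
      exact absurd hy h
  · rw [if_neg hy, OnePoint.coe_eq_coe, div_eq_iff hy]
    exact ⟨fun h => ⟨hy, h⟩, fun h => h.2⟩

theorem mem_Sigma_iff {ε : ℝ} (hε : ε = 1 ∨ ε = -1) {p : P} :
    p ∈ Sigma ε ↔ p ∈ U ∧ Fz (ε * I) (coord p) = 0 := by
  have he := sq_eps hε
  constructor
  · rintro ⟨hU, u, v, h, -, h0, h1⟩
    rw [proj_eq_coe] at h0 h1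
    refine ⟨hU, ?_⟩
    rw [isLinSol_iff] at h
    have h2 := (h.smul (v 0)⁻¹)
    have h3 := LSol.end_eq (p := coord p) h2
    simp only [h0.2, h1.2] at h3
    have e1 : (v 0)⁻¹ * (ε * I * v 0) = ε * I := by
      rw [mul_comm, mul_assoc, mul_inv_cancel₀ h0.1, mul_one]
    have e2 : (v 0)⁻¹ * v 0 = 1 := inv_mul_cancel₀ h0.1
    rw [e1, e2] at h3
    unfold Fz
    rw [← h3.1, ← h3.2]
    ring
  · rintro ⟨hU, hz⟩
    obtain ⟨u, v, h, hu0, hv0, hu1, hv1⟩ := exists_LSol (ε * I) 1 (coord p)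
    have hu : u (2 * π) = ε * I * v (2 * π) := by
      rw [hu1, hv1]
      exact sub_eq_zero.1 hz
    have h2 := h.sq_eq_one he hu0 hv0 hu
    have hv2 : v (2 * π) ≠ 0 := by
      intro h0
      rw [h0] at h2
      norm_num at h2
    refine ⟨hU, u, v, (isLinSol_iff p u v).2 h, Or.inr (by rw [hv0]; exact one_ne_zero), ?_, ?_⟩
    · rw [proj_eq_coe, hv0, hu0]
      exact ⟨one_ne_zero, by ring⟩
    · rw [proj_eq_coe]
      exact ⟨hv2, hu⟩

theorem mem_SigmaPart_iff {ε : ℝ} {c : ℂ} {p : P} :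
    p ∈ SigmaPart ε c ↔ p ∈ U ∧ endU (ε * I) 1 (coord p) = c * (ε * I) ∧
      endV (ε * I) 1 (coord p) = c := by
  constructor
  · rintro ⟨hU, u, v, h, hu0, hv0, hu1, hv1⟩
    rw [isLinSol_iff] at h
    have h3 := LSol.end_eq (p := coord p) h
    rw [hu0, hv0, hu1, hv1] at h3
    exact ⟨hU, h3.1.symm, h3.2.symm⟩
  · rintro ⟨hU, h1, h2⟩
    obtain ⟨u, v, h, hu0, hv0, hu1, hv1⟩ := exists_LSol (ε * I) 1 (coord p)
    exact ⟨hU, u, v, (isLinSol_iff p u v).2 h, hu0, hv0, hu1.trans h1, hv1.trans h2⟩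

theorem SigmaPart_analytic (ε : ℝ) (c : ℂ) : IsAnalyticSubset (SigmaPart ε c) := by
  refine ⟨fun p hp => hp.1, fun p hp => ⟨U, isOpen_U, hp, subset_rfl,
    {fun p => endU (ε * I) 1 (coord p) - c * (ε * I), fun p => endV (ε * I) 1 (coord p) - c},
    by simp, ?_, ?_⟩⟩
  · intro g hg
    rcases hg with rfl | hg
    · exact fun q _ => (AnalyticAt.comp (g := endU (ε * I) 1) (f := coord)
        (endU_analytic _ _ _ trivial) (coord_analytic q trivial)).sub analyticAt_const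
    · rw [mem_singleton_iff] at hg
      subst hg
      exact fun q _ => (AnalyticAt.comp (g := endV (ε * I) 1) (f := coord)
        (endV_analytic _ _ _ trivial) (coord_analytic q trivial)).sub analyticAt_const
  · intro q hq
    rw [mem_SigmaPart_iff]
    simp only [mem_insert_iff, mem_singleton_iff, forall_eq_or_imp, forall_eq, sub_eq_zero]
    exact ⟨fun h => h.2, fun h => ⟨hq, h⟩⟩

theorem IsAnalyticSubset.union {Z₁ Z₂ : Set P} (h₁ : IsAnalyticSubset Z₁)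
    (h₂ : IsAnalyticSubset Z₂) : IsAnalyticSubset (Z₁ ∪ Z₂) := by
  refine ⟨union_subset h₁.1 h₂.1, fun p hp => ?_⟩
  obtain ⟨W₁, hW₁, hp₁, hU₁, G₁, hfin₁, han₁, hiff₁⟩ := h₁.2 p hp
  obtain ⟨W₂, hW₂, hp₂, hU₂, G₂, hfin₂, han₂, hiff₂⟩ := h₂.2 p hp
  refine ⟨W₁ ∩ W₂, hW₁.inter hW₂, ⟨hp₁, hp₂⟩, inter_subset_left.trans hU₁,
    image2 (fun g h => fun q => g q * h q) G₁ G₂, hfin₁.image2 _ hfin₂, ?_, ?_⟩
  · rintro _ ⟨g, hg, h, hh, rfl⟩ q hq
    exact (han₁ g hg q hq.1).mul (han₂ h hh q hq.2)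
  · intro q hq
    rw [mem_union, hiff₁ q hq.1, hiff₂ q hq.2]
    constructor
    · rintro h _ ⟨g, hg, k, hk, rfl⟩
      rcases h with h | h
      · simp only [h g hg, zero_mul]
      · simp only [h k hk, mul_zero]
    · intro h
      by_contra hcon
      push Not at hcon
      obtain ⟨⟨g, hg, hgq⟩, ⟨k, hk, hkq⟩⟩ := hcon
      have h3 := h _ ⟨g, hg, k, hk, rfl⟩
      exact mul_ne_zero hgq hkq h3

theorem Sigma_eq {ε : ℝ} (hε : ε = 1 ∨ ε = -1) :
    Sigma ε = SigmaPart ε 1 ∪ SigmaPart ε (-1) := by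
  ext p
  rw [mem_Sigma_iff hε, mem_union, mem_SigmaPart_iff, mem_SigmaPart_iff, ← and_or_left]
  apply and_congr_right
  intro _
  unfold Fz
  constructor
  · intro hz
    obtain ⟨u, v, h, hu0, hv0, hu1, hv1⟩ := exists_LSol (ε * I) 1 (coord p)
    have hu : u (2 * π) = ε * I * v (2 * π) := by
      rw [hu1, hv1]
      exact sub_eq_zero.1 hz
    have h2 := h.sq_eq_one (sq_eps hε) hu0 hv0 hu
    have h3 : (v (2 * π) - 1) * (v (2 * π) + 1) = 0 := by linear_combination h2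
    rw [← hu1, ← hv1, hu]
    rcases mul_eq_zero.1 h3 with h4 | h4
    · have h5 : v (2 * π) = 1 := sub_eq_zero.1 h4
      left
      exact ⟨by rw [h5]; ring, h5⟩
    · have h5 : v (2 * π) = -1 := eq_neg_of_add_eq_zero_left h4
      right
      exact ⟨by rw [h5]; ring, h5⟩
  · rintro (⟨h1, h2⟩ | ⟨h1, h2⟩)
    · rw [h1, h2]; ring
    · rw [h1, h2]; ring

theorem SigmaPart_disjoint (ε : ℝ) : Disjoint (SigmaPart ε 1) (SigmaPart ε (-1)) := by
  rw [Set.disjoint_left]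
  intro p h1 h2
  rw [mem_SigmaPart_iff] at h1 h2
  have h3 : (1:ℂ) = -1 := h1.2.2.symm.trans h2.2.2
  norm_num at h3

/-- Points of the boundary families lie on the surfaces. -/
theorem boundary_subset {ε : ℝ} (hε : ε = 1 ∨ ε = -1) {p : P} {par : ℤ → Prop}
    (hp : p ∈ boundaryFamily ε par) : ∃ s : ℤ, par s ∧ p ∈ SigmaPart ε ((-1) ^ s) := by
  obtain ⟨ω, hω, B, A, s, hs, hfr, ⟨φ, hφ, hφ0, k, hk⟩, rfl⟩ := hp
  refine ⟨s, hs, ?_⟩
  rw [← hφ0] at hk
  have hks := eq_of_mem_frontier hω hfr hφ hk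
  subst hks
  have hR := (isPhase_iff hω φ).1 hφ
  obtain ⟨u, v, h, hu0, hv0, hu1, -⟩ := hR.lift
  rw [hφ0, exp_half hε] at hu0
  have hexp : cexp (I * φ (2 * π)) = ε * I := by
    rw [← exp_half hε]
    exact exp_I_eq_iff.2 ⟨k, by rw [hk, hφ0]⟩
  rw [hexp] at hu1
  obtain ⟨k', hk', hv1⟩ := real_point hε h hu0 hv0 hu1 hR hφ0
  have hkk : k' = k := by
    have h1 : (k' : ℝ) * (2 * π) = k * (2 * π) := by linarith
    have h2 : (k' : ℝ) = k := mul_right_cancel₀ (by positivity) h1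
    exact_mod_cast h2
  subst hkk
  refine ⟨?_, u, v, ?_, hu0, hv0, ?_, hv1⟩
  · have : ((1 / (2 * ω) : ℝ) : ℂ) ≠ 0 := by
      rw [Complex.ofReal_ne_zero]
      positivity
    exact this
  · rw [isLinSol_iff]
    simp only
    rw [← Complex.ofReal_mul, ← Complex.ofReal_mul]
    exact h
  · rw [hu1, hv1]
    ring

/-- Real points of the surfaces are boundary points. -/
theorem real_classify {ε : ℝ} (hε : ε = 1 ∨ ε = -1) {b a r : ℝ} (hr : 0 < r)
    (hz : Fz (ε * I) (((r * b : ℝ) : ℂ), ((r * a : ℝ) : ℂ), (r : ℂ)) = 0) :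
    ∃ k : ℤ, (∀ par : ℤ → Prop, par k →
        (((b : ℝ) : ℂ), ((a : ℝ) : ℂ), (r : ℂ)) ∈ boundaryFamily ε par) ∧
      (((b : ℝ) : ℂ), ((a : ℝ) : ℂ), (r : ℂ)) ∈ SigmaPart ε ((-1) ^ k) := by
  obtain ⟨u, v, h, hu0, hv0, hu1, hv1⟩ :=
    exists_LSol (ε * I) 1 (((r * b : ℝ) : ℂ), ((r * a : ℝ) : ℂ), (r : ℂ))
  have hu : u (2 * π) = ε * I * v (2 * π) := by
    rw [hu1, hv1]
    exact sub_eq_zero.1 hz
  obtain ⟨φ, hφ, hφ0⟩ := RSol.exists (r * b) (r * a) r (ε * (π / 2))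
  obtain ⟨k, hk, hvk⟩ := real_point hε h hu0 hv0 hu hφ hφ0
  have hside := side hε h hu0 hv0 hu hφ hφ0 hk
  set ω := 1 / (2 * r) with hω
  have hω0 : 0 < ω := by positivity
  have hrω : 1 / (2 * ω) = r := by
    rw [hω]
    field_simp
  have hiff : ∀ ψ, IsPhase b a ω ψ ↔ RSol (r * b) (r * a) r ψ := fun ψ => by
    rw [isPhase_iff hω0 ψ, hrω]
  refine ⟨k, fun par hpar => ?_, ?_⟩
  · refine ⟨ω, hω0, b, a, k, hpar, ?_, ⟨φ, (hiff φ).2 hφ, hφ0, k, by rw [hk, hφ0]⟩, by rw [hrω]⟩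
    apply mem_frontier_of hω0 ((hiff φ).2 hφ) hk
    rcases hside with hs | hs
    · exact Or.inl fun ψ hψ => hs ψ ((hiff ψ).1 hψ)
    · exact Or.inr fun ψ hψ => hs ψ ((hiff ψ).1 hψ)
  · refine ⟨?_, u, v, ?_, hu0, hv0, ?_, hvk⟩
    · have : (r : ℂ) ≠ 0 := by
        rw [Complex.ofReal_ne_zero]
        exact hr.ne'
      exact this
    · rw [isLinSol_iff]
      simp only
      rw [← Complex.ofReal_mul, ← Complex.ofReal_mul]
      exact h
    · rw [hu, hvk]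
      ring

theorem neg_one_zpow_even {k : ℤ} (h : Even k) : (-1 : ℂ) ^ k = 1 := h.neg_one_zpow

theorem neg_one_zpow_odd {k : ℤ} (h : Odd k) : (-1 : ℂ) ^ k = -1 := h.neg_one_zpow

theorem even_subset {ε : ℝ} (hε : ε = 1 ∨ ε = -1) :
    boundaryFamily ε Even ⊆ SigmaPart ε 1 := by
  intro p hp
  obtain ⟨s, hs, h⟩ := boundary_subset hε hp
  rwa [neg_one_zpow_even hs] at h

theorem odd_subset {ε : ℝ} (hε : ε = 1 ∨ ε = -1) :
    boundaryFamily ε Odd ⊆ SigmaPart ε (-1) := by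
  intro p hp
  obtain ⟨s, hs, h⟩ := boundary_subset hε hp
  rwa [neg_one_zpow_odd hs] at h

/-- The hull of the even boundary family. -/
theorem hull_even {ε : ℝ} (hε : ε = 1 ∨ ε = -1) :
    IsAnalyticHull (boundaryFamily ε Even) (SigmaPart ε 1) := by
  refine ⟨⟨SigmaPart_analytic ε 1, even_subset hε⟩, ?_⟩
  rintro Z ⟨hZ, hsub⟩ p hp
  have hmain := main_propagation (sq_eps hε) (hZ.union (SigmaPart_analytic ε (-1)))
    (fun b a r hr hz => ?_) p hp.1 ?_
  · rcases hmain with h | h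
    · exact h
    · exact absurd h (Set.disjoint_left.1 (SigmaPart_disjoint ε) hp)
  · obtain ⟨k, hk1, hk2⟩ := real_classify hε hr hz
    rcases Int.even_or_odd k with hk | hk
    · exact Or.inl (hsub (hk1 _ hk))
    · rw [neg_one_zpow_odd hk] at hk2
      exact Or.inr hk2
  · have : p ∈ Sigma ε := by rw [Sigma_eq hε]; exact Or.inl hp
    exact ((mem_Sigma_iff hε).1 this).2

/-- The hull of the odd boundary family. -/
theorem hull_odd {ε : ℝ} (hε : ε = 1 ∨ ε = -1) :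
    IsAnalyticHull (boundaryFamily ε Odd) (SigmaPart ε (-1)) := by
  refine ⟨⟨SigmaPart_analytic ε (-1), odd_subset hε⟩, ?_⟩
  rintro Z ⟨hZ, hsub⟩ p hp
  have hmain := main_propagation (sq_eps hε) (hZ.union (SigmaPart_analytic ε 1))
    (fun b a r hr hz => ?_) p hp.1 ?_
  · rcases hmain with h | h
    · exact h
    · exact absurd hp (Set.disjoint_left.1 (SigmaPart_disjoint ε) h)
  · obtain ⟨k, hk1, hk2⟩ := real_classify hε hr hz
    rcases Int.even_or_odd k with hk | hk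
    · rw [neg_one_zpow_even hk] at hk2
      exact Or.inr hk2
    · exact Or.inl (hsub (hk1 _ hk))
  · have : p ∈ Sigma ε := by rw [Sigma_eq hε]; exact Or.inr hp
    exact ((mem_Sigma_iff hε).1 this).2

end Pool.Agent.Josephson
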