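import Pool.Agent.helper74.Jos.Main

set_option autoImplicit false

/-!
# `Mon` is the graph of a map, and it is the monodromy of the Riccati equation
-/

open Set Filter Topology Metric MeasureTheory Complex
open scoped Real NNReal Interval

namespace Pool.Agent.Josephson

theorem proj_mul {x y c : ℂ} (hc : c ≠ 0) : proj (c * x) (c * y) = proj x y := by
  unfold proj
  by_cases hy : y = 0
  · rw [if_pos hy, if_pos (by rw [hy, mul_zero])]
  · rw [if_neg hy, if_neg (mul_ne_zero hc hy), mul_div_mul_left _ _ hc]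

theorem exists_scalar {x y x' y' : ℂ} (h : x ≠ 0 ∨ y ≠ 0) (h' : x' ≠ 0 ∨ y' ≠ 0)
    (he : proj x y = proj x' y') : ∃ c : ℂ, c ≠ 0 ∧ x' = c * x ∧ y' = c * y := by
  unfold proj at he
  by_cases hy : y = 0
  · by_cases hy' : y' = 0
    · have hx : x ≠ 0 := h.resolve_right (not_not.2 hy)
      have hx' : x' ≠ 0 := h'.resolve_right (not_not.2 hy')
      exact ⟨x' / x, div_ne_zero hx' hx, (div_mul_cancel₀ _ hx).symm, by rw [hy, hy', mul_zero]⟩
    · rw [if_pos hy, if_neg hy'] at he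
      exact absurd he.symm (OnePoint.coe_ne_infty _)
  · by_cases hy' : y' = 0
    · rw [if_neg hy, if_pos hy'] at he
      exact absurd he (OnePoint.coe_ne_infty _)
    · rw [if_neg hy, if_neg hy', OnePoint.coe_eq_coe] at he
      refine ⟨y' / y, div_ne_zero hy' hy, ?_, (div_mul_cancel₀ _ hy).symm⟩
      rw [div_eq_div_iff hy hy'] at he
      field_simp
      linear_combination -he

/-- `Mon p` is the graph of a map of the Riemann sphere to itself. -/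
theorem mon_existsUnique (p : P) (Φ₀ : OnePoint ℂ) : ∃! Φ₁, Mon p Φ₀ Φ₁ := by
  obtain ⟨a, b, hab, hΦ⟩ : ∃ a b : ℂ, (a ≠ 0 ∨ b ≠ 0) ∧ proj a b = Φ₀ := by
    induction Φ₀ using OnePoint.rec with
    | infty => exact ⟨1, 0, Or.inl one_ne_zero, by simp [proj]⟩
    | coe c => exact ⟨c, 1, Or.inr one_ne_zero, by simp [proj]⟩
  obtain ⟨u, v, h, hu0, hv0, -, -⟩ := exists_LSol a b (coord p)
  refine ⟨proj (u (2 * π)) (v (2 * π)), ⟨u, v, (isLinSol_iff p u v).2 h, ?_, ?_, rfl⟩, ?_⟩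
  · rw [hu0, hv0]; exact hab
  · rw [hu0, hv0]; exact hΦ
  · rintro Φ₁ ⟨u', v', h', hne, h0, rfl⟩
    rw [isLinSol_iff] at h'
    obtain ⟨c, hc, h1, h2⟩ := exists_scalar hab hne (by rw [hΦ, h0])
    have h3 := (h.smul c).unique h' (by simp only [hu0, h1]) (by simp only [hv0, h2])
      (2 * π) twopi_mem_I
    rw [← h3.1, ← h3.2, proj_mul hc]

/-- A finite solution `Φ` of the Riccati equation on `[0, 2π]` satisfies
`Mon p (Φ 0) (Φ (2π))`. -/
theorem mon_of_riccati (p : P) (Φ : ℝ → ℂ)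
    (hΦ : ∀ τ ∈ Icc (0:ℝ) (2 * π), HasDerivWithinAt Φ
      (2 * I * p.2.2 * (p.1 + p.2.1 * (Real.cos τ : ℂ)) * Φ τ - p.2.2 * (Φ τ ^ 2 - 1))
      (Icc 0 (2 * π)) τ) :
    Mon p ((Φ 0 : ℂ) : OnePoint ℂ) ((Φ (2 * π) : ℂ) : OnePoint ℂ) := by
  set Φe : ℝ → ℂ := IccExtend two_pi_nonneg (fun τ : TI => Φ τ) with hΦe
  have hcΦ : ContinuousOn Φ (Icc 0 (2 * π)) := fun τ hτ => (hΦ τ hτ).continuousWithinAt
  have hce : Continuous Φe := (continuousOn_iff_continuous_domRestrict.1 hcΦ).Icc_extend'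
  have hee : ∀ τ ∈ Icc (0:ℝ) (2 * π), Φe τ = Φ τ := fun τ hτ => IccExtend_of_mem _ _ hτ
  set κ : ℝ → ℂ := fun τ => p.2.2 * Φe τ - I * p.2.2 * (p.1 + p.2.1 * (Real.cos τ : ℂ)) with hκ
  have hκc : Continuous κ := by rw [hκ]; fun_prop
  set v : ℝ → ℂ := fun τ => cexp (∫ s in (0:ℝ)..τ, κ s) with hv
  have hvd : ∀ τ, HasDerivAt v (v τ * κ τ) τ := fun τ =>
    (intervalIntegral.integral_hasDerivAt_right (hκc.intervalIntegrable _ _)
      (hκc.stronglyMeasurableAtFilter _ _) hκc.continuousAt).cexp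
  have hvne : ∀ τ, v τ ≠ 0 := fun τ => Complex.exp_ne_zero _
  refine ⟨fun τ => Φ τ * v τ, v, ⟨fun τ hτ => ?_, fun τ hτ => ?_⟩, Or.inr (hvne 0), ?_, ?_⟩
  · refine ((hΦ τ hτ).mul (hvd τ).hasDerivWithinAt).congr_deriv ?_
    rw [hκ]
    simp only [hee τ hτ]
    ring
  · refine (hvd τ).hasDerivWithinAt.congr_deriv ?_
    rw [hκ]
    simp only [hee τ hτ]
    ring
  · rw [proj_eq_coe]
    exact ⟨hvne 0, rfl⟩
  · rw [proj_eq_coe]
    exact ⟨hvne _, rfl⟩

end Pool.Agent.Josephson
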