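import Mathlib

set_option autoImplicit false

/-!
# The real phase equation: existence, comparison, continuity
-/

open Set Filter Topology Metric
open scoped Real NNReal

namespace Pool.Agent.Josephson

/-- Global solutions of a scalar equation with a bounded, globally Lipschitz right hand side. -/
theorem exists_global_ode (v : ℝ → ℝ → ℝ) (L : ℝ≥0) (K : ℝ≥0)
    (hL : ∀ t x, ‖v t x‖ ≤ L) (hK : ∀ t, LipschitzWith K (v t))
    (hc : ∀ x, Continuous fun t => v t x) (x₀ : ℝ) :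
    ∃ φ : ℝ → ℝ, φ 0 = x₀ ∧ ∀ t, HasDerivAt φ (v t (φ t)) t := by
  have key : ∀ n : ℕ, ∃ α : ℝ → ℝ, α 0 = x₀ ∧
      ∀ t ∈ Ioo (-((n:ℝ)+1)) ((n:ℝ)+1), HasDerivAt α (v t (α t)) t := by
    intro n
    have h0 : (0:ℝ) ∈ Icc (-((n:ℝ)+1)) ((n:ℝ)+1) := ⟨by linarith [n.cast_nonneg (α := ℝ)],
      by linarith [n.cast_nonneg (α := ℝ)]⟩
    have hPL : IsPicardLindelof v (⟨0, h0⟩ : Icc (-((n:ℝ)+1)) ((n:ℝ)+1)) x₀
        (L * ((n:ℝ≥0)+1)) 0 L K := by
      refine ⟨fun t _ => (hK t).lipschitzOnWith, fun x _ => (hc x).continuousOn,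
        fun t _ x _ => hL t x, ?_⟩
      push_cast
      simp
    obtain ⟨α, hα0, hα⟩ := hPL.exists_eq_forall_mem_Icc_hasDerivWithinAt₀
    exact ⟨α, hα0, fun t ht => (hα t (Ioo_subset_Icc_self ht)).hasDerivAt (Icc_mem_nhds ht.1 ht.2)⟩
  choose α hα0 hα using key
  have hcons : ∀ m n : ℕ, m ≤ n → ∀ t ∈ Ioo (-((m:ℝ)+1)) ((m:ℝ)+1), α m t = α n t := by
    intro m n hmn t ht
    have hmn' : (m:ℝ) ≤ n := by exact_mod_cast hmn
    have hm0 : (0:ℝ) ≤ m := m.cast_nonneg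
    have := ODE_solution_unique_of_mem_Ioo (v := v) (s := fun _ => univ) (K := K)
      (f := α m) (g := α n) (a := -((m:ℝ)+1)) (b := (m:ℝ)+1) (t₀ := 0)
      (fun t _ => (hK t).lipschitzOnWith) ⟨by linarith, by linarith⟩
      (fun t ht => ⟨hα m t ht, trivial⟩)
      (fun t ht => ⟨hα n t ⟨by linarith [ht.1], by linarith [ht.2]⟩, trivial⟩)
      (by rw [hα0, hα0])
    exact this ht
  refine ⟨fun t => α ⌊|t|⌋₊ t, ?_, fun t₀ => ?_⟩
  · simpa using hα0 0
  · set N := ⌊|t₀|⌋₊ with hN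
    have ht₀ : t₀ ∈ Ioo (-((N:ℝ)+1)) ((N:ℝ)+1) := by
      have h := Nat.lt_floor_add_one |t₀|
      rw [← hN] at h
      exact abs_lt.1 h
    have heq : (fun t => α ⌊|t|⌋₊ t) =ᶠ[𝓝 t₀] α N := by
      filter_upwards [Ioo_mem_nhds ht₀.1 ht₀.2] with t ht
      have h1 : |t| < (N:ℝ) + 1 := abs_lt.2 ht
      have h2 : ⌊|t|⌋₊ ≤ N := by
        have : ⌊|t|⌋₊ < N + 1 := by
          rw [Nat.floor_lt (abs_nonneg t)]
          push_cast
          exact h1
        omega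
      apply hcons _ _ h2
      exact abs_lt.1 (Nat.lt_floor_add_one |t|)
    have h3 := hα N t₀ ht₀
    have h4 : (fun t => α ⌊|t|⌋₊ t) t₀ = α N t₀ := heq.self_of_nhds
    have h5 : HasDerivAt (fun t => α ⌊|t|⌋₊ t) (v t₀ (α N t₀)) t₀ := h3.congr_of_eventuallyEq heq
    rw [← h4] at h5
    exact h5

/-- The real phase equation, with parameters `b = r B` and `a = r A`. -/
def RSol (b a r : ℝ) (φ : ℝ → ℝ) : Prop :=
  ∀ τ, HasDerivAt φ (2 * (b + a * Real.cos τ) - 2 * r * Real.sin (φ τ)) τ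

theorem RSol.exists (b a r x₀ : ℝ) : ∃ φ, RSol b a r φ ∧ φ 0 = x₀ := by
  have hL0 : 0 ≤ 2 * (|b| + |a|) + 2 * |r| := by positivity
  have hK0 : 0 ≤ 2 * |r| := by positivity
  have H1 : ∀ t x, ‖2 * (b + a * Real.cos t) - 2 * r * Real.sin x‖ ≤
      ((⟨2 * (|b| + |a|) + 2 * |r|, hL0⟩ : ℝ≥0) : ℝ) := by
    intro t x
    rw [Real.norm_eq_abs]
    have h1 : |a * Real.cos t| ≤ |a| := by
      rw [abs_mul]
      exact mul_le_of_le_one_right (abs_nonneg _) (Real.abs_cos_le_one t)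
    have h2 : |r * Real.sin x| ≤ |r| := by
      rw [abs_mul]
      exact mul_le_of_le_one_right (abs_nonneg _) (Real.abs_sin_le_one x)
    have h3 : |2 * (b + a * Real.cos t)| ≤ 2 * (|b| + |a|) := by
      rw [abs_mul, abs_two]
      have := abs_add_le b (a * Real.cos t)
      linarith
    have h4 : |2 * r * Real.sin x| ≤ 2 * |r| := by
      rw [mul_assoc, abs_mul, abs_two]
      linarith
    calc |2 * (b + a * Real.cos t) - 2 * r * Real.sin x|
        ≤ |2 * (b + a * Real.cos t)| + |2 * r * Real.sin x| := abs_sub _ _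
      _ ≤ 2 * (|b| + |a|) + 2 * |r| := by linarith
      _ = _ := rfl
  have H2 : ∀ t, LipschitzWith (⟨2 * |r|, hK0⟩ : ℝ≥0)
      (fun x => 2 * (b + a * Real.cos t) - 2 * r * Real.sin x) := by
    intro t
    apply LipschitzWith.of_dist_le_mul
    intro x y
    rw [Real.dist_eq, Real.dist_eq]
    have h1 : |Real.sin x - Real.sin y| ≤ |x - y| := by
      have h := Real.lipschitzWith_sin.dist_le_mul x y
      rw [Real.dist_eq, Real.dist_eq] at h
      simpa using h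
    have h2 : 2 * (b + a * Real.cos t) - 2 * r * Real.sin x - (2 * (b + a * Real.cos t) -
        2 * r * Real.sin y) = (2 * r) * (Real.sin y - Real.sin x) := by ring
    rw [h2, abs_mul, abs_sub_comm (Real.sin y)]
    have h3 : |2 * r| = 2 * |r| := by rw [abs_mul, abs_two]
    rw [h3]
    exact mul_le_mul_of_nonneg_left h1 (by positivity)
  obtain ⟨φ, h0, h⟩ := exists_global_ode
    (fun t x => 2 * (b + a * Real.cos t) - 2 * r * Real.sin x) _ _ H1 H2
    (fun x => by fun_prop) x₀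
  exact ⟨φ, h, h0⟩

end Pool.Agent.Josephson
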