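import Pool.Agent.helper74.Jos.Real1

set_option autoImplicit false

/-!
# Comparison of solutions of the real phase equation
-/

open Set Filter Topology Metric MeasureTheory
open scoped Real NNReal

namespace Pool.Agent.Josephson

theorem sin_sub_sin_sinc (x y : ℝ) :
    Real.sin y - Real.sin x = Real.cos ((y + x) / 2) * Real.sinc ((y - x) / 2) * (y - x) := by
  by_cases h : y - x = 0
  · have : y = x := by linarith
    subst this
    simp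
  · have h2 : (y - x) / 2 ≠ 0 := by
      intro h'
      apply h
      linarith
    rw [Real.sinc_of_ne_zero h2, Real.sin_sub_sin]
    field_simp

theorem RSol.continuous {b a r : ℝ} {φ : ℝ → ℝ} (h : RSol b a r φ) : Continuous φ :=
  continuous_iff_continuousAt.2 fun t => (h t).continuousAt

/-- The comparison identity: after multiplication by a positive factor the difference of two
solutions is a primitive of the difference of the forcing terms. -/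
theorem compare {b₁ b₂ a₁ a₂ r : ℝ} {φ₁ φ₂ : ℝ → ℝ} (h₁ : RSol b₁ a₁ r φ₁)
    (h₂ : RSol b₂ a₂ r φ₂) :
    ∃ E : ℝ → ℝ, E 0 = 1 ∧ (∀ τ, 0 < E τ) ∧
      (∀ τ, 0 ≤ τ → Real.exp (-(2 * |r| * τ)) ≤ E τ ∧ E τ ≤ Real.exp (2 * |r| * τ)) ∧
      ∀ τ, HasDerivAt (fun τ => (φ₂ τ - φ₁ τ) * E τ)
        ((2 * (b₂ - b₁) + 2 * (a₂ - a₁) * Real.cos τ) * E τ) τ := by
  set κ : ℝ → ℝ := fun τ => 2 * r * (Real.cos ((φ₂ τ + φ₁ τ) / 2) *
    Real.sinc ((φ₂ τ - φ₁ τ) / 2)) with hκ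
  have hc₁ := h₁.continuous
  have hc₂ := h₂.continuous
  have hκc : Continuous κ := by
    rw [hκ]
    have := Real.continuous_sinc
    fun_prop
  have hκb : ∀ τ, |κ τ| ≤ 2 * |r| := by
    intro τ
    rw [hκ]
    simp only
    rw [abs_mul, abs_mul, abs_mul, abs_two]
    have h1 := Real.abs_cos_le_one ((φ₂ τ + φ₁ τ) / 2)
    have h2 := Real.abs_sinc_le_one ((φ₂ τ - φ₁ τ) / 2)
    have h3 : |Real.cos ((φ₂ τ + φ₁ τ) / 2)| * |Real.sinc ((φ₂ τ - φ₁ τ) / 2)| ≤ 1 :=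
      mul_le_one₀ h1 (abs_nonneg _) h2
    exact mul_le_of_le_one_right (by positivity) h3
  have hJ : ∀ τ, HasDerivAt (fun τ => ∫ s in (0:ℝ)..τ, κ s) (κ τ) τ := fun τ =>
    intervalIntegral.integral_hasDerivAt_right (hκc.intervalIntegrable _ _)
      (hκc.stronglyMeasurableAtFilter _ _) hκc.continuousAt
  have hJb : ∀ τ, 0 ≤ τ → |∫ s in (0:ℝ)..τ, κ s| ≤ 2 * |r| * τ := by
    intro τ hτ
    have := intervalIntegral.norm_integral_le_of_norm_le_const (a := (0:ℝ)) (b := τ)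
      (f := κ) (C := 2 * |r|) (fun x _ => by rw [Real.norm_eq_abs]; exact hκb x)
    rw [Real.norm_eq_abs, sub_zero, abs_of_nonneg hτ] at this
    exact this
  refine ⟨fun τ => Real.exp (∫ s in (0:ℝ)..τ, κ s), by simp, fun τ => Real.exp_pos _, ?_, ?_⟩
  · intro τ hτ
    have := abs_le.1 (hJb τ hτ)
    exact ⟨Real.exp_le_exp.2 this.1, Real.exp_le_exp.2 this.2⟩
  · intro τ
    have h3 := ((h₂ τ).sub (h₁ τ)).mul (hJ τ).exp
    have h4 : (2 * (b₂ - b₁) + 2 * (a₂ - a₁) * Real.cos τ) * Real.exp (∫ s in (0:ℝ)..τ, κ s) =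
        (2 * (b₂ + a₂ * Real.cos τ) - 2 * r * Real.sin (φ₂ τ) -
          (2 * (b₁ + a₁ * Real.cos τ) - 2 * r * Real.sin (φ₁ τ))) *
          Real.exp (∫ s in (0:ℝ)..τ, κ s) +
        (φ₂ - φ₁) τ * (Real.exp (∫ s in (0:ℝ)..τ, κ s) * κ τ) := by
      have h5 : κ τ * (φ₂ τ - φ₁ τ) = 2 * r * (Real.sin (φ₂ τ) - Real.sin (φ₁ τ)) := by
        rw [sin_sub_sin_sinc, hκ]
        ring
      rw [Pi.sub_apply]
      linear_combination (-Real.exp (∫ s in (0:ℝ)..τ, κ s)) * h5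
    rw [h4]
    exact h3

/-- Monotonicity in the initial value and in `b`. -/
theorem RSol.mono {b₁ b₂ a r : ℝ} {φ₁ φ₂ : ℝ → ℝ} (h₁ : RSol b₁ a r φ₁)
    (h₂ : RSol b₂ a r φ₂) (hb : b₁ ≤ b₂) (h0 : φ₁ 0 ≤ φ₂ 0) :
    ∀ τ, 0 ≤ τ → φ₁ τ ≤ φ₂ τ := by
  obtain ⟨E, hE0, hEpos, -, hE⟩ := compare h₁ h₂
  intro τ hτ
  have hm : MonotoneOn (fun τ => (φ₂ τ - φ₁ τ) * E τ) (Icc 0 τ) := by
    apply monotoneOn_of_deriv_nonneg (convex_Icc _ _)
    · exact fun t _ => (hE t).continuousAt.continuousWithinAt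
    · exact fun t _ => (hE t).differentiableAt.differentiableWithinAt
    · intro t _
      rw [(hE t).deriv]
      have h3 := (hEpos t).le
      have h4 : 2 * (b₂ - b₁) + 2 * (a - a) * Real.cos t = 2 * (b₂ - b₁) := by ring
      rw [h4]
      exact mul_nonneg (by linarith) h3
  have h3 := hm (left_mem_Icc.2 hτ) (right_mem_Icc.2 hτ) hτ
  simp only [hE0, mul_one] at h3
  have h4 : 0 ≤ (φ₂ τ - φ₁ τ) * E τ := by linarith
  have h5 := nonneg_of_mul_nonneg_left h4 (hEpos τ)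
  linarith

theorem RSol.strictMono {b₁ b₂ a r : ℝ} {φ₁ φ₂ : ℝ → ℝ} (h₁ : RSol b₁ a r φ₁)
    (h₂ : RSol b₂ a r φ₂) (hb : b₁ ≤ b₂) (h0 : φ₁ 0 < φ₂ 0) :
    ∀ τ, 0 ≤ τ → φ₁ τ < φ₂ τ := by
  obtain ⟨E, hE0, hEpos, -, hE⟩ := compare h₁ h₂
  intro τ hτ
  have hm : MonotoneOn (fun τ => (φ₂ τ - φ₁ τ) * E τ) (Icc 0 τ) := by
    apply monotoneOn_of_deriv_nonneg (convex_Icc _ _)
    · exact fun t _ => (hE t).continuousAt.continuousWithinAt
    · exact fun t _ => (hE t).differentiableAt.differentiableWithinAt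
    · intro t _
      rw [(hE t).deriv]
      have h3 := (hEpos t).le
      have h4 : 2 * (b₂ - b₁) + 2 * (a - a) * Real.cos t = 2 * (b₂ - b₁) := by ring
      rw [h4]
      exact mul_nonneg (by linarith) h3
  have h3 := hm (left_mem_Icc.2 hτ) (right_mem_Icc.2 hτ) hτ
  simp only [hE0, mul_one] at h3
  have h4 : 0 < (φ₂ τ - φ₁ τ) * E τ := by linarith
  have h5 := pos_of_mul_pos_left h4 (hEpos τ).le
  linarith

/-- Uniqueness. -/
theorem RSol.unique {b a r : ℝ} {φ₁ φ₂ : ℝ → ℝ} (h₁ : RSol b a r φ₁)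
    (h₂ : RSol b a r φ₂) (h0 : φ₁ 0 = φ₂ 0) : ∀ τ, 0 ≤ τ → φ₁ τ = φ₂ τ :=
  fun τ hτ => le_antisymm (h₁.mono h₂ le_rfl h0.le τ hτ) (h₂.mono h₁ le_rfl h0.ge τ hτ)

/-- Strict growth in `b`, with a uniform gap. -/
theorem RSol.gap {b₁ b₂ : ℝ} (r : ℝ) (hb : b₁ < b₂) : ∃ η > 0, ∀ (a : ℝ) (φ₁ φ₂ : ℝ → ℝ),
    RSol b₁ a r φ₁ → RSol b₂ a r φ₂ → φ₁ 0 ≤ φ₂ 0 → φ₁ (2 * π) + η ≤ φ₂ (2 * π) := by
  refine ⟨Real.exp (-(2 * |r| * (2 * π))) * (2 * (b₂ - b₁) * Real.exp (-(2 * |r| * (2 * π))) *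
    (2 * π)), ?_, ?_⟩
  · have := Real.pi_pos
    have h3 : 0 < b₂ - b₁ := by linarith
    positivity
  intro a φ₁ φ₂ h₁ h₂ h0
  obtain ⟨E, hE0, hEpos, hEb, hE⟩ := compare h₁ h₂
  have hpi : 0 ≤ 2 * π := by positivity
  set c := 2 * (b₂ - b₁) * Real.exp (-(2 * |r| * (2 * π))) with hc
  have hc0 : 0 ≤ c := by
    have h3 : 0 < b₂ - b₁ := by linarith
    positivity
  have h3 : c * (2 * π - 0) ≤ (fun τ => (φ₂ τ - φ₁ τ) * E τ) (2 * π) -
      (fun τ => (φ₂ τ - φ₁ τ) * E τ) 0 := by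
    apply Convex.mul_sub_le_image_sub_of_le_deriv (convex_Icc 0 (2 * π))
      (f := fun τ => (φ₂ τ - φ₁ τ) * E τ)
    · exact fun t _ => (hE t).continuousAt.continuousWithinAt
    · exact fun t _ => (hE t).differentiableAt.differentiableWithinAt
    · intro t ht
      rw [interior_Icc] at ht
      rw [(hE t).deriv]
      have h4 : 2 * (b₂ - b₁) + 2 * (a - a) * Real.cos t = 2 * (b₂ - b₁) := by ring
      rw [h4, hc]
      have h5 := (hEb t ht.1.le).1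
      have h6 : Real.exp (-(2 * |r| * (2 * π))) ≤ Real.exp (-(2 * |r| * t)) := by
        apply Real.exp_le_exp.2
        have := mul_le_mul_of_nonneg_left ht.2.le (by positivity : 0 ≤ 2 * |r|)
        linarith
      exact mul_le_mul_of_nonneg_left (h6.trans h5) (by linarith)
    · exact left_mem_Icc.2 hpi
    · exact right_mem_Icc.2 hpi
    · exact hpi
  simp only [hE0, mul_one, sub_zero] at h3
  have h4 : c * (2 * π) ≤ (φ₂ (2 * π) - φ₁ (2 * π)) * E (2 * π) := by linarith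
  have h5 := (hEb (2 * π) hpi).2
  have h6 : 0 ≤ φ₂ (2 * π) - φ₁ (2 * π) := by
    have h7 : 0 ≤ (φ₂ (2 * π) - φ₁ (2 * π)) * E (2 * π) := le_trans (by positivity) h4
    exact nonneg_of_mul_nonneg_left h7 (hEpos _)
  have h8 : c * (2 * π) ≤ (φ₂ (2 * π) - φ₁ (2 * π)) * Real.exp (2 * |r| * (2 * π)) :=
    h4.trans (mul_le_mul_of_nonneg_left h5 h6)
  have h9 : Real.exp (-(2 * |r| * (2 * π))) * (c * (2 * π)) ≤ φ₂ (2 * π) - φ₁ (2 * π) := by
    have h10 := mul_le_mul_of_nonneg_left h8 (Real.exp_pos (-(2 * |r| * (2 * π)))).le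
    refine h10.trans (le_of_eq ?_)
    rw [mul_comm (φ₂ (2 * π) - φ₁ (2 * π)), ← mul_assoc, ← Real.exp_add]
    simp
  linarith

/-- Continuous dependence. -/
theorem RSol.lip {b₁ b₂ a₁ a₂ r : ℝ} {φ₁ φ₂ : ℝ → ℝ} (h₁ : RSol b₁ a₁ r φ₁)
    (h₂ : RSol b₂ a₂ r φ₂) {T : ℝ} (hT : 0 ≤ T) :
    |φ₂ T - φ₁ T| ≤ Real.exp (2 * |r| * T) * (|φ₂ 0 - φ₁ 0| +
      (2 * |b₂ - b₁| + 2 * |a₂ - a₁|) * Real.exp (2 * |r| * T) * T) := by
  obtain ⟨E, hE0, hEpos, hEb, hE⟩ := compare h₁ h₂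
  have h3 : ‖(fun τ => (φ₂ τ - φ₁ τ) * E τ) T - (fun τ => (φ₂ τ - φ₁ τ) * E τ) 0‖ ≤
      ((2 * |b₂ - b₁| + 2 * |a₂ - a₁|) * Real.exp (2 * |r| * T)) * ‖T - 0‖ := by
    apply Convex.norm_image_sub_le_of_norm_hasDerivWithin_le (s := Icc 0 T)
      (f := fun τ => (φ₂ τ - φ₁ τ) * E τ) (fun t _ => (hE t).hasDerivWithinAt)
    · intro t ht
      rw [norm_mul, Real.norm_eq_abs, Real.norm_eq_abs, abs_of_pos (hEpos t)]
      have h5 := (hEb t ht.1).2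
      have h6 : Real.exp (2 * |r| * t) ≤ Real.exp (2 * |r| * T) := by
        apply Real.exp_le_exp.2
        exact mul_le_mul_of_nonneg_left ht.2 (by positivity)
      have h7 : |2 * (b₂ - b₁) + 2 * (a₂ - a₁) * Real.cos t| ≤ 2 * |b₂ - b₁| + 2 * |a₂ - a₁| := by
        refine (abs_add_le _ _).trans ?_
        rw [abs_mul, abs_mul, abs_mul, abs_two]
        have := mul_le_of_le_one_right (by positivity : 0 ≤ 2 * |a₂ - a₁|)
          (Real.abs_cos_le_one t)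
        linarith
      exact mul_le_mul h7 (h5.trans h6) (hEpos t).le (by positivity)
    · exact convex_Icc _ _
    · exact left_mem_Icc.2 hT
    · exact right_mem_Icc.2 hT
  simp only [hE0, mul_one, sub_zero, Real.norm_eq_abs, abs_of_nonneg hT] at h3
  have h4 : |(φ₂ T - φ₁ T) * E T| ≤ |φ₂ 0 - φ₁ 0| +
      (2 * |b₂ - b₁| + 2 * |a₂ - a₁|) * Real.exp (2 * |r| * T) * T := by
    have := abs_sub_abs_le_abs_sub ((φ₂ T - φ₁ T) * E T) (φ₂ 0 - φ₁ 0)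
    linarith
  rw [abs_mul, abs_of_pos (hEpos T)] at h4
  have h5 := (hEb T hT).1
  have h6 : |φ₂ T - φ₁ T| * Real.exp (-(2 * |r| * T)) ≤ |φ₂ 0 - φ₁ 0| +
      (2 * |b₂ - b₁| + 2 * |a₂ - a₁|) * Real.exp (2 * |r| * T) * T :=
    (mul_le_mul_of_nonneg_left h5 (abs_nonneg _)).trans h4
  have h7 := mul_le_mul_of_nonneg_left h6 (Real.exp_pos (2 * |r| * T)).le
  have h8 : Real.exp (2 * |r| * T) * (|φ₂ T - φ₁ T| * Real.exp (-(2 * |r| * T))) =
      |φ₂ T - φ₁ T| := by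
    rw [mul_left_comm, ← Real.exp_add]
    simp
  rw [h8] at h7
  exact h7

end Pool.Agent.Josephson
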