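import Pool.Agent.helper74.Jos.Real2

set_option autoImplicit false

/-!
# Rotation numbers of the real phase equation
-/

open Set Filter Topology Metric MeasureTheory
open scoped Real NNReal

namespace Pool.Agent.Josephson

theorem RSol.shift {b a r : ℝ} {φ : ℝ → ℝ} (h : RSol b a r φ) (n : ℕ) (k : ℤ) :
    RSol b a r (fun τ => φ (τ + n * (2 * π)) + k * (2 * π)) := by
  intro τ
  have h1 := (HasDerivAt.comp_add_const τ (n * (2 * π)) (h (τ + n * (2 * π)))).add_const
    (k * (2 * π))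
  have h2 : Real.cos (τ + n * (2 * π)) = Real.cos τ := Real.cos_add_nat_mul_two_pi τ n
  have h3 : Real.sin (φ (τ + n * (2 * π)) + k * (2 * π)) = Real.sin (φ (τ + n * (2 * π))) :=
    Real.sin_add_int_mul_two_pi _ k
  simp only [h3]
  rw [h2] at h1
  exact h1

theorem RSol.add_int {b a r : ℝ} {φ : ℝ → ℝ} (h : RSol b a r φ) (k : ℤ) :
    RSol b a r (fun τ => φ τ + k * (2 * π)) := by
  simpa using h.shift 0 k

/-- `φ` has rotation number `s`. -/
def Rot (φ : ℝ → ℝ) (s : ℝ) : Prop := Tendsto (fun τ => φ τ / τ) atTop (𝓝 s)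

theorem rot_of_bounded_diff {φ ψ : ℝ → ℝ} {s C : ℝ} (hφ : Rot φ s)
    (h : ∀ τ, 0 ≤ τ → |ψ τ - φ τ| ≤ C) : Rot ψ s := by
  have h1 : Tendsto (fun τ : ℝ => (ψ τ - φ τ) / τ) atTop (𝓝 0) := by
    have h2 : Tendsto (fun τ : ℝ => C / τ) atTop (𝓝 0) := tendsto_const_nhds.div_atTop tendsto_id
    apply squeeze_zero_norm' _ h2
    filter_upwards [eventually_gt_atTop 0] with τ hτ
    rw [Real.norm_eq_abs, abs_div, abs_of_pos hτ]
    exact div_le_div_of_nonneg_right (h τ hτ.le) hτ.le
  have h3 := hφ.add h1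
  rw [add_zero] at h3
  refine h3.congr' ?_
  filter_upwards with τ
  rw [← add_div]
  congr 1
  ring

/-- All solutions have the same rotation number. -/
theorem Rot.of_sol {b a r : ℝ} {φ ψ : ℝ → ℝ} (hφ : RSol b a r φ) (hψ : RSol b a r ψ) {s : ℝ}
    (h : Rot φ s) : Rot ψ s := by
  obtain ⟨N, hN⟩ := exists_nat_ge (|ψ 0 - φ 0| / (2 * π))
  have hpi : 0 < 2 * π := by positivity
  have hN' : |ψ 0 - φ 0| ≤ N * (2 * π) := by rwa [div_le_iff₀ hpi] at hN
  have h1 := abs_le.1 hN'
  apply rot_of_bounded_diff (C := N * (2 * π)) h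
  intro τ hτ
  have h2 := (hφ.add_int (-(N:ℤ))).mono hψ le_rfl (by push_cast; linarith) τ hτ
  have h3 := hψ.mono (hφ.add_int (N:ℤ)) le_rfl (by push_cast; linarith) τ hτ
  push_cast at h2 h3
  rw [abs_le]
  constructor <;> linarith

theorem tendsto_sub_seq {φ : ℝ → ℝ} {s : ℝ} (h : Rot φ s) (m : ℕ) (hm : 0 < m) :
    Tendsto (fun n : ℕ => φ ((n * m : ℕ) * (2 * π)) / ((n * m : ℕ) * (2 * π))) atTop (𝓝 s) := by
  apply h.comp
  apply Tendsto.atTop_mul_const (by positivity)
  apply tendsto_natCast_atTop_atTop.comp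
  exact tendsto_id.atTop_mul_const' hm

/-- If a solution advances by at most `2 π j` during `m` periods then its rotation number is at
most `j / m`. -/
theorem Rot.le_of {b a r : ℝ} {φ : ℝ → ℝ} (hφ : RSol b a r φ) {s : ℝ} (h : Rot φ s) (m : ℕ)
    (hm : 0 < m) (j : ℤ) (hj : φ (m * (2 * π)) ≤ φ 0 + j * (2 * π)) : s ≤ j / m := by
  have key : ∀ n : ℕ, φ ((n * m : ℕ) * (2 * π)) ≤ φ 0 + n * (j * (2 * π)) := by
    intro n
    induction n with
    | zero => simp
    | succ n ih =>
      have h1 := (hφ.shift m (-j)).mono hφ le_rfl (by simpa using by linarith)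
        ((n * m : ℕ) * (2 * π)) (by positivity)
      push_cast at h1 ih ⊢
      have h2 : ((n:ℝ) + 1) * m * (2 * π) = n * m * (2 * π) + m * (2 * π) := by ring
      rw [h2]
      linarith
  have h1 := tendsto_sub_seq h m hm
  have hm' : (0:ℝ) < m := by exact_mod_cast hm
  have h2 : Tendsto (fun n : ℕ => (φ 0 + n * (j * (2 * π))) / ((n * m : ℕ) * (2 * π))) atTop
      (𝓝 (j / m)) := by
    have h3 : Tendsto (fun n : ℕ => (φ 0 / (m * (2 * π))) / (n:ℝ) + j / m) atTop
        (𝓝 (0 + j / m)) :=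
      (tendsto_const_nhds.div_atTop tendsto_natCast_atTop_atTop).add tendsto_const_nhds
    rw [zero_add] at h3
    refine h3.congr' ?_
    filter_upwards [eventually_gt_atTop 0] with n hn
    have hn' : (0:ℝ) < n := by exact_mod_cast hn
    push_cast
    field_simp
  refine le_of_tendsto_of_tendsto h1 h2 ?_
  filter_upwards with n
  exact div_le_div_of_nonneg_right (key n) (by positivity)

theorem Rot.ge_of {b a r : ℝ} {φ : ℝ → ℝ} (hφ : RSol b a r φ) {s : ℝ} (h : Rot φ s) (m : ℕ)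
    (hm : 0 < m) (j : ℤ) (hj : φ 0 + j * (2 * π) ≤ φ (m * (2 * π))) : j / m ≤ s := by
  have key : ∀ n : ℕ, φ 0 + n * (j * (2 * π)) ≤ φ ((n * m : ℕ) * (2 * π)) := by
    intro n
    induction n with
    | zero => simp
    | succ n ih =>
      have h1 := hφ.mono (hφ.shift m (-j)) le_rfl (by simpa using by linarith)
        ((n * m : ℕ) * (2 * π)) (by positivity)
      push_cast at h1 ih ⊢
      have h2 : ((n:ℝ) + 1) * m * (2 * π) = n * m * (2 * π) + m * (2 * π) := by ring
      rw [h2]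
      linarith
  have h1 := tendsto_sub_seq h m hm
  have hm' : (0:ℝ) < m := by exact_mod_cast hm
  have h2 : Tendsto (fun n : ℕ => (φ 0 + n * (j * (2 * π))) / ((n * m : ℕ) * (2 * π))) atTop
      (𝓝 (j / m)) := by
    have h3 : Tendsto (fun n : ℕ => (φ 0 / (m * (2 * π))) / (n:ℝ) + j / m) atTop
        (𝓝 (0 + j / m)) :=
      (tendsto_const_nhds.div_atTop tendsto_natCast_atTop_atTop).add tendsto_const_nhds
    rw [zero_add] at h3
    refine h3.congr' ?_
    filter_upwards [eventually_gt_atTop 0] with n hn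
    have hn' : (0:ℝ) < n := by exact_mod_cast hn
    push_cast
    field_simp
  refine le_of_tendsto_of_tendsto h2 h1 ?_
  filter_upwards with n
  exact div_le_div_of_nonneg_right (key n) (by positivity)

/-- If all solutions advance by at least `c` in each period, the rotation number is at least
`c / 2π`. -/
theorem Rot.ge_of_all {b a r : ℝ} {φ : ℝ → ℝ} (hφ : RSol b a r φ) {s : ℝ} (h : Rot φ s) (c : ℝ)
    (hc : ∀ ψ, RSol b a r ψ → ψ 0 + c ≤ ψ (2 * π)) : c / (2 * π) ≤ s := by
  have key : ∀ n : ℕ, φ 0 + n * c ≤ φ ((n * 1 : ℕ) * (2 * π)) := by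
    intro n
    induction n with
    | zero => simp
    | succ n ih =>
      have h1 := hc _ (hφ.shift n 0)
      push_cast at h1 ih ⊢
      have h2 : ((n:ℝ) + 1) * 1 * (2 * π) = 2 * π + n * (2 * π) := by ring
      rw [h2]
      simp only [zero_mul, add_zero, zero_add, mul_one] at h1 ih
      linarith
  have h1 := tendsto_sub_seq h 1 one_pos
  have h2 : Tendsto (fun n : ℕ => (φ 0 + n * c) / ((n * 1 : ℕ) * (2 * π))) atTop
      (𝓝 (c / (2 * π))) := by
    have h3 : Tendsto (fun n : ℕ => (φ 0 / (2 * π)) / (n:ℝ) + c / (2 * π)) atTop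
        (𝓝 (0 + c / (2 * π))) :=
      (tendsto_const_nhds.div_atTop tendsto_natCast_atTop_atTop).add tendsto_const_nhds
    rw [zero_add] at h3
    refine h3.congr' ?_
    filter_upwards [eventually_gt_atTop 0] with n hn
    have hn' : (0:ℝ) < n := by exact_mod_cast hn
    push_cast
    field_simp
  refine le_of_tendsto_of_tendsto h2 h1 ?_
  filter_upwards with n
  exact div_le_div_of_nonneg_right (key n) (by positivity)

theorem Rot.le_of_all {b a r : ℝ} {φ : ℝ → ℝ} (hφ : RSol b a r φ) {s : ℝ} (h : Rot φ s) (c : ℝ)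
    (hc : ∀ ψ, RSol b a r ψ → ψ (2 * π) ≤ ψ 0 + c) : s ≤ c / (2 * π) := by
  have key : ∀ n : ℕ, φ ((n * 1 : ℕ) * (2 * π)) ≤ φ 0 + n * c := by
    intro n
    induction n with
    | zero => simp
    | succ n ih =>
      have h1 := hc _ (hφ.shift n 0)
      push_cast at h1 ih ⊢
      have h2 : ((n:ℝ) + 1) * 1 * (2 * π) = 2 * π + n * (2 * π) := by ring
      rw [h2]
      simp only [zero_mul, add_zero, zero_add, mul_one] at h1 ih
      linarith
  have h1 := tendsto_sub_seq h 1 one_pos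
  have h2 : Tendsto (fun n : ℕ => (φ 0 + n * c) / ((n * 1 : ℕ) * (2 * π))) atTop
      (𝓝 (c / (2 * π))) := by
    have h3 : Tendsto (fun n : ℕ => (φ 0 / (2 * π)) / (n:ℝ) + c / (2 * π)) atTop
        (𝓝 (0 + c / (2 * π))) :=
      (tendsto_const_nhds.div_atTop tendsto_natCast_atTop_atTop).add tendsto_const_nhds
    rw [zero_add] at h3
    refine h3.congr' ?_
    filter_upwards [eventually_gt_atTop 0] with n hn
    have hn' : (0:ℝ) < n := by exact_mod_cast hn
    push_cast
    field_simp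
  refine le_of_tendsto_of_tendsto h1 h2 ?_
  filter_upwards with n
  exact div_le_div_of_nonneg_right (key n) (by positivity)

/-- A solution advancing by exactly `2 π k` in a period has rotation number `k`. -/
theorem Rot.of_fixed {b a r : ℝ} {φ : ℝ → ℝ} (hφ : RSol b a r φ) (k : ℤ)
    (hk : φ (2 * π) = φ 0 + k * (2 * π)) : Rot φ k := by
  have hper : ∀ τ, 0 ≤ τ → φ (τ + 2 * π) = φ τ + k * (2 * π) := by
    intro τ hτ
    have h1 := (hφ.shift 1 (-k)).unique hφ (by push_cast; rw [zero_add, one_mul, hk]; ring) τ hτ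
    push_cast at h1
    rw [one_mul] at h1
    linarith
  have hper' : ∀ (n : ℕ) (τ : ℝ), 0 ≤ τ → φ (τ + n * (2 * π)) = φ τ + n * (k * (2 * π)) := by
    intro n
    induction n with
    | zero => intro τ _; simp
    | succ n ih =>
      intro τ hτ
      have h1 : τ + ((n + 1 : ℕ) : ℝ) * (2 * π) = (τ + n * (2 * π)) + 2 * π := by push_cast; ring
      rw [h1, hper _ (by positivity), ih τ hτ]
      push_cast
      ring
  obtain ⟨C, hC⟩ : ∃ C, ∀ t ∈ Icc (0:ℝ) (2 * π), |φ t - k * t| ≤ C := by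
    have h1 : ContinuousOn (fun t => |φ t - k * t|) (Icc 0 (2 * π)) := by
      have := hφ.continuous
      fun_prop
    obtain ⟨C, hC⟩ := (isCompact_Icc.image_of_continuousOn h1).bddAbove
    exact ⟨C, fun t ht => hC ⟨t, ht, rfl⟩⟩
  have hlin : Rot (fun τ => (k:ℝ) * τ) k := by
    unfold Rot
    refine (tendsto_const_nhds (x := (k:ℝ))).congr' ?_
    filter_upwards [eventually_gt_atTop 0] with τ hτ
    field_simp
  apply rot_of_bounded_diff (C := C) hlin
  intro τ hτ
  have hpi : 0 < 2 * π := by positivity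
  set n := ⌊τ / (2 * π)⌋₊ with hn
  have h1 : (n:ℝ) ≤ τ / (2 * π) := Nat.floor_le (by positivity)
  have h2 : τ / (2 * π) < n + 1 := Nat.lt_floor_add_one _
  rw [le_div_iff₀ hpi] at h1
  rw [div_lt_iff₀ hpi] at h2
  have h3 := hper' n (τ - n * (2 * π)) (by linarith)
  rw [sub_add_cancel] at h3
  have h4 := hC (τ - n * (2 * π)) ⟨by linarith, by linarith⟩
  rw [h3]
  convert h4 using 2
  ring

end Pool.Agent.Josephson
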