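import Pool.Agent.helper74.Jos.Real3
import Pool.Agent.helper74.Jos.Defs

set_option autoImplicit false

/-!
# Boundary points of the phase-lock areas
-/

open Set Filter Topology Metric MeasureTheory
open scoped Real NNReal

namespace Pool.Agent.Josephson

theorem isPhase_iff {B A ω : ℝ} (hω : 0 < ω) (φ : ℝ → ℝ) :
    IsPhase B A ω φ ↔ RSol (1 / (2 * ω) * B) (1 / (2 * ω) * A) (1 / (2 * ω)) φ := by
  unfold IsPhase RSol
  refine forall_congr' fun τ => ?_
  have h : (-Real.sin (φ τ) + B + A * Real.cos τ) / ω =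
      2 * (1 / (2 * ω) * B + 1 / (2 * ω) * A * Real.cos τ) -
        2 * (1 / (2 * ω)) * Real.sin (φ τ) := by
    field_simp
    ring
  rw [h]

theorem hasRotationNumber_of {B A ω : ℝ} (hω : 0 < ω) {φ : ℝ → ℝ} (h : IsPhase B A ω φ) {s : ℝ}
    (hs : Rot φ s) : HasRotationNumber B A ω s := fun _ hψ =>
  Rot.of_sol ((isPhase_iff hω _).1 h) ((isPhase_iff hω _).1 hψ) hs

/-- At a point with a solution advancing by `2πk` and such that the Poincaré map does not cross
the shift by `2πk`, we are on the boundary of `L_k`. -/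
theorem mem_frontier_of {B A ω : ℝ} (hω : 0 < ω) {k : ℤ} {φ : ℝ → ℝ} (h : IsPhase B A ω φ)
    (hk : φ (2 * π) = φ 0 + k * (2 * π))
    (hside : (∀ ψ, IsPhase B A ω ψ → ψ 0 + k * (2 * π) ≤ ψ (2 * π)) ∨
      (∀ ψ, IsPhase B A ω ψ → ψ (2 * π) ≤ ψ 0 + k * (2 * π))) :
    (B, A) ∈ frontier (lockArea ω k) := by
  have hpi : 0 < 2 * π := by positivity
  have hr : 0 < 1 / (2 * ω) := by positivity
  have hmem : (B, A) ∈ lockArea ω k :=
    hasRotationNumber_of hω h (Rot.of_fixed ((isPhase_iff hω _).1 h) k hk)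
  refine ⟨subset_closure hmem, fun hint => ?_⟩
  rw [mem_interior_iff_mem_nhds] at hint
  have hc : Tendsto (fun x : ℝ => ((x, A) : ℝ × ℝ)) (𝓝 B) (𝓝 (B, A)) :=
    (Continuous.prodMk_left A).continuousAt
  have h1 : ∀ᶠ x in 𝓝 B, (x, A) ∈ lockArea ω k := hc hint
  rcases hside with hside | hside
  · obtain ⟨B', hB', hBB'⟩ : ∃ B', (B', A) ∈ lockArea ω k ∧ B < B' := by
      have h2 : ∀ᶠ x in 𝓝[>] B, (x, A) ∈ lockArea ω k := nhdsWithin_le_nhds h1
      obtain ⟨x, hx1, hx2⟩ := (h2.and self_mem_nhdsWithin).exists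
      exact ⟨x, hx1, hx2⟩
    obtain ⟨η, hη, hgap⟩ := RSol.gap (1 / (2 * ω)) (mul_lt_mul_of_pos_left hBB' hr)
    obtain ⟨ψ, hψ, -⟩ := RSol.exists (1 / (2 * ω) * B') (1 / (2 * ω) * A) (1 / (2 * ω)) 0
    have hrot : Rot ψ k := hB' ψ ((isPhase_iff hω _).2 hψ)
    have h3 := Rot.ge_of_all hψ hrot (k * (2 * π) + η) (fun χ hχ => by
      obtain ⟨χ', hχ', h0⟩ := RSol.exists (1 / (2 * ω) * B) (1 / (2 * ω) * A) (1 / (2 * ω)) (χ 0)
      have h4 := hgap _ χ' χ hχ' hχ h0.le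
      have h5 := hside χ' ((isPhase_iff hω _).2 hχ')
      rw [h0] at h5
      linarith)
    rw [div_le_iff₀ hpi] at h3
    linarith
  · obtain ⟨B', hB', hBB'⟩ : ∃ B', (B', A) ∈ lockArea ω k ∧ B' < B := by
      have h2 : ∀ᶠ x in 𝓝[<] B, (x, A) ∈ lockArea ω k := nhdsWithin_le_nhds h1
      obtain ⟨x, hx1, hx2⟩ := (h2.and self_mem_nhdsWithin).exists
      exact ⟨x, hx1, hx2⟩
    obtain ⟨η, hη, hgap⟩ := RSol.gap (1 / (2 * ω)) (mul_lt_mul_of_pos_left hBB' hr)
    obtain ⟨ψ, hψ, -⟩ := RSol.exists (1 / (2 * ω) * B') (1 / (2 * ω) * A) (1 / (2 * ω)) 0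
    have hrot : Rot ψ k := hB' ψ ((isPhase_iff hω _).2 hψ)
    have h3 := Rot.le_of_all hψ hrot (k * (2 * π) - η) (fun χ hχ => by
      obtain ⟨χ', hχ', h0⟩ := RSol.exists (1 / (2 * ω) * B) (1 / (2 * ω) * A) (1 / (2 * ω)) (χ 0)
      have h4 := hgap _ χ χ' hχ hχ' h0.ge
      have h5 := hside χ' ((isPhase_iff hω _).2 hχ')
      rw [h0] at h5
      linarith)
    rw [le_div_iff₀ hpi] at h3
    linarith

/-- On the boundary of `L_s`, if a solution advances by `2πk` then `k = s`. -/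
theorem eq_of_mem_frontier {B A ω : ℝ} (hω : 0 < ω) {s k : ℤ}
    (hs : (B, A) ∈ frontier (lockArea ω s)) {φ : ℝ → ℝ} (h : IsPhase B A ω φ)
    (hk : φ (2 * π) = φ 0 + k * (2 * π)) : k = s := by
  have hpi : 0 < 2 * π := by positivity
  have hr : 0 < 1 / (2 * ω) := by positivity
  have hφ := (isPhase_iff hω _).1 h
  have hcl : (B, A) ∈ closure (lockArea ω s) := frontier_subset_closure hs
  -- displacement over two periods
  have h2 : φ ((2:ℕ) * (2 * π)) = φ 0 + 2 * k * (2 * π) := by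
    have h1 := (hφ.shift 1 (-k)).unique hφ (by push_cast; rw [zero_add, one_mul, hk]; ring)
      (2 * π) hpi.le
    push_cast at h1 ⊢
    rw [one_mul] at h1
    have h3 : (2:ℝ) * (2 * π) = 2 * π + 2 * π := by ring
    rw [h3]
    linarith
  have h2' : φ (2 * (2 * π)) = φ 0 + 2 * k * (2 * π) := by
    rw [← h2]
    norm_num
  set r := 1 / (2 * ω) with hrdef
  set T : ℝ := (2:ℕ) * (2 * π) with hT
  have hT0 : 0 ≤ T := by positivity
  -- a neighbourhood of (B, A) on which the displacement over two periods changes little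
  have hcont : Tendsto (fun q : ℝ × ℝ => Real.exp (2 * |r| * T) *
      ((2 * |r * q.1 - r * B| + 2 * |r * q.2 - r * A|) * Real.exp (2 * |r| * T) * T))
      (𝓝 (B, A)) (𝓝 0) := by
    have : Continuous (fun q : ℝ × ℝ => Real.exp (2 * |r| * T) *
      ((2 * |r * q.1 - r * B| + 2 * |r * q.2 - r * A|) * Real.exp (2 * |r| * T) * T)) := by
      fun_prop
    have h3 := this.tendsto (B, A)
    simpa using h3
  have hev : ∀ᶠ q : ℝ × ℝ in 𝓝 (B, A), Real.exp (2 * |r| * T) *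
      ((2 * |r * q.1 - r * B| + 2 * |r * q.2 - r * A|) * Real.exp (2 * |r| * T) * T) < 1 :=
    hcont.eventually (gt_mem_nhds one_pos)
  obtain ⟨q, hq1, hq2⟩ := (mem_closure_iff_frequently.1 hcl).and_eventually hev |>.exists
  obtain ⟨ψ, hψ, hψ0⟩ := RSol.exists (r * q.1) (r * q.2) r (φ 0)
  have hrot : Rot ψ s := hq1 ψ ((isPhase_iff hω _).2 hψ)
  have hlip := RSol.lip hφ hψ hT0
  rw [hψ0, sub_self, abs_zero, zero_add] at hlip
  have hlt := hlip.trans_lt hq2
  rw [abs_lt] at hlt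
  have hpi3 := Real.pi_gt_three
  have h3 : s ≤ (((2 * k + 1 : ℤ)) : ℝ) / (2:ℕ) := by
    apply Rot.le_of hψ hrot 2 two_pos (2 * k + 1)
    rw [hψ0]
    push_cast
    have := hlt.2
    rw [hT] at this
    push_cast at this
    linarith
  have h4 : (((2 * k - 1 : ℤ)) : ℝ) / (2:ℕ) ≤ s := by
    apply Rot.ge_of hψ hrot 2 two_pos (2 * k - 1)
    rw [hψ0]
    push_cast
    have := hlt.1
    rw [hT] at this
    push_cast at this
    linarith
  push_cast at h3 h4
  have h5 : (s:ℝ) < k + 1 := by linarith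
  have h6 : (k:ℝ) - 1 < s := by linarith
  have h7 : s < k + 1 := by exact_mod_cast h5
  have h8 : k - 1 < s := by exact_mod_cast h6
  omega

end Pool.Agent.Josephson
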